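import Pool.Agent.Helper27.PL.Q5
import Pool.Agent.Helper94.BR.Mo
import Pool.Agent.Helper75.GF.L0

/-!
# Project DV (MP_973bc8_pr): translation by lattice vectors and scaling
-/

open Finset Filter Topology MeasureTheory Pointwise

namespace DV

open RP4 (V Adj BdryPar Om dom avg mu Loc Deloc dist1 cnt par LSym mass cell)
open GF (Pl)
open GF.Lat (Xd)

/-- translation of the configuration -/
def ts (a : V) (g : V → ℤ) : V → ℤ := fun v => g (v + a)

lemma ts_apply (a : V) (g : V → ℤ) (v : V) : ts a g v = g (v + a) := rfl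

lemma ts_zero (g : V → ℤ) : ts 0 g = g := by
  funext v
  rw [ts_apply, add_zero]

lemma ts_add (a b : V) (g : V → ℤ) : ts a (ts b g) = ts (a + b) g := by
  funext v
  rw [ts_apply, ts_apply, ts_apply, add_assoc]

lemma ts_neg (a : V) (g : V → ℤ) : ts a (ts (-a) g) = g := by
  rw [ts_add, add_neg_cancel, ts_zero]

lemma ts_neg' (a : V) (g : V → ℤ) : ts (-a) (ts a g) = g := by
  rw [ts_add, neg_add_cancel, ts_zero]

lemma lev_ts (k : ℤ) (a : V) (g : V → ℤ) : lev k (ts a g) = ts a (lev k g) := rfl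

lemma pt_add (δ : ℝ) (u v : V) : pt δ (u + v) = pt δ u + pt δ v := by
  unfold pt
  ext <;> simp <;> ring

lemma lsym_add (a : V) : LSym (Equiv.addRight a : V ≃ V) := by
  refine ⟨fun u v => ?_, fun u v => ?_⟩
  · unfold RP4.Adj
    simp
  · have h : par (Equiv.addRight a u) - par (Equiv.addRight a v) - (par u - par v) = 0 := by
      unfold RP4.par
      simp
      ring
    rw [h]
    exact Even.zero

lemma sep_ts (a : V) {X Y : Set V} {g : V → ℤ} :
    Sep X Y (ts a g) ↔ Sep ((Equiv.addRight a : V ≃ V) '' X) ((Equiv.addRight a : V ≃ V) '' Y) g :=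
  PL.sep_map (lsym_add a)

lemma dist_pt_shift (δ : ℝ) (a v : V) (z : Pl) : dist (pt δ (v + a)) (z + pt δ a) = dist (pt δ v) z := by
  rw [pt_add, dist_add_right]

lemma inn_shift (δ : ℝ) (a : V) (z : Pl) (r : ℝ) :
    (Equiv.addRight a : V ≃ V) '' Inn δ z r = Inn δ (z + pt δ a) r := by
  ext v
  constructor
  · rintro ⟨u, hu, rfl⟩
    show dist (pt δ (u + a)) (z + pt δ a) ≤ r
    rw [dist_pt_shift]
    exact hu
  · intro hv
    refine ⟨v - a, ?_, by simp⟩
    have h : dist (pt δ v) (z + pt δ a) ≤ r := hv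
    rw [← sub_add_cancel v a, dist_pt_shift] at h
    exact h

lemma out_shift (δ : ℝ) (a : V) (z : Pl) (s : ℝ) :
    (Equiv.addRight a : V ≃ V) '' Out δ z s = Out δ (z + pt δ a) s := by
  ext v
  constructor
  · rintro ⟨u, hu, rfl⟩
    show s ≤ dist (pt δ (u + a)) (z + pt δ a)
    rw [dist_pt_shift]
    exact hu
  · intro hv
    refine ⟨v - a, ?_, by simp⟩
    have h : s ≤ dist (pt δ v) (z + pt δ a) := hv
    rw [← sub_add_cancel v a, dist_pt_shift] at h
    exact h

/-- translation of a block -/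
theorem bk_shift (k : ℤ) (δ : ℝ) (a : V) (z : Pl) (r s : ℝ) (g : V → ℤ) :
    Bk k δ (z + pt δ a) r s g ↔ Bk k δ z r s (ts a g) := by
  unfold Bk
  rw [lev_ts, sep_ts, inn_shift, out_shift]

lemma pt_scale {t : ℝ} (ht : 0 < t) (δ : ℝ) (v : V) : pt δ v = t • pt (δ / t) v := by
  have h : ∀ x : ℝ, δ * x = t * (δ / t * x) := fun x => by
    rw [← mul_assoc, mul_div_cancel₀ δ ht.ne']
  unfold pt
  ext
  · exact h _
  · exact h _

lemma dist_pt_scale {t : ℝ} (ht : 0 < t) (δ : ℝ) (v : V) (z : Pl) :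
    dist (pt δ v) (t * z.1, t * z.2) = t * dist (pt (δ / t) v) z := by
  have h : ((t * z.1, t * z.2) : Pl) = t • z := rfl
  rw [h, pt_scale ht, dist_smul₀, Real.norm_eq_abs, abs_of_pos ht]

lemma inn_scale {t : ℝ} (ht : 0 < t) (δ : ℝ) (z : Pl) (r : ℝ) :
    Inn δ (t * z.1, t * z.2) (t * r) = Inn (δ / t) z r := by
  ext v
  show dist (pt δ v) (t * z.1, t * z.2) ≤ t * r ↔ dist (pt (δ / t) v) z ≤ r
  rw [dist_pt_scale ht, mul_le_mul_iff_right₀ ht]

lemma out_scale {t : ℝ} (ht : 0 < t) (δ : ℝ) (z : Pl) (s : ℝ) :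
    Out δ (t * z.1, t * z.2) (t * s) = Out (δ / t) z s := by
  ext v
  show t * s ≤ dist (pt δ v) (t * z.1, t * z.2) ↔ s ≤ dist (pt (δ / t) v) z
  rw [dist_pt_scale ht, mul_le_mul_iff_right₀ ht]

/-- scaling of a block -/
theorem bk_scale {t : ℝ} (ht : 0 < t) (k : ℤ) (δ : ℝ) (z : Pl) (r s : ℝ) (g : V → ℤ) :
    Bk k δ (t * z.1, t * z.2) (t * r) (t * s) g ↔ Bk k (δ / t) z r s g := by
  unfold Bk
  rw [inn_scale ht, out_scale ht]

/-- translation of the masses -/
theorem mass_shift (δ : ℝ) (a : V) (f : Pl → ℝ) (x : V) :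
    mass δ (fun z => f (z + pt δ a)) x = mass δ f (x + a) := by
  unfold RP4.mass
  have h := (measurePreserving_add_right (volume : Measure Pl) (pt δ a)).setIntegral_preimage_emb
    (measurableEmbedding_addRight (pt δ a)) f (cell δ (x + a))
  rw [← h]
  congr 2
  ext z
  unfold RP4.cell pt
  simp only [Set.mem_prod, Set.mem_Ico, Set.mem_preimage, Prod.fst_add, Prod.snd_add, Int.cast_add]
  constructor
  · rintro ⟨⟨h1, h2⟩, h3, h4⟩
    exact ⟨⟨by nlinarith, by nlinarith⟩, by nlinarith, by nlinarith⟩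
  · rintro ⟨⟨h1, h2⟩, h3, h4⟩
    exact ⟨⟨by nlinarith, by nlinarith⟩, by nlinarith, by nlinarith⟩

/-- scaling of the masses -/
theorem mass_scale {t : ℝ} (ht : 0 < t) (δ : ℝ) (f : Pl → ℝ) (x : V) :
    mass δ f x = t ^ 2 * mass (δ / t) (fun z => f (t * z.1, t * z.2)) x := by
  unfold RP4.mass
  have h := Measure.setIntegral_comp_smul_of_pos (volume : Measure Pl) f (cell (δ / t) x) ht
  have e : t • cell (δ / t) x = cell δ x := by
    ext z
    rw [Set.mem_smul_set_iff_inv_smul_mem₀ ht.ne']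
    have key : ∀ (c y : ℝ), (δ / t * c ≤ t⁻¹ * y ↔ δ * c ≤ y) ∧ (t⁻¹ * y < δ / t * c ↔ y < δ * c) := by
      intro c y
      have h1 : δ / t * c = t⁻¹ * (δ * c) := by
        rw [div_eq_inv_mul]
        ring
      rw [h1]
      exact ⟨mul_le_mul_iff_right₀ (inv_pos.2 ht), mul_lt_mul_iff_right₀ (inv_pos.2 ht)⟩
    unfold RP4.cell
    simp only [Set.mem_prod, Set.mem_Ico, Prod.smul_fst, Prod.smul_snd, smul_eq_mul, key]
  rw [e] at h
  have h2 : Module.finrank ℝ Pl = 2 := by simp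
  rw [h2, smul_eq_mul] at h
  have h3 : ∀ z : Pl, ((t * z.1, t * z.2) : Pl) = t • z := fun z => rfl
  simp only [h3]
  rw [h, ← mul_assoc, mul_inv_cancel₀ (by positivity), one_mul]

/-- translation of the pairing -/
theorem xd_shift (δ : ℝ) (a : V) (f : Pl → ℝ) (g : V → ℤ) :
    Xd δ f g = Xd δ (fun z => f (z + pt δ a)) (ts a g) := by
  unfold GF.Lat.Xd
  rw [← (Equiv.addRight a : V ≃ V).tsum_eq fun x => mass δ f x * (g x : ℝ)]
  refine tsum_congr fun x => ?_
  rw [mass_shift]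
  rfl

/-- scaling of the pairing -/
theorem xd_scale {t : ℝ} (ht : 0 < t) (δ : ℝ) (f : Pl → ℝ) (g : V → ℤ) :
    Xd δ f g = t ^ 2 * Xd (δ / t) (fun z => f (t * z.1, t * z.2)) g := by
  unfold GF.Lat.Xd
  rw [← tsum_mul_left]
  refine tsum_congr fun x => ?_
  rw [mass_scale ht, mul_assoc]

/-- translated observables are pinned -/
lemma PR_ts {s : Finset V} {F : (V → ℤ) → ℝ} (hF : PR s F) (a : V) :
    PR (s.map (Equiv.addRight a).toEmbedding) fun g => F (ts a g) := by
  refine ⟨al_real fun g g' h => hF.loc' _ _ fun x hx => h _ (Finset.mem_map_of_mem _ hx), ?_⟩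
  obtain ⟨N, hN⟩ := hF.pin
  refine ⟨N, fun g hg => ?_⟩
  obtain ⟨x, hx, h⟩ := hN (ts a g) hg
  exact ⟨_, Finset.mem_map_of_mem _ hx, h⟩

/-- **Translation invariance** of the floating measure -/
theorem Mr_ts (hd : Deloc) {s : Finset V} {F : (V → ℤ) → ℝ} (hF : PR s F) {a : V} (ha : Even (par a)) :
    Mr (fun g => F (ts a g)) = Mr F :=
  congrArg Complex.re (M_trans hd hF ha)

/-- translated sets -/
lemma is_shift {δ : ℝ} (hδ : 0 < δ) (a : V) (z : Pl) (r : ℝ) :
    (Is δ z r).map (Equiv.addRight a).toEmbedding = Is δ (z + pt δ a) r := by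
  rw [← Finset.coe_inj, Finset.coe_map, coe_Is hδ, coe_Is hδ]
  exact inn_shift δ a z r

lemma is_scale {t : ℝ} (ht : 0 < t) {δ : ℝ} (hδ : 0 < δ) (z : Pl) (r : ℝ) :
    Is δ (t * z.1, t * z.2) (t * r) = Is (δ / t) z r := by
  rw [← Finset.coe_inj, coe_Is hδ, coe_Is (div_pos hδ ht)]
  exact inn_scale ht δ z r

lemma gh_ts {g : V → ℤ} (hg : GH g) {a : V} (ha : Even (par a)) : GH (ts a g) := by
  refine ⟨fun v => ?_, fun u v huv => hg.step _ _ (((lsym_add a).adj u v).2 huv)⟩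
  have h1 := (hg.par (v + a)).add ha
  have h2 : g (v + a) - par (v + a) + par a = ts a g v - par v := by
    rw [ts_apply]
    unfold RP4.par
    simp only [Prod.fst_add, Prod.snd_add]
    ring
  rw [h2] at h1
  exact h1

end DV
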