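import Pool.Agent.Helper75.GF.L3a

/-!
# Block PL2 (project DV, MP_973bc8_pr), P1: reflections of complex functions of the heights

`RPS M` collects what is used of the level invariant state `M`: Cauchy-Schwarz across lattice lines, invariance under the reflections.
-/

open Filter Topology ComplexConjugate

namespace PL

open RP4 (V)
open GF (Pl)
open GF.Lat (ld lref DirZ dr ld_lref lref_lref)

/-- `F` depends on the heights on `s` only -/
def LocC (s : Finset V) (F : (V → ℤ) → ℂ) : Prop := ∀ h h' : V → ℤ, (∀ x ∈ s, h x = h' x) → F h = F h'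

/-- `F` vanishes unless some height is small -/
def PinC (F : (V → ℤ) → ℂ) : Prop := ∃ (s : Finset V) (N : ℤ), ∀ h, F h ≠ 0 → ∃ x ∈ s, |h x| ≤ N

/-- the reflected function -/
def th (d : ℤ × ℤ) (m : ℤ) (F : (V → ℤ) → ℂ) : (V → ℤ) → ℂ := fun h => F (fun v => h (lref d m v))

/-- the product with the reflected conjugate -/
def dbl (d : ℤ × ℤ) (m : ℤ) (F : (V → ℤ) → ℂ) : (V → ℤ) → ℂ := fun h => F h * conj (th d m F h)

/-- what is used of the level invariant state -/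
structure RPS (M : ((V → ℤ) → ℂ) → ℂ) : Prop where
  cs : ∀ {d : ℤ × ℤ}, DirZ d → ∀ (m : ℤ) {s s' : Finset V} {F G : (V → ℤ) → ℂ}, LocC s F → LocC s' G →
    (∀ x ∈ s, ld d x ≤ m) → (∀ x ∈ s', m ≤ ld d x) → PinC F → PinC G →
    ‖M (fun h => F h * G h)‖ ^ 2 ≤ ‖M (dbl d m F)‖ * ‖M (dbl d m G)‖
  refl : ∀ {d : ℤ × ℤ}, DirZ d → ∀ (m : ℤ) {s : Finset V} {F : (V → ℤ) → ℂ}, LocC s F → PinC F → M (th d m F) = M F
  cnj : ∀ {s : Finset V} {F : (V → ℤ) → ℂ}, LocC s F → PinC F → M (fun h => conj (F h)) = conj (M F)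

/-- composition of reflections -/
lemma lref_comp {d : ℤ × ℤ} (hd : DirZ d) (n m : ℤ) (x : V) :
    lref d n (lref d m (lref d n x)) = lref d (2 * n - m) x := by
  rcases hd with rfl | rfl | rfl | rfl | rfl | rfl | rfl | rfl <;>
  · ext <;> simp only [lref, ld] <;> norm_num <;> omega

lemma LocC.mono {s t : Finset V} {F : (V → ℤ) → ℂ} (h : LocC s F) (hst : s ⊆ t) : LocC t F :=
  fun g g' hg => h g g' fun x hx => hg x (hst hx)

lemma LocC.mul {s t : Finset V} {F G : (V → ℤ) → ℂ} (h : LocC s F) (h' : LocC t G) :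
    LocC (s ∪ t) (fun g => F g * G g) := by
  intro g g' hg
  have h1 := h g g' fun x hx => hg x (Finset.mem_union_left _ hx)
  have h2 := h' g g' fun x hx => hg x (Finset.mem_union_right _ hx)
  simp only [h1, h2]

lemma LocC.cnj {s : Finset V} {F : (V → ℤ) → ℂ} (h : LocC s F) : LocC s (fun g => conj (F g)) := by
  intro g g' hg
  simp only [h g g' hg]

lemma LocC.th {s : Finset V} {F : (V → ℤ) → ℂ} (h : LocC s F) (d : ℤ × ℤ) (m : ℤ) :
    LocC (s.image (lref d m)) (PL.th d m F) := fun g g' hg =>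
  h _ _ fun x hx => hg _ (Finset.mem_image_of_mem _ hx)

lemma PinC.mul_left {F : (V → ℤ) → ℂ} (h : PinC F) (G : (V → ℤ) → ℂ) : PinC (fun g => F g * G g) := by
  obtain ⟨t, N, hx⟩ := h
  exact ⟨t, N, fun g hg => hx g (left_ne_zero_of_mul hg)⟩

lemma PinC.mul_right {F : (V → ℤ) → ℂ} (h : PinC F) (G : (V → ℤ) → ℂ) : PinC (fun g => G g * F g) := by
  obtain ⟨t, N, hx⟩ := h
  exact ⟨t, N, fun g hg => hx g (right_ne_zero_of_mul hg)⟩

lemma PinC.cnj {F : (V → ℤ) → ℂ} (h : PinC F) : PinC (fun g => conj (F g)) := by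
  obtain ⟨t, N, hx⟩ := h
  exact ⟨t, N, fun g hg => hx g fun h0 => hg (by simp only [h0, map_zero])⟩

lemma PinC.th {F : (V → ℤ) → ℂ} (h : PinC F) (d : ℤ × ℤ) (m : ℤ) : PinC (PL.th d m F) := by
  obtain ⟨t, N, hx⟩ := h
  refine ⟨t.image (lref d m), N, fun g hg => ?_⟩
  obtain ⟨x, hxt, hx'⟩ := hx _ hg
  exact ⟨_, Finset.mem_image_of_mem _ hxt, hx'⟩

lemma th_th {d : ℤ × ℤ} (hd : DirZ d) (m : ℤ) (F : (V → ℤ) → ℂ) : th d m (th d m F) = F := by
  funext h
  unfold th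
  simp only [lref_lref hd]

lemma LocC.dbl {s : Finset V} {F : (V → ℤ) → ℂ} (h : LocC s F) (d : ℤ × ℤ) (m : ℤ) :
    LocC (s ∪ s.image (lref d m)) (PL.dbl d m F) := h.mul (h.th d m).cnj

lemma PinC.dbl {F : (V → ℤ) → ℂ} (h : PinC F) (d : ℤ × ℤ) (m : ℤ) : PinC (PL.dbl d m F) := h.mul_left _

/-- The doubling inequality. -/
theorem dbl_ineq {M : ((V → ℤ) → ℂ) → ℂ} (hM : RPS M) {d : ℤ × ℤ} (hd : DirZ d) {n : ℤ} {s : Finset V}
    {P : (V → ℤ) → ℂ} (hP : LocC s P) (hs : ∀ x ∈ s, ld d x ≤ n) (hp : PinC P) {k : ℤ} (hk : 0 ≤ k) :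
    ‖M (dbl d (n + k) P)‖ ^ 2 ≤ ‖M (dbl d n P)‖ * ‖M (dbl d (n + 2 * k) P)‖ := by
  have h1 := hM.cs hd n hP ((hP.th d (n + k)).cnj) hs (fun x hx => by
    obtain ⟨y, hy, rfl⟩ := Finset.mem_image.1 hx
    rw [ld_lref hd]
    have := hs y hy
    omega) hp ((hp.th d (n + k)).cnj)
  have h2 : ‖M (dbl d n (fun g => conj (th d (n + k) P g)))‖ = ‖M (dbl d (n + 2 * k) P)‖ := by
    have e1 : th d (n + k) (dbl d n (fun g => conj (th d (n + k) P g))) =
        fun g => conj (dbl d (n + 2 * k) P g) := by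
      funext g
      simp only [th, dbl, map_mul, Complex.conj_conj, lref_lref hd, lref_comp hd,
        show 2 * (n + k) - n = n + 2 * k by ring]
    have hl := ((hP.th d (n + k)).cnj).dbl d n
    have hq := ((hp.th d (n + k)).cnj).dbl d n
    rw [← hM.refl hd (n + k) hl hq, e1, hM.cnj (hP.dbl d (n + 2 * k)) (hp.dbl d (n + 2 * k)), Complex.norm_conj]
  rw [h2] at h1
  exact h1

end PL
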