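import Pool.Agent.Helper27.PL.P1
import Pool.Agent.Helper27.GF.Mv2

/-!
# Block PL2 (project DV, MP_973bc8_pr), P2: the move

Families of functions of the heights, indexed by the mesh; the class of admissible families; the move.
-/

open Filter Topology ComplexConjugate

namespace PL

open RP4 (V)
open GF (Pl ell refl bx)
open GF.Lat (ld lref DirZ dr ld_lref lref_lref refl_lattice)

/-- families of functions of the heights -/
abbrev Fam := ℝ → (V → ℤ) → ℂ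

/-- the site `x` at mesh `δ` -/
def sc (δ : ℝ) (x : V) : Pl := (δ * x.1, δ * x.2)

/-- the lattice line `m δ` converges to the height `t` -/
def Ln (m : ℝ → ℤ) (t : ℝ) : Prop := Tendsto (fun δ : ℝ => δ * (m δ : ℝ)) (𝓝[>] 0) (𝓝 t)

/-- pinned for all small meshes -/
def PinF (F : Fam) : Prop := ∀ᶠ δ in 𝓝[>] (0 : ℝ), PinC (F δ)

/-- reflected family -/
def thF (d : ℤ × ℤ) (m : ℝ → ℤ) (F : Fam) : Fam := fun δ => th d (m δ) (F δ)

/-- product of families -/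
def mulF (F G : Fam) : Fam := fun δ h => F δ h * G δ h

/-- conjugate family -/
def cjF (F : Fam) : Fam := fun δ h => conj (F δ h)

/-- `F δ` depends on the heights at the sites of `K` only -/
def InR (K : Set Pl) (F : Fam) : Prop :=
  ∀ᶠ δ in 𝓝[>] (0 : ℝ), ∃ s : Finset V, LocC s (F δ) ∧ ∀ x ∈ s, sc δ x ∈ K

/-- classes of admissible families. `A b K F`: the family `F` is admissible and lives in the region `K`; for `b = true` it is also pinned,
uniformly in the mesh. -/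
structure Cls (M : ((V → ℤ) → ℂ) → ℂ) (nr : ℤ × ℤ → ℤ → ((V → ℤ) → ℂ) → ℝ) (A : Bool → Set Pl → Fam → Prop) : Prop where
  reg : ∀ {b K F}, A b K F → InR K F
  pin : ∀ {K F}, A true K F → PinF F
  mono : ∀ {b K K' F}, K ⊆ K' → A b K F → A b K' F
  box : ∀ {b K F}, A b K F → ∃ R : ℝ, 0 < R ∧ A b (K ∩ bx 0 R) F
  mul : ∀ {b b' K K' F G}, A b K F → A b' K' G → (∃ (d : ℤ × ℤ) (s s' : ℝ), DirZ d ∧ s < s' ∧
    K ⊆ {z | ell (dr d) z < s} ∧ K' ⊆ {z | s' < ell (dr d) z}) → A (b || b') (K ∪ K') (mulF F G)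
  cnj : ∀ {b K F}, A b K F → A b K (cjF F)
  ref : ∀ {b K F d m t ε}, DirZ d → Ln m t → 0 < ε → A b K F →
    A b (Metric.thickening ε (refl (dr d) t '' K)) (thF d m F)
  bdd : ∀ {K F}, A true K F → ∃ C : ℝ, ∀ᶠ δ in 𝓝[>] (0 : ℝ), ‖M (F δ)‖ ≤ C
  lst : ∀ {K F d m s t}, A true K F → DirZ d → Ln m t → t < s → K ⊆ {z | s < ell (dr d) z} →
    ∃ C : ℝ, ∀ᶠ δ in 𝓝[>] (0 : ℝ), nr d (m δ) (F δ) ≤ C

lemma Ln.floor (s : ℝ) : Ln (fun δ => ⌊s / δ⌋) s := by
  unfold Ln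
  have h1 : Tendsto (fun δ : ℝ => s - δ) (𝓝[>] 0) (𝓝 s) := by
    have : Tendsto (fun δ : ℝ => s - δ) (𝓝 0) (𝓝 (s - 0)) := tendsto_const_nhds.sub tendsto_id
    rw [sub_zero] at this
    exact this.mono_left nhdsWithin_le_nhds
  refine tendsto_of_tendsto_of_tendsto_of_le_of_le' h1 tendsto_const_nhds ?_ ?_
  · filter_upwards [self_mem_nhdsWithin] with δ hδ
    have hδ : (0 : ℝ) < δ := hδ
    have h2 := Int.sub_one_lt_floor (s / δ)
    have h3 : δ * (s / δ - 1) ≤ δ * (⌊s / δ⌋ : ℝ) := mul_le_mul_of_nonneg_left h2.le hδ.le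
    rw [mul_sub, mul_div_cancel₀ _ hδ.ne', mul_one] at h3
    exact h3
  · filter_upwards [self_mem_nhdsWithin] with δ hδ
    have hδ : (0 : ℝ) < δ := hδ
    have h2 := Int.floor_le (s / δ)
    have h3 : δ * (⌊s / δ⌋ : ℝ) ≤ δ * (s / δ) := mul_le_mul_of_nonneg_left h2 hδ.le
    rw [mul_div_cancel₀ _ hδ.ne'] at h3
    exact h3

lemma ell_sc (d : ℤ × ℤ) (δ : ℝ) (x : V) : ell (dr d) (sc δ x) = δ * (ld d x : ℝ) := by
  unfold ell dr sc ld
  simp only
  push_cast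
  ring

/-- sites below the line -/
lemma Ln.below {m : ℝ → ℤ} {s t : ℝ} (hm : Ln m t) (hst : s < t) (d : ℤ × ℤ) :
    ∀ᶠ δ in 𝓝[>] (0 : ℝ), ∀ x : V, ell (dr d) (sc δ x) < s → ld d x ≤ m δ := by
  filter_upwards [self_mem_nhdsWithin, hm.eventually (lt_mem_nhds hst)] with δ hδ h x hx
  have hδ : (0 : ℝ) < δ := hδ
  rw [ell_sc] at hx
  have h1 : (ld d x : ℝ) < m δ := lt_of_mul_lt_mul_left (hx.trans h) hδ.le
  exact (Int.cast_lt.1 h1).le

/-- sites above the line -/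
lemma Ln.above {m : ℝ → ℤ} {s t : ℝ} (hm : Ln m t) (hst : t < s) (d : ℤ × ℤ) :
    ∀ᶠ δ in 𝓝[>] (0 : ℝ), ∀ x : V, s < ell (dr d) (sc δ x) → m δ ≤ ld d x := by
  filter_upwards [self_mem_nhdsWithin, hm.eventually (gt_mem_nhds hst)] with δ hδ h x hx
  have hδ : (0 : ℝ) < δ := hδ
  rw [ell_sc] at hx
  have h1 : (m δ : ℝ) < ld d x := lt_of_mul_lt_mul_left (h.trans hx) hδ.le
  exact (Int.cast_lt.1 h1).le

/-- Zero propagation: from far lines to all lines. -/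
theorem propagate {a : ℝ → ℤ → ℝ} (ha : ∀ δ n, 0 ≤ a δ n) {n₀ : ℝ → ℤ} {s₀ C : ℝ} (hn : Ln n₀ s₀)
    (hC : ∀ᶠ δ in 𝓝[>] (0 : ℝ), a δ (n₀ δ) ≤ C)
    (hd : ∀ᶠ δ in 𝓝[>] (0 : ℝ), ∀ k : ℤ, 0 ≤ k → a δ (n₀ δ + k) ^ 2 ≤ a δ (n₀ δ) * a δ (n₀ δ + 2 * k))
    {T : ℝ} (H : ∀ t : ℝ, T ≤ t → ∀ m : ℝ → ℤ, Ln m t → Tendsto (fun δ => a δ (m δ)) (𝓝[>] 0) (𝓝 0))
    {t : ℝ} (ht : s₀ < t) {m : ℝ → ℤ} (hm : Ln m t) : Tendsto (fun δ => a δ (m δ)) (𝓝[>] 0) (𝓝 0) := by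
  have key : ∀ j : ℕ, ∀ t : ℝ, s₀ < t → T ≤ s₀ + 2 ^ j * (t - s₀) → ∀ m : ℝ → ℤ, Ln m t →
      Tendsto (fun δ => a δ (m δ)) (𝓝[>] 0) (𝓝 0) := by
    intro j
    induction j with
    | zero =>
      intro t _ h2 m hm
      refine H t ?_ m hm
      rw [pow_zero, one_mul] at h2
      linarith
    | succ j ih =>
      intro t h1 h2 m hm
      have hm' : Ln (fun δ => n₀ δ + 2 * (m δ - n₀ δ)) (s₀ + 2 * (t - s₀)) := by
        have := hn.add ((hm.sub hn).const_mul 2)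
        refine this.congr fun δ => ?_
        push_cast
        ring
      have h3 := ih (s₀ + 2 * (t - s₀)) (by linarith) (by
        have : s₀ + 2 ^ j * (s₀ + 2 * (t - s₀) - s₀) = s₀ + 2 ^ (j + 1) * (t - s₀) := by ring
        rw [this]
        exact h2) _ hm'
      have hk : ∀ᶠ δ in 𝓝[>] (0 : ℝ), 0 ≤ m δ - n₀ δ := by
        have h4 : Tendsto (fun δ : ℝ => δ * (m δ : ℝ) - δ * (n₀ δ : ℝ)) (𝓝[>] 0) (𝓝 (t - s₀)) := hm.sub hn
        filter_upwards [self_mem_nhdsWithin, h4.eventually (lt_mem_nhds (sub_pos.2 h1))] with δ hδ h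
        have hδ : (0 : ℝ) < δ := hδ
        rw [← mul_sub] at h
        have h5 : (0 : ℝ) < (m δ : ℝ) - n₀ δ := (mul_pos_iff_of_pos_left hδ).1 h
        have h6 : (n₀ δ : ℝ) < m δ := by linarith
        have := Int.cast_lt.1 h6
        omega
      have h4 : Tendsto (fun δ => a δ (m δ) ^ 2) (𝓝[>] 0) (𝓝 0) := by
        have h5 : Tendsto (fun δ => |C| * a δ (n₀ δ + 2 * (m δ - n₀ δ))) (𝓝[>] 0) (𝓝 0) := by
          have := h3.const_mul |C|
          rwa [mul_zero] at this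
        refine tendsto_of_tendsto_of_tendsto_of_le_of_le' tendsto_const_nhds h5
          (Eventually.of_forall fun δ => sq_nonneg _) ?_
        filter_upwards [hC, hd, hk] with δ g1 g2 g3
        have g4 := g2 _ g3
        rw [show n₀ δ + (m δ - n₀ δ) = m δ by ring] at g4
        refine g4.trans ?_
        exact mul_le_mul_of_nonneg_right (g1.trans (le_abs_self C)) (ha _ _)
      have h5 := (Real.continuous_sqrt.tendsto 0).comp h4
      rw [Real.sqrt_zero] at h5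
      refine h5.congr fun δ => ?_
      simp only [Function.comp]
      exact Real.sqrt_sq (ha _ _)
  obtain ⟨j, hj⟩ := pow_unbounded_of_one_lt ((T - s₀) / (t - s₀)) (one_lt_two : (1 : ℝ) < 2)
  refine key j t ht ?_ m hm
  have h1 : 0 < t - s₀ := sub_pos.2 ht
  rw [div_lt_iff₀ h1] at hj
  linarith

/-- reflection of a half plane, with a margin -/
lemma thick_refl {d : ℤ × ℤ} (hd : DirZ d) {K : Set Pl} {s t ε : ℝ} (hK : K ⊆ {z | ell (dr d) z < s}) :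
    Metric.thickening ε (refl (dr d) t '' K) ⊆ {z | 2 * t - s - 2 * ε < ell (dr d) z} := by
  intro z hz
  obtain ⟨w, ⟨y, hy, rfl⟩, hw⟩ := Metric.mem_thickening_iff.1 hz
  have h1 : ell (dr d) y < s := hK hy
  have h2 : ell (dr d) (refl (dr d) t y) = 2 * t - ell (dr d) y := by
    have hs := GF.Lat.dr_dir hd
    rcases hs with h | h | h | h | h | h | h | h <;> rw [h] <;> simp only [ell, GF.refl] <;> ring
  have h3 : |ell (dr d) z - ell (dr d) (refl (dr d) t y)| < 2 * ε := by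
    rw [Prod.dist_eq, max_lt_iff, Real.dist_eq, Real.dist_eq] at hw
    have e : ell (dr d) z - ell (dr d) (refl (dr d) t y) =
        (dr d).1 * (z.1 - (refl (dr d) t y).1) + (dr d).2 * (z.2 - (refl (dr d) t y).2) := by
      unfold ell
      ring
    have a1 : |(dr d).1| ≤ 1 ∧ |(dr d).2| ≤ 1 := by
      have hs := GF.Lat.dr_dir hd
      rcases hs with h | h | h | h | h | h | h | h <;> rw [h] <;> simp
    rw [e]
    refine (abs_add_le _ _).trans_lt ?_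
    rw [abs_mul, abs_mul]
    have h4 := mul_le_of_le_one_left (abs_nonneg (z.1 - (refl (dr d) t y).1)) a1.1
    have h5 := mul_le_of_le_one_left (abs_nonneg (z.2 - (refl (dr d) t y).2)) a1.2
    linarith [hw.1, hw.2]
  have h6 := (abs_lt.1 h3).1
  show 2 * t - s - 2 * ε < ell (dr d) z
  rw [h2] at h6
  linarith

/-- reflection of a half plane, with a margin -/
lemma thick_refl' {d : ℤ × ℤ} (hd : DirZ d) {K : Set Pl} {s t ε : ℝ} (hK : K ⊆ {z | s < ell (dr d) z}) :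
    Metric.thickening ε (refl (dr d) t '' K) ⊆ {z | ell (dr d) z < 2 * t - s + 2 * ε} := by
  intro z hz
  obtain ⟨w, ⟨y, hy, rfl⟩, hw⟩ := Metric.mem_thickening_iff.1 hz
  have h1 : s < ell (dr d) y := hK hy
  have h2 : ell (dr d) (refl (dr d) t y) = 2 * t - ell (dr d) y := by
    have hs := GF.Lat.dr_dir hd
    rcases hs with h | h | h | h | h | h | h | h <;> rw [h] <;> simp only [ell, GF.refl] <;> ring
  have h3 : |ell (dr d) z - ell (dr d) (refl (dr d) t y)| < 2 * ε := by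
    rw [Prod.dist_eq, max_lt_iff, Real.dist_eq, Real.dist_eq] at hw
    have e : ell (dr d) z - ell (dr d) (refl (dr d) t y) =
        (dr d).1 * (z.1 - (refl (dr d) t y).1) + (dr d).2 * (z.2 - (refl (dr d) t y).2) := by
      unfold ell
      ring
    have a1 : |(dr d).1| ≤ 1 ∧ |(dr d).2| ≤ 1 := by
      have hs := GF.Lat.dr_dir hd
      rcases hs with h | h | h | h | h | h | h | h <;> rw [h] <;> simp
    rw [e]
    refine (abs_add_le _ _).trans_lt ?_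
    rw [abs_mul, abs_mul]
    have h4 := mul_le_of_le_one_left (abs_nonneg (z.1 - (refl (dr d) t y).1)) a1.1
    have h5 := mul_le_of_le_one_left (abs_nonneg (z.2 - (refl (dr d) t y).2)) a1.2
    linarith [hw.1, hw.2]
  have h6 := (abs_lt.1 h3).2
  show ell (dr d) z < 2 * t - s + 2 * ε
  rw [h2] at h6
  linarith

variable {M : ((V → ℤ) → ℂ) → ℂ} {nr : ℤ × ℤ → ℤ → ((V → ℤ) → ℂ) → ℝ} {A : Bool → Set Pl → Fam → Prop}

/-- the doubled family is bounded, front version -/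
lemma Cls.dbl_bdd (hA : Cls M nr A) {d : ℤ × ℤ} (hd : DirZ d) {K : Set Pl} {P : Fam} (hP : A true K P)
    {s t : ℝ} (hst : s < t) (hK : K ⊆ {z | ell (dr d) z < s}) {m : ℝ → ℤ} (hm : Ln m t) :
    ∃ C : ℝ, ∀ᶠ δ in 𝓝[>] (0 : ℝ), ‖M (dbl d (m δ) (P δ))‖ ≤ C := by
  have h1 := hA.ref hd hm (show (0 : ℝ) < (t - s) / 4 by linarith) hP
  have h2 := hA.mul hP (hA.cnj h1) ⟨d, s, t, hd, hst, hK, by
    refine (thick_refl hd hK).trans fun z hz => ?_
    have hz' : 2 * t - s - 2 * ((t - s) / 4) < ell (dr d) z := hz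
    show t < ell (dr d) z
    linarith⟩
  exact hA.bdd h2

/-- the doubled family is bounded, back version -/
lemma Cls.dbl_bdd' (hA : Cls M nr A) {d : ℤ × ℤ} (hd : DirZ d) {K : Set Pl} {P : Fam} (hP : A true K P)
    {s t : ℝ} (hst : t < s) (hK : K ⊆ {z | s < ell (dr d) z}) {m : ℝ → ℤ} (hm : Ln m t) :
    ∃ C : ℝ, ∀ᶠ δ in 𝓝[>] (0 : ℝ), ‖M (dbl d (m δ) (P δ))‖ ≤ C := by
  have h1 := hA.ref hd hm (show (0 : ℝ) < (s - t) / 4 by linarith) hP
  have h2 := hA.mul (hA.cnj h1) hP ⟨d, t, s, hd, hst, by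
    refine (thick_refl' hd hK).trans fun z hz => ?_
    have hz' : ell (dr d) z < 2 * t - s + 2 * ((s - t) / 4) := hz
    show ell (dr d) z < t
    linarith, hK⟩
  obtain ⟨C, hC⟩ := hA.bdd h2
  refine ⟨C, hC.mono fun δ h => ?_⟩
  refine le_trans (le_of_eq ?_) h
  congr 2
  funext g
  show P δ g * _ = _ * P δ g
  rw [mul_comm]
  rfl

/-- **The move.** -/
theorem move (hM : RPS M) (hA : Cls M nr A) {d : ℤ × ℤ} (hd : DirZ d) {K K' : Set Pl} {P F : Fam}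
    (hP : A true K P) (hF : A true K' F) {a s b : ℝ} (h1 : a < s) (h2 : s < b)
    (hK : K ⊆ {z | ell (dr d) z < a}) (hK' : K' ⊆ {z | b < ell (dr d) z})
    (H : ∃ T : ℝ, ∀ t : ℝ, T ≤ t → ∀ m : ℝ → ℤ, Ln m t →
      Tendsto (fun δ => ‖M (dbl d (m δ) (P δ))‖) (𝓝[>] 0) (𝓝 0)) :
    Tendsto (fun δ => ‖M (mulF P F δ)‖) (𝓝[>] 0) (𝓝 0) := by
  obtain ⟨T, hT⟩ := H
  have hn : Ln (fun δ => ⌊((a + s) / 2) / δ⌋) ((a + s) / 2) := Ln.floor _
  have hm : Ln (fun δ => ⌊s / δ⌋) s := Ln.floor _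
  obtain ⟨C, hC⟩ := hA.dbl_bdd hd hP (show a < (a + s) / 2 by linarith) hK hn
  obtain ⟨C', hC'⟩ := hA.dbl_bdd' hd hF h2 hK' hm
  have hd2 : ∀ᶠ δ in 𝓝[>] (0 : ℝ), ∀ k : ℤ, 0 ≤ k →
      ‖M (dbl d (⌊((a + s) / 2) / δ⌋ + k) (P δ))‖ ^ 2 ≤
        ‖M (dbl d (⌊((a + s) / 2) / δ⌋) (P δ))‖ * ‖M (dbl d (⌊((a + s) / 2) / δ⌋ + 2 * k) (P δ))‖ := by
    filter_upwards [hA.reg hP, hA.pin hP, hn.below (show a < (a + s) / 2 by linarith) d] with δ g1 g2 g3 k hk
    obtain ⟨S, hS, hSK⟩ := g1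
    exact dbl_ineq hM hd hS (fun x hx => g3 x (hK (hSK x hx))) g2 hk
  have h3 := propagate (a := fun δ n => ‖M (dbl d n (P δ))‖) (fun _ _ => norm_nonneg _) hn hC hd2 hT
    (show (a + s) / 2 < s by linarith) hm
  have h4 : Tendsto (fun δ => ‖M (mulF P F δ)‖ ^ 2) (𝓝[>] 0) (𝓝 0) := by
    have h5 : Tendsto (fun δ => ‖M (dbl d (⌊s / δ⌋) (P δ))‖ * |C'|) (𝓝[>] 0) (𝓝 0) := by
      have := h3.mul_const |C'|
      rwa [zero_mul] at this
    refine tendsto_of_tendsto_of_tendsto_of_le_of_le' tendsto_const_nhds h5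
      (Eventually.of_forall fun δ => sq_nonneg _) ?_
    filter_upwards [hA.reg hP, hA.reg hF, hA.pin hP, hA.pin hF, hm.below h1 d, hm.above h2 d, hC'] with δ g1 g2 g3 g4 g5 g6 g7
    obtain ⟨S, hS, hSK⟩ := g1
    obtain ⟨S', hS', hSK'⟩ := g2
    refine (hM.cs hd (⌊s / δ⌋) hS hS' (fun x hx => g5 x (hK (hSK x hx))) (fun x hx => g6 x (hK' (hSK' x hx)))
      g3 g4).trans ?_
    exact mul_le_mul_of_nonneg_left (g7.trans (le_abs_self _)) (norm_nonneg _)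
  have h5 := (Real.continuous_sqrt.tendsto 0).comp h4
  rw [Real.sqrt_zero] at h5
  refine h5.congr fun δ => ?_
  simp only [Function.comp]
  exact Real.sqrt_sq (norm_nonneg _)

end PL
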