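import Pool.Agent.Helper27.PL.P2

/-!
# Block PL2 (project DV, MP_973bc8_pr), P3: the six cuts
-/

open Filter Topology ComplexConjugate

namespace PL

open RP4 (V)
open GF (Pl ell refl bx)
open GF.Lat (ld lref DirZ dr)

variable {M : ((V → ℤ) → ℂ) → ℂ} {nr : ℤ × ℤ → ℤ → ((V → ℤ) → ℂ) → ℝ} {A : Bool → Set Pl → Fam → Prop}

/-- the mean of `P` times its far mirror image vanishes in the limit -/
def Far (M : ((V → ℤ) → ℂ) → ℂ) (d : ℤ × ℤ) (P : Fam) : Prop :=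
  ∃ T : ℝ, ∀ t : ℝ, T ≤ t → ∀ m : ℝ → ℤ, Ln m t → Tendsto (fun δ => ‖M (dbl d (m δ) (P δ))‖) (𝓝[>] 0) (𝓝 0)

/-- `Y` has vanishing defect across the line of height `s` in the direction `d` -/
def Nul (M : ((V → ℤ) → ℂ) → ℂ) (nr : ℤ × ℤ → ℤ → ((V → ℤ) → ℂ) → ℝ) (d : ℤ × ℤ) (s : ℝ) (Y : Fam) : Prop :=
  ∃ D : ℝ → ℝ, (∀ δ, 0 ≤ D δ) ∧ Tendsto D (𝓝[>] 0) (𝓝 0) ∧
    ∀ᶠ δ in 𝓝[>] (0 : ℝ), ∀ (S : Finset V) (G : (V → ℤ) → ℂ), LocC S G → (∀ x ∈ S, ⌊s / δ⌋ ≤ ld d x) → PinC G →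
      ‖M (fun h => Y δ h * G h)‖ ^ 2 ≤ D δ * nr d ⌊s / δ⌋ G

lemma dr_le (d : ℤ × ℤ) (hd : DirZ d) : |(dr d).1| ≤ 1 ∧ |(dr d).2| ≤ 1 := by
  have hs := GF.Lat.dr_dir hd
  rcases hs with h | h | h | h | h | h | h | h <;> rw [h] <;> simp

/-- boxes and half planes -/
lemma bx_half {d : ℤ × ℤ} (hd : DirZ d) (c : Pl) (R : ℝ) {z : Pl} (hz : z ∈ bx c R) :
    |ell (dr d) z - ell (dr d) c| < 2 * R := by
  obtain ⟨h1, h2⟩ := hz
  obtain ⟨a1, a2⟩ := dr_le d hd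
  have e : ell (dr d) z - ell (dr d) c = (dr d).1 * (z.1 - c.1) + (dr d).2 * (z.2 - c.2) := by
    unfold ell
    ring
  rw [e]
  refine (abs_add_le _ _).trans_lt ?_
  rw [abs_mul, abs_mul]
  have h4 := mul_le_of_le_one_left (abs_nonneg (z.1 - c.1)) a1
  have h5 := mul_le_of_le_one_left (abs_nonneg (z.2 - c.2)) a2
  linarith

/-- The far mirror image of a bounded region lies beyond every line of the next direction. -/
lemma far_region {d e : ℤ × ℤ} (hd : DirZ d) (he : DirZ e) (hde : 1 ≤ ell (dr e) (dr d)) {K : Set Pl} {R : ℝ}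
    (hR : 0 < R) (hK : K ⊆ bx 0 R) (B : ℝ) :
    ∃ T : ℝ, ∀ t : ℝ, T ≤ t → Metric.thickening 1 (refl (dr d) t '' K) ⊆ {z | B < ell (dr e) z} ∩ {z | B < ell (dr d) z} := by
  refine ⟨|B| + 12 * R + 2, fun t ht => ?_⟩
  have hB := le_abs_self B
  have hB0 := abs_nonneg B
  obtain ⟨u, hu, hfar⟩ := GF.refl_far (GF.Lat.dr_dir hd) R t hR.le (by linarith)
  intro z hz
  obtain ⟨w, ⟨y, hy, rfl⟩, hw⟩ := Metric.mem_thickening_iff.1 hz
  have h1 := hfar y (hK hy)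
  rw [Prod.dist_eq, max_lt_iff, Real.dist_eq, Real.dist_eq] at hw
  have h2 : z ∈ bx (u * (dr d).1, u * (dr d).2) (6 * R + 1) := by
    obtain ⟨g1, g2⟩ := h1
    refine ⟨?_, ?_⟩
    · have := abs_sub_le z.1 (refl (dr d) t y).1 (u * (dr d).1)
      simp only at g1 ⊢
      linarith [hw.1]
    · have := abs_sub_le z.2 (refl (dr d) t y).2 (u * (dr d).2)
      simp only at g2 ⊢
      linarith [hw.2]
  have hu0 : 0 ≤ u := by linarith
  refine ⟨?_, ?_⟩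
  · have h3 := (abs_lt.1 (bx_half he _ _ h2)).1
    have h4 : ell (dr e) (u * (dr d).1, u * (dr d).2) = u * ell (dr e) (dr d) := by
      unfold ell
      ring
    rw [h4] at h3
    have h5 : u ≤ u * ell (dr e) (dr d) := le_mul_of_one_le_right hu0 hde
    show B < ell (dr e) z
    linarith
  · have h3 := (abs_lt.1 (bx_half hd _ _ h2)).1
    have h4 : ell (dr d) (u * (dr d).1, u * (dr d).2) = u * ell (dr d) (dr d) := by
      unfold ell
      ring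
    have h6 : 1 ≤ ell (dr d) (dr d) := by
      have hs := GF.Lat.dr_dir hd
      rcases hs with h | h | h | h | h | h | h | h <;> rw [h] <;> simp only [ell] <;> norm_num
    rw [h4] at h3
    have h5 : u ≤ u * ell (dr d) (dr d) := le_mul_of_one_le_right hu0 h6
    show B < ell (dr d) z
    linarith

/-- The back factor times the far mirror image is admissible and lies beyond the line. -/
lemma far_factor (hA : Cls M nr A) {d e : ℤ × ℤ} (hd : DirZ d) (he : DirZ e) (hde : 1 ≤ ell (dr e) (dr d))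
    {β : Bool} {K K' : Set Pl} {P F : Fam} (hP : A true K P) (hF : A β K' F) {b : ℝ} (hK' : K' ⊆ {z | b < ell (dr e) z}) :
    ∃ T : ℝ, ∀ t : ℝ, T ≤ t → ∀ m : ℝ → ℤ, Ln m t →
      ∃ K'' : Set Pl, K'' ⊆ {z | b < ell (dr e) z} ∧ A true K'' (mulF F (cjF (thF d m P))) := by
  obtain ⟨R, hR, hPR⟩ := hA.box hP
  obtain ⟨R', hR', hFR⟩ := hA.box hF
  obtain ⟨T, hT⟩ := far_region hd he hde hR (Set.inter_subset_right : K ∩ bx 0 R ⊆ bx 0 R)
    (max b (2 * R' + 1))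
  refine ⟨T, fun t ht m hm => ?_⟩
  have h1 := hA.ref hd hm (one_pos) hPR
  have h2 := hT t ht
  have h3 : K' ∩ bx 0 R' ⊆ {z | ell (dr d) z < 2 * R'} := fun z hz => by
    have := (abs_lt.1 (bx_half hd _ _ hz.2)).2
    have e0 : ell (dr d) 0 = 0 := by simp [ell]
    rw [e0, sub_zero] at this
    exact this
  have h5 : A (β || true) ((K' ∩ bx 0 R') ∪ Metric.thickening 1 (refl (dr d) t '' (K ∩ bx 0 R)))
      (mulF F (cjF (thF d m P))) := by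
    refine hA.mul hFR (hA.cnj h1) ⟨d, 2 * R', 2 * R' + 1, hd, by linarith, h3, fun z hz => ?_⟩
    have : max b (2 * R' + 1) < ell (dr d) z := (h2 hz).2
    exact (le_max_right _ _).trans_lt this
  rw [Bool.or_true] at h5
  refine ⟨(K' ∩ bx 0 R') ∪ Metric.thickening 1 (refl (dr d) t '' (K ∩ bx 0 R)), ?_, h5⟩
  refine Set.union_subset (Set.inter_subset_left.trans hK') fun z hz => ?_
  have : max b (2 * R' + 1) < ell (dr e) z := (h2 hz).1
  exact (le_max_left _ _).trans_lt this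

/-- One step of the chain. -/
theorem far_step (hM : RPS M) (hA : Cls M nr A) {d e : ℤ × ℤ} (hd : DirZ d) (he : DirZ e)
    (hde : 1 ≤ ell (dr e) (dr d)) {β : Bool} {K K' : Set Pl} {P F : Fam} (hP : A true K P) (hF : A β K' F)
    {a b : ℝ} (hab : a < b) (hK : K ⊆ {z | ell (dr e) z < a}) (hK' : K' ⊆ {z | b < ell (dr e) z})
    (H : Far M e P) : Far M d (mulF P F) := by
  have hPF : A (true || β) (K ∪ K') (mulF P F) := hA.mul hP hF ⟨e, a, b, he, hab, hK, hK'⟩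
  rw [Bool.true_or] at hPF
  obtain ⟨T, hT⟩ := far_factor hA hd he hde hPF hF hK'
  refine ⟨T, fun t ht m hm => ?_⟩
  obtain ⟨K'', hK'', hG⟩ := hT t ht m hm
  have h1 := move hM hA he hP hG (show a < (a + b) / 2 by linarith)
    (show (a + b) / 2 < b by linarith) hK hK'' H
  refine h1.congr fun δ => ?_
  congr 2
  funext h
  simp only [mulF, cjF, thF, dbl]
  ring

/-- The last step of the chain. -/
theorem far_last (hA : Cls M nr A) {d e : ℤ × ℤ} (hd : DirZ d) (he : DirZ e)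
    (hde : 1 ≤ ell (dr e) (dr d)) {β : Bool} {K K' : Set Pl} {Y F : Fam} (hY : A β K Y) (hF : A true K' F)
    {a s b : ℝ} (has : a < s) (hsb : s < b) (hK : K ⊆ {z | ell (dr e) z < a}) (hK' : K' ⊆ {z | b < ell (dr e) z})
    (H : Nul M nr e s Y) : Far M d (mulF Y F) := by
  have hPF : A (β || true) (K ∪ K') (mulF Y F) := hA.mul hY hF ⟨e, a, b, he, has.trans hsb, hK, hK'⟩
  rw [Bool.or_true] at hPF
  obtain ⟨T, hT⟩ := far_factor hA hd he hde hPF hF hK'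
  refine ⟨T, fun t ht m hm => ?_⟩
  obtain ⟨K'', hK'', hG⟩ := hT t ht m hm
  have hn : Ln (fun δ => ⌊s / δ⌋) s := Ln.floor s
  obtain ⟨C, hC⟩ := hA.lst hG he hn hsb hK''
  obtain ⟨D, hD0, hD, hDe⟩ := H
  have h4 : Tendsto (fun δ => ‖M (mulF Y (mulF F (cjF (thF d m (mulF Y F)))) δ)‖ ^ 2) (𝓝[>] 0) (𝓝 0) := by
    have h5 : Tendsto (fun δ => D δ * |C|) (𝓝[>] 0) (𝓝 0) := by
      have := hD.mul_const |C|
      rwa [zero_mul] at this
    refine tendsto_of_tendsto_of_tendsto_of_le_of_le' tendsto_const_nhds h5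
      (Eventually.of_forall fun δ => sq_nonneg _) ?_
    filter_upwards [hA.reg hG, hA.pin hG, hn.above hsb e, hC, hDe] with δ g1 g2 g3 g4 g5
    obtain ⟨S, hS, hSK⟩ := g1
    refine (g5 S _ hS (fun x hx => g3 x (hK'' (hSK x hx))) g2).trans ?_
    exact mul_le_mul_of_nonneg_left (g4.trans (le_abs_self _)) (hD0 δ)
  have h5 := (Real.continuous_sqrt.tendsto 0).comp h4
  rw [Real.sqrt_zero] at h5
  refine h5.congr fun δ => ?_
  simp only [Function.comp]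
  rw [Real.sqrt_sq (norm_nonneg _)]
  congr 2
  funext h
  simp only [mulF, cjF, thF, dbl]
  ring

/-- **Six cuts.** The lines have the directions `(1,0), (1,1), (0,1), (-1,1), (-1,0), (-1,-1)`; the pieces `F i` lie beyond
the line `i` and before the lines `j < i`. -/
theorem six_cuts (hM : RPS M) (hA : Cls M nr A) {KY K1 K2 K3 K4 K5 K6 : Set Pl} {Y F1 F2 F3 F4 F5 F6 : Fam}
    {β β2 β3 β4 β5 : Bool} (hY : A β KY Y) (h1 : A true K1 F1) (h2 : A β2 K2 F2) (h3 : A β3 K3 F3) (h4 : A β4 K4 F4)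
    (h5 : A β5 K5 F5) (h6 : A true K6 F6) {a b : Fin 6 → ℝ} (hab : ∀ i, a i < b i) {s : ℝ} (hs : a 5 < s) (hs' : s < b 5)
    (q1 : K1 ⊆ {z | b 0 < ell (dr (1, 0)) z}) (q1' : KY ∪ K6 ∪ K5 ∪ K4 ∪ K3 ∪ K2 ⊆ {z | ell (dr (1, 0)) z < a 0})
    (q2 : K2 ⊆ {z | b 1 < ell (dr (1, 1)) z}) (q2' : KY ∪ K6 ∪ K5 ∪ K4 ∪ K3 ⊆ {z | ell (dr (1, 1)) z < a 1})
    (q3 : K3 ⊆ {z | b 2 < ell (dr (0, 1)) z}) (q3' : KY ∪ K6 ∪ K5 ∪ K4 ⊆ {z | ell (dr (0, 1)) z < a 2})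
    (q4 : K4 ⊆ {z | b 3 < ell (dr (-1, 1)) z}) (q4' : KY ∪ K6 ∪ K5 ⊆ {z | ell (dr (-1, 1)) z < a 3})
    (q5 : K5 ⊆ {z | b 4 < ell (dr (-1, 0)) z}) (q5' : KY ∪ K6 ⊆ {z | ell (dr (-1, 0)) z < a 4})
    (q6 : K6 ⊆ {z | b 5 < ell (dr (-1, -1)) z}) (q6' : KY ⊆ {z | ell (dr (-1, -1)) z < a 5})
    (H : Nul M nr (-1, -1) s Y) :
    Tendsto (fun δ => ‖M (mulF (mulF (mulF (mulF (mulF (mulF Y F6) F5) F4) F3) F2) F1 δ)‖) (𝓝[>] 0) (𝓝 0) := by
  have d1 : DirZ (1, 0) := by simp [DirZ]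
  have d2 : DirZ (1, 1) := by simp [DirZ]
  have d3 : DirZ (0, 1) := by simp [DirZ]
  have d4 : DirZ (-1, 1) := by simp [DirZ]
  have d5 : DirZ (-1, 0) := by simp [DirZ]
  have d6 : DirZ (-1, -1) := by simp [DirZ]
  have r5 : A true (KY ∪ K6) (mulF Y F6) := by
    have := hA.mul hY h6 ⟨_, _, _, d6, hab 5, q6', q6⟩
    rwa [Bool.or_true] at this
  have r4 : A true (KY ∪ K6 ∪ K5) (mulF (mulF Y F6) F5) := by
    have := hA.mul r5 h5 ⟨_, _, _, d5, hab 4, q5', q5⟩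
    rwa [Bool.true_or] at this
  have r3 : A true (KY ∪ K6 ∪ K5 ∪ K4) (mulF (mulF (mulF Y F6) F5) F4) := by
    have := hA.mul r4 h4 ⟨_, _, _, d4, hab 3, q4', q4⟩
    rwa [Bool.true_or] at this
  have r2 : A true (KY ∪ K6 ∪ K5 ∪ K4 ∪ K3) (mulF (mulF (mulF (mulF Y F6) F5) F4) F3) := by
    have := hA.mul r3 h3 ⟨_, _, _, d3, hab 2, q3', q3⟩
    rwa [Bool.true_or] at this
  have r1 : A true (KY ∪ K6 ∪ K5 ∪ K4 ∪ K3 ∪ K2) (mulF (mulF (mulF (mulF (mulF Y F6) F5) F4) F3) F2) := by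
    have := hA.mul r2 h2 ⟨_, _, _, d2, hab 1, q2', q2⟩
    rwa [Bool.true_or] at this
  have f5 : Far M (-1, 0) (mulF Y F6) := far_last hA d5 d6 (by norm_num [ell, dr]) hY h6 hs hs' q6' q6 H
  have f4 : Far M (-1, 1) (mulF (mulF Y F6) F5) :=
    far_step hM hA d4 d5 (by norm_num [ell, dr]) r5 h5 (hab 4) q5' q5 f5
  have f3 := far_step hM hA d3 d4 (by norm_num [ell, dr]) r4 h4 (hab 3) q4' q4 f4
  have f2 := far_step hM hA d2 d3 (by norm_num [ell, dr]) r3 h3 (hab 2) q3' q3 f3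
  have f1 := far_step hM hA d1 d2 (by norm_num [ell, dr]) r2 h2 (hab 1) q2' q2 f2
  exact move hM hA d1 r1 h1 (show a 0 < (a 0 + b 0) / 2 by linarith [hab 0])
    (show (a 0 + b 0) / 2 < b 0 by linarith [hab 0]) q1' q1 f1

end PL
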