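import Pool.Agent.Helper27.PL.P3
import Pool.Agent.Helper33.DV.Pm4

/-!
# Block PL2 (project DV, MP_973bc8_pr), P4: the floating measure
-/

open Filter Topology ComplexConjugate

namespace PL

open RP4 (V Deloc)
open GF (Pl ell refl bx)
open GF.Lat (ld lref DirZ dr ld_lref lref_lref)
open DV (AL Pn rfo per muP sqn sqN Phs GH)

/-- A local function which is pinned somewhere is pinned at the sites it depends on. -/
lemma pn_of {s : Finset V} {F : (V → ℤ) → ℂ} (h : LocC s F) (hp : PinC F) : Pn s F := by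
  classical
  obtain ⟨t, N, ht⟩ := hp
  refine ⟨h, N, fun g hg => ?_⟩
  have h1 : F (fun v => if v ∈ s then g v else |N| + 1) = F g :=
    h _ _ fun x hx => by rw [if_pos hx]
  obtain ⟨x, _, hx⟩ := ht _ (h1.trans_ne hg)
  by_cases hxs : x ∈ s
  · rw [if_pos hxs] at hx
    exact ⟨x, hxs, hx⟩
  · rw [if_neg hxs, abs_of_nonneg (by positivity)] at hx
    have := le_abs_self N
    omega

lemma pinC_of {s : Finset V} {F : (V → ℤ) → ℂ} (h : Pn s F) : PinC F := by
  obtain ⟨N, hN⟩ := h.pin
  exact ⟨s, N, hN⟩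

lemma dbl_eq (d : ℤ × ℤ) (m : ℤ) (F : (V → ℤ) → ℂ) : dbl d m F = DV.rpr d m F F := rfl

/-- The floating measure has the properties used by the cuts. -/
theorem rps (hdl : Deloc) : RPS DV.M where
  cs := by
    intro d hd m s s' F G hF hG hs hs' pF pG
    classical
    have hG' : LocC (s'.image (lref d m)) (fun g => conj (th d m G g)) := (hG.th d m).cnj
    have pG' : PinC (fun g => conj (th d m G g)) := (pG.th d m).cnj
    have hu : ∀ x ∈ s ∪ s'.image (lref d m), ld d x ≤ m := by
      intro x hx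
      rcases Finset.mem_union.1 hx with hx | hx
      · exact hs x hx
      · obtain ⟨y, hy, rfl⟩ := Finset.mem_image.1 hx
        rw [ld_lref hd]
        have := hs' y hy
        omega
    have h1 := DV.M_cs hdl hd m hu (pn_of (hF.mono Finset.subset_union_left) pF)
      (pn_of (hG'.mono Finset.subset_union_right) pG')
    have e1 : DV.rpr d m F (fun g => conj (th d m G g)) = fun h => F h * G h := by
      funext h
      simp only [DV.rpr, DV.rfo, th, Complex.conj_conj, lref_lref hd]
    have e2 : DV.rpr d m (fun g => conj (th d m G g)) (fun g => conj (th d m G g)) = dbl d m G := by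
      funext h
      simp only [DV.rpr, DV.rfo, th, dbl, Complex.conj_conj, lref_lref hd]
      ring
    rw [e1] at h1
    refine h1.trans ?_
    unfold DV.sqn
    rw [e2, ← dbl_eq]
    have a1 := Complex.re_le_norm (DV.M (dbl d m F))
    have a2 := Complex.re_le_norm (DV.M (dbl d m G))
    have a3 : 0 ≤ (DV.M (dbl d m F)).re :=
      (DV.M_rp hdl hd m hu (pn_of (hF.mono Finset.subset_union_left) pF)).1
    exact mul_le_mul a1 a2 (by
      have := (DV.M_rp hdl hd m hu (pn_of (hG'.mono Finset.subset_union_right) pG')).1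
      unfold DV.sqn at this
      rwa [e2] at this) (norm_nonneg _)
  refl := by
    intro d hd m s F hF pF
    exact DV.M_refl hdl hd m (pn_of hF pF)
  cnj := by
    intro s F hF pF
    exact DV.M_conj hdl (pn_of hF pF)

/-- the strong norm: the mean of the sum over the levels times its mirror image -/
noncomputable def nrL (d : ℤ × ℤ) (m : ℤ) (G : (V → ℤ) → ℂ) : ℝ :=
  (muP (fun h => per (fun g => (‖G g‖ : ℂ)) h * per (fun g => (‖G g‖ : ℂ)) (fun v => h (lref d m v)))).re

/-- the mean of the squared sum over the levels -/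
noncomputable def nr2 (G : (V → ℤ) → ℂ) : ℝ := (muP (fun h => per (fun g => (‖G g‖ : ℂ)) h ^ 2)).re

lemma per_conj_norm (G : (V → ℤ) → ℂ) (h : V → ℤ) :
    conj (per (fun g => (‖G g‖ : ℂ)) h) = per (fun g => (‖G g‖ : ℂ)) h := by
  unfold per
  rw [show (∑ᶠ k : ℤ, ((‖G (DV.lev k h)‖ : ℝ) : ℂ)) = ((∑ᶠ k : ℤ, ‖G (DV.lev k h)‖ : ℝ) : ℂ) from ?_, Complex.conj_ofReal]
  by_cases hf : (Function.support fun k : ℤ => ‖G (DV.lev k h)‖).Finite
  · exact (AddMonoidHom.map_finsum (Complex.ofRealHom.toAddMonoidHom) hf).symm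
  · have hf' : ¬ (Function.support fun k : ℤ => ((‖G (DV.lev k h)‖ : ℝ) : ℂ)).Finite := by
      intro hcon
      apply hf
      refine hcon.subset fun k hk => ?_
      rw [Function.mem_support] at hk ⊢
      exact_mod_cast hk
    rw [finsum_of_infinite_support hf, finsum_of_infinite_support hf', Complex.ofReal_zero]

lemma per_th {d : ℤ × ℤ} (m : ℤ) (G : (V → ℤ) → ℂ) (h : V → ℤ) :
    per (th d m G) h = per G (fun v => h (lref d m v)) := rfl

/-- Observables with a phase and vanishing defect. -/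
theorem nul_of (hdl : Deloc) {d : ℤ × ℤ} (hd : DirZ d) {K : Set Pl} {a s : ℝ} (has : a < s) {Y : Fam} {φ : ℝ → ℝ}
    (hY : InR K Y) (hK : K ⊆ {z | ell (dr d) z < a}) (hph : ∀ δ, Phs (φ δ) (Y δ))
    (H : Tendsto (fun δ => ‖muP (dbl d ⌊s / δ⌋ (Y δ))‖) (𝓝[>] 0) (𝓝 0)) :
    Nul DV.M nrL d s Y := by
  obtain ⟨m, hmd⟩ : ∃ m : ℝ → ℤ, m = fun δ => ⌊s / δ⌋ := ⟨_, rfl⟩
  have hm : Ln m s := hmd ▸ Ln.floor s
  have hme : ∀ δ, ⌊s / δ⌋ = m δ := fun δ => by rw [hmd]
  unfold Nul
  simp only [hme] at H ⊢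
  refine ⟨fun δ => ‖muP (dbl d (m δ) (Y δ))‖, fun δ => norm_nonneg _, H, ?_⟩
  filter_upwards [hY, hm.below has d] with δ g1 g2 S G hG hS pG
  obtain ⟨s', hs', hs'K⟩ := g1
  classical
  have hG' : LocC (S.image (lref d (m δ))) (fun g => conj (th d (m δ) G g)) := (hG.th d (m δ)).cnj
  have pG' : PinC (fun g => conj (th d (m δ) G g)) := (pG.th d (m δ)).cnj
  have hu : ∀ x ∈ s' ∪ S.image (lref d (m δ)), ld d x ≤ m δ := by
    intro x hx
    rcases Finset.mem_union.1 hx with hx | hx
    · exact g2 x (hK (hs'K x hx))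
    · obtain ⟨y, hy, rfl⟩ := Finset.mem_image.1 hx
      rw [ld_lref hd]
      have := hS y hy
      omega
  have h1 := DV.M_cs_phs hdl hd (m δ) hu (Y := Y δ) (hs'.mono Finset.subset_union_left) (hph δ)
    (pn_of (hG'.mono Finset.subset_union_right) pG')
  have e1 : DV.rpr d (m δ) (Y δ) (fun g => conj (th d (m δ) G g)) = fun h => Y δ h * G h := by
    funext h
    simp only [DV.rpr, DV.rfo, th, Complex.conj_conj, lref_lref hd]
  rw [e1] at h1
  have e2 : DV.sqN d (m δ) (fun g => conj (th d (m δ) G g)) = nrL d (m δ) G := by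
    unfold DV.sqN nrL
    congr 2
    funext h
    have e3 : per (fun h => (‖conj (th d (m δ) G h)‖ : ℂ)) =
        fun h => per (fun g => (‖G g‖ : ℂ)) (fun v => h (lref d (m δ) v)) := by
      funext h
      simp only [Complex.norm_conj]
      rfl
    show DV.rpr d (m δ) (per fun h => (‖conj (th d (m δ) G h)‖ : ℂ)) (per fun h => (‖conj (th d (m δ) G h)‖ : ℂ)) h = _
    rw [e3]
    simp only [DV.rpr, DV.rfo, lref_lref hd, per_conj_norm]
    rw [mul_comm]
  rw [e2] at h1
  refine h1.trans ?_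
  have hn : 0 ≤ nrL d (m δ) G := by
    rw [← e2]
    exact (DV.M_rp hdl hd (m δ) hu (pn_of (hG'.mono Finset.subset_union_right) pG')).1.trans
      (DV.sqn_le_sqN hdl hd (m δ) hu (pn_of (hG'.mono Finset.subset_union_right) pG'))
  exact mul_le_mul_of_nonneg_right (Complex.re_le_norm _) hn

end PL
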