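import Pool.Agent.Helper27.PL.P4

/-!
# Block PL2 (project DV, MP_973bc8_pr), P5: the class of the bounded families
-/

open Filter Topology ComplexConjugate

namespace PL

open RP4 (V Deloc)
open GF (Pl ell bx)
open GF.Lat (ld lref DirZ dr ld_lref lref_lref refl_lattice)
open DV (AL Pn rfo per muP sqn sqN Phs GH)

/-- sum of the absolute values over the levels -/
noncomputable def pl (F : (V → ℤ) → ℂ) (h : V → ℤ) : ℝ := ∑ᶠ k : ℤ, ‖F (DV.lev k h)‖

lemma per_norm (F : (V → ℤ) → ℂ) (h : V → ℤ) : per (fun g => (‖F g‖ : ℂ)) h = (pl F h : ℂ) := by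
  unfold per pl
  by_cases hf : (Function.support fun k : ℤ => ‖F (DV.lev k h)‖).Finite
  · exact (AddMonoidHom.map_finsum (Complex.ofRealHom.toAddMonoidHom) hf).symm
  · have hf' : ¬ (Function.support fun k : ℤ => ((‖F (DV.lev k h)‖ : ℝ) : ℂ)).Finite := by
      intro hcon
      apply hf
      refine hcon.subset fun k hk => ?_
      rw [Function.mem_support] at hk ⊢
      exact_mod_cast hk
    rw [finsum_of_infinite_support hf, finsum_of_infinite_support hf', Complex.ofReal_zero]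

lemma pl_nonneg (F : (V → ℤ) → ℂ) (h : V → ℤ) : 0 ≤ pl F h := finsum_nonneg fun _ => norm_nonneg _

lemma pl_al {s : Finset V} {F : (V → ℤ) → ℂ} (hF : LocC s F) (φ : ℝ → ℝ) : AL s (fun h => ((φ (pl F h) : ℝ) : ℂ)) := by
  intro g g' hg
  have h1 : pl F g = pl F g' := by
    unfold pl
    refine finsum_congr fun k => ?_
    rw [hF (DV.lev k g) (DV.lev k g') fun x hx => by simp only [DV.lev, hg x hx]]
  simp only [h1]

lemma pl_lev (F : (V → ℤ) → ℂ) (k : ℤ) (h : V → ℤ) : pl F (DV.lev k h) = pl F h := by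
  unfold pl
  rw [← finsum_comp_equiv (Equiv.subRight k)]
  refine finsum_congr fun j => ?_
  simp only [Equiv.subRight_apply, DV.lev_lev, sub_add_cancel]

lemma pl_phs (F : (V → ℤ) → ℂ) (φ : ℝ → ℝ) : Phs 0 (fun h => ((φ (pl F h) : ℝ) : ℂ)) := by
  intro k h
  simp only [pl_lev, mul_zero, neg_zero, Complex.ofReal_zero, zero_mul, Complex.exp_zero, one_mul]

lemma nr2_eq (F : (V → ℤ) → ℂ) : nr2 F = (muP (fun h => ((pl F h ^ 2 : ℝ) : ℂ))).re := by
  unfold nr2
  congr 2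
  funext h
  rw [per_norm, Complex.ofReal_pow]

lemma pl_mono {s : Finset V} {F G : (V → ℤ) → ℂ} (hF : Pn s F) {C : ℝ} (h : ∀ g, ‖G g‖ ≤ C * ‖F g‖) (g : V → ℤ) :
    pl G g ≤ C * pl F g := by
  unfold pl
  have h1 : (Function.support fun k : ℤ => ‖F (DV.lev k g)‖).Finite := by
    refine (hF.finite g).subset fun k hk => ?_
    rw [Function.mem_support, norm_ne_zero_iff] at hk
    exact hk
  have h2 : (Function.support fun k : ℤ => ‖G (DV.lev k g)‖).Finite := by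
    refine h1.subset fun k hk => ?_
    rw [Function.mem_support] at hk ⊢
    intro h0
    have := h (DV.lev k g)
    rw [h0, mul_zero] at this
    exact hk (le_antisymm this (norm_nonneg _))
  have h3 : (Function.support fun k : ℤ => C * ‖F (DV.lev k g)‖).Finite :=
    h1.subset fun k hk => right_ne_zero_of_mul hk
  rw [← smul_eq_mul, smul_finsum]
  exact finsum_le_finsum' h2 h3 fun k => h _

/-- uniformly pinned families -/
def UP (F : Fam) : Prop := PinF F ∧ ∃ C : ℝ, ∀ᶠ δ in 𝓝[>] (0 : ℝ), nr2 (F δ) ≤ C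

/-- the class of the bounded families -/
def AB (b : Bool) (K : Set Pl) (F : Fam) : Prop :=
  (∃ C : ℝ, ∀ᶠ δ in 𝓝[>] (0 : ℝ), ∀ h, ‖F δ h‖ ≤ C) ∧ (∃ R : ℝ, 0 < R ∧ InR (K ∩ bx 0 R) F) ∧ (b = true → UP F)

lemma InR.mono {K K' : Set Pl} {F : Fam} (h : InR K F) (hK : K ⊆ K') : InR K' F := by
  filter_upwards [h] with δ h1
  obtain ⟨s, h2, h3⟩ := h1
  exact ⟨s, h2, fun x hx => hK (h3 x hx)⟩

lemma InR.mul {K K' : Set Pl} {F G : Fam} (h : InR K F) (h' : InR K' G) : InR (K ∪ K') (mulF F G) := by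
  classical
  filter_upwards [h, h'] with δ h1 h2
  obtain ⟨s, h3, h4⟩ := h1
  obtain ⟨t, h5, h6⟩ := h2
  refine ⟨s ∪ t, h3.mul h5, fun x hx => ?_⟩
  rcases Finset.mem_union.1 hx with hx | hx
  · exact Or.inl (h4 x hx)
  · exact Or.inr (h6 x hx)

lemma InR.cnj {K : Set Pl} {F : Fam} (h : InR K F) : InR K (cjF F) := by
  filter_upwards [h] with δ h1
  obtain ⟨s, h2, h3⟩ := h1
  exact ⟨s, h2.cnj, h3⟩

/-- reflections at nearby parallel lines differ little -/
lemma refl_near {d : ℤ × ℤ} (hd : DirZ d) (s t : ℝ) (z : Pl) :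
    dist (GF.refl (dr d) s z) (GF.refl (dr d) t z) ≤ 2 * |s - t| := by
  have key : ∀ a b : ℝ, |a| ≤ 1 → |b| ≤ 1 → ∀ c : ℝ, 0 < c → c ≤ 2 →
      max |(z.1 - c * (ell (a, b) z - s) * a) - (z.1 - c * (ell (a, b) z - t) * a)|
        |(z.2 - c * (ell (a, b) z - s) * b) - (z.2 - c * (ell (a, b) z - t) * b)| ≤ 2 * |s - t| := by
    intro a b ha hb c hc hc2
    have h1 : ∀ x y : ℝ, |x| ≤ 1 → |(y - c * (ell (a, b) z - s) * x) - (y - c * (ell (a, b) z - t) * x)| ≤ 2 * |s - t| := by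
      intro x y hx
      have e : (y - c * (ell (a, b) z - s) * x) - (y - c * (ell (a, b) z - t) * x) = c * (s - t) * x := by ring
      rw [e, abs_mul, abs_mul, abs_of_pos hc]
      have h2 : c * |s - t| * |x| ≤ c * |s - t| * 1 := mul_le_mul_of_nonneg_left hx (by positivity)
      have h3 : c * |s - t| ≤ 2 * |s - t| := mul_le_mul_of_nonneg_right hc2 (abs_nonneg _)
      linarith
    exact max_le (h1 a _ ha) (h1 b _ hb)
  rw [Prod.dist_eq, Real.dist_eq, Real.dist_eq]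
  have hs := GF.Lat.dr_dir hd
  have h1 : (dr d).1 ^ 2 + (dr d).2 ^ 2 = 1 ∨ (dr d).1 ^ 2 + (dr d).2 ^ 2 = 2 := by
    rcases hs with h | h | h | h | h | h | h | h <;> rw [h] <;> norm_num
  obtain ⟨a1, a2⟩ := dr_le d hd
  rcases h1 with h1 | h1
  · have h2 := key _ _ a1 a2 2 (by norm_num) le_rfl
    have e : ∀ u : ℝ, GF.refl (dr d) u z = (z.1 - 2 * (ell (dr d) z - u) * (dr d).1, z.2 - 2 * (ell (dr d) z - u) * (dr d).2) := by
      intro u
      unfold GF.refl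
      rw [h1]
      norm_num
    rw [e, e]
    exact h2
  · have h2 := key _ _ a1 a2 1 (by norm_num) (by norm_num)
    have e : ∀ u : ℝ, GF.refl (dr d) u z = (z.1 - 1 * (ell (dr d) z - u) * (dr d).1, z.2 - 1 * (ell (dr d) z - u) * (dr d).2) := by
      intro u
      unfold GF.refl
      rw [h1]
      norm_num
    rw [e, e]
    exact h2

lemma InR.ref {K : Set Pl} {F : Fam} (h : InR K F) {d : ℤ × ℤ} (hd : DirZ d) {m : ℝ → ℤ} {t ε : ℝ} (hm : Ln m t)
    (hε : 0 < ε) : InR (Metric.thickening ε (GF.refl (dr d) t '' K)) (thF d m F) := by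
  classical
  have h0 : ∀ᶠ δ in 𝓝[>] (0 : ℝ), |δ * (m δ : ℝ) - t| < ε / 2 := by
    have := (hm.sub_const t).abs
    rw [sub_self, abs_zero] at this
    exact this.eventually (gt_mem_nhds (by linarith))
  filter_upwards [h, h0] with δ h1 h2
  obtain ⟨s, h3, h4⟩ := h1
  refine ⟨s.image (lref d (m δ)), h3.th d (m δ), fun x hx => ?_⟩
  obtain ⟨y, hy, rfl⟩ := Finset.mem_image.1 hx
  rw [Metric.mem_thickening_iff]
  refine ⟨GF.refl (dr d) t (sc δ y), ⟨_, h4 y hy, rfl⟩, ?_⟩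
  have e : sc δ (lref d (m δ) y) = GF.refl (dr d) (δ * (m δ : ℝ)) (sc δ y) := by
    have := refl_lattice hd δ (m δ) y
    unfold sc
    rw [this]
  rw [e]
  have h5 := refl_near hd (δ * (m δ : ℝ)) t (sc δ y)
  linarith

lemma nr2_le {s : Finset V} (hdl : Deloc) {F G : (V → ℤ) → ℂ} (hF : Pn s F) (hG : LocC s G) {C : ℝ}
    (h : ∀ g, ‖G g‖ ≤ C * ‖F g‖) : nr2 G ≤ C ^ 2 * nr2 F := by
  rw [nr2_eq, nr2_eq]
  have e : (muP (fun h => (((C * pl F h) ^ 2 : ℝ) : ℂ))).re = C ^ 2 * (muP (fun h => ((pl F h ^ 2 : ℝ) : ℂ))).re := by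
    have h1 := DV.muP_smul hdl (pl_al hF.loc (fun t => t ^ 2)) (pl_phs F (fun t => t ^ 2)) ((C ^ 2 : ℝ) : ℂ)
    have h2 : (fun h => (((C * pl F h) ^ 2 : ℝ) : ℂ)) = fun h => ((C ^ 2 : ℝ) : ℂ) * ((pl F h ^ 2 : ℝ) : ℂ) := by
      funext h
      rw [← Complex.ofReal_mul, mul_pow]
    rw [h2, h1, Complex.re_ofReal_mul]
  rw [← e]
  refine DV.muP_re_mono hdl (pl_al hG (fun t => t ^ 2)) (pl_phs G (fun t => t ^ 2))
    (pl_al hF.loc (fun t => (C * t) ^ 2)) (pl_phs F (fun t => (C * t) ^ 2)) fun g _ => ?_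
  rw [Complex.ofReal_re, Complex.ofReal_re]
  exact pow_le_pow_left₀ (pl_nonneg _ _) (pl_mono hF h g) 2

lemma nr2_nonneg {s : Finset V} (hdl : Deloc) {F : (V → ℤ) → ℂ} (hF : LocC s F) : 0 ≤ nr2 F := by
  rw [nr2_eq]
  have h1 := DV.muP_re_mono hdl (s := s) (F := fun _ => 0) (fun _ _ _ => rfl) (fun k h => by simp)
    (pl_al hF (fun t => t ^ 2)) (pl_phs F (fun t => t ^ 2)) fun g _ => by
      rw [Complex.ofReal_re, Complex.zero_re]
      positivity
  rw [DV.muP_const 0, Complex.zero_re] at h1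
  exact h1

/-- the strong norm is bounded by the mean square, for every line -/
lemma nrL_le {s : Finset V} (hdl : Deloc) {d : ℤ × ℤ} (hd : DirZ d) (m : ℤ) {F : (V → ℤ) → ℂ} (hF : LocC s F) :
    nrL d m F ≤ nr2 F := by
  classical
  rw [nr2_eq]
  have e1 : nrL d m F = (muP (fun h => ((pl F h * pl F (fun v => h (lref d m v)) : ℝ) : ℂ))).re := by
    unfold nrL
    congr 2
    funext h
    rw [per_norm, per_norm, Complex.ofReal_mul]
  have hR := DV.muP_refl hdl hd m (pl_al hF (fun t => t ^ 2)) (pl_phs F (fun t => t ^ 2))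
  have hA := pl_al hF (fun t => t ^ 2)
  have hA' : AL (s.image (lref d m)) (rfo d m (fun h => ((pl F h ^ 2 : ℝ) : ℂ))) := hA.rfo d m
  have hP' : Phs 0 (rfo d m (fun h => ((pl F h ^ 2 : ℝ) : ℂ))) := fun k h => by
    have := pl_phs F (fun t => t ^ 2) k (fun v => h (lref d m v))
    exact this
  have hs := DV.muP_add hdl (hA.mono (Finset.subset_union_left (s₂ := s.image (lref d m)))) (pl_phs F (fun t => t ^ 2))
    (hA'.mono (Finset.subset_union_right (s₁ := s))) hP'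
  rw [hR] at hs
  have h2 : 2 * nrL d m F ≤ (muP (fun h => ((pl F h ^ 2 : ℝ) : ℂ))).re + (muP (fun h => ((pl F h ^ 2 : ℝ) : ℂ))).re := by
    rw [← Complex.add_re, ← hs, e1]
    have hAL : AL (s ∪ s.image (lref d m)) (fun h => ((pl F h * pl F (fun v => h (lref d m v)) : ℝ) : ℂ)) := by
      intro g g' hg
      have h3 := (pl_al hF (fun t => t)) g g' fun x hx => hg x (Finset.mem_union_left _ hx)
      have h4 := (pl_al hF (fun t => t)) (fun v => g (lref d m v)) (fun v => g' (lref d m v)) fun x hx =>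
        hg _ (Finset.mem_union_right _ (Finset.mem_image_of_mem _ hx))
      simp only [Complex.ofReal_inj] at h3 h4
      simp only [h3, h4]
    have hPh : Phs 0 (fun h => ((pl F h * pl F (fun v => h (lref d m v)) : ℝ) : ℂ)) := by
      intro k h
      have h3 : pl F (DV.lev k h) = pl F h := pl_lev F k h
      have h4 : pl F (fun v => DV.lev k h (lref d m v)) = pl F (fun v => h (lref d m v)) :=
        pl_lev F k (fun v => h (lref d m v))
      simp only [h3, h4, mul_zero, neg_zero, Complex.ofReal_zero, zero_mul, Complex.exp_zero, one_mul]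
    have h5 := DV.muP_smul hdl hAL hPh 2
    have h6 : 2 * (muP (fun h => ((pl F h * pl F (fun v => h (lref d m v)) : ℝ) : ℂ))).re =
        (muP (fun h => (2 : ℂ) * ((pl F h * pl F (fun v => h (lref d m v)) : ℝ) : ℂ))).re := by
      rw [h5]
      simp
    rw [h6]
    refine DV.muP_re_mono hdl (hAL.comp fun z => 2 * z) (fun k h => ?_)
      ((hA.mono Finset.subset_union_left).add (hA'.mono Finset.subset_union_right)) (fun k h => ?_) fun g _ => ?_
    · have := hPh k h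
      simp only [mul_zero, neg_zero, Complex.ofReal_zero, zero_mul, Complex.exp_zero, one_mul] at this ⊢
      rw [this]
    · have h7 := pl_phs F (fun t => t ^ 2) k h
      have h8 := hP' k h
      simp only [mul_zero, neg_zero, Complex.ofReal_zero, zero_mul, Complex.exp_zero, one_mul] at h7 h8 ⊢
      rw [h7, h8]
    · have h9 := two_mul_le_add_sq (pl F g) (pl F (fun v => g (lref d m v)))
      simp only [DV.rfo, ← Complex.ofReal_add, Complex.ofReal_re]
      rw [show ((2 : ℂ) * ((pl F g * pl F (fun v => g (lref d m v)) : ℝ) : ℂ)) =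
        ((2 * (pl F g * pl F (fun v => g (lref d m v))) : ℝ) : ℂ) by push_cast; ring, Complex.ofReal_re]
      linarith
  linarith

lemma UP.of_le (hdl : Deloc) {K K' : Set Pl} {F G : Fam} (hF : UP F) (rF : InR K F) (rG : InR K' G) {C : ℝ}
    (h : ∀ᶠ δ in 𝓝[>] (0 : ℝ), ∀ g, ‖G δ g‖ ≤ C * ‖F δ g‖) : UP G := by
  classical
  obtain ⟨hp, B, hB⟩ := hF
  have hpG : PinF G := by
    filter_upwards [hp, h] with δ h1 h2
    obtain ⟨t, N, ht⟩ := h1
    refine ⟨t, N, fun g hg => ht g fun h0 => hg ?_⟩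
    have := h2 g
    rw [h0, norm_zero, mul_zero] at this
    exact norm_le_zero_iff.1 this
  refine ⟨hpG, C ^ 2 * |B|, ?_⟩
  filter_upwards [hp, hB, h, rF, rG] with δ h1 h2 h3 h4 h5
  obtain ⟨s, h6, _⟩ := h4
  obtain ⟨t, h7, _⟩ := h5
  refine (nr2_le hdl (pn_of (h6.mono (Finset.subset_union_left (s₂ := t))) h1)
    (h7.mono (Finset.subset_union_right (s₁ := s))) h3).trans ?_
  exact mul_le_mul_of_nonneg_left (h2.trans (le_abs_self B)) (sq_nonneg C)

lemma UP.thF (hdl : Deloc) {K : Set Pl} {F : Fam} (hF : UP F) (rF : InR K F) {d : ℤ × ℤ} (hd : DirZ d) (m : ℝ → ℤ) :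
    UP (thF d m F) := by
  obtain ⟨hp, B, hB⟩ := hF
  refine ⟨hp.mono fun δ h => h.th _ _, B, ?_⟩
  filter_upwards [hB, rF] with δ h1 h2
  obtain ⟨s, h3, _⟩ := h2
  refine le_trans (le_of_eq ?_) h1
  rw [nr2_eq, nr2_eq, ← DV.muP_refl hdl hd (m δ) (pl_al h3 (fun t => t ^ 2)) (pl_phs (F δ) (fun t => t ^ 2))]
  rfl

lemma UP.bdd (hdl : Deloc) {K : Set Pl} {F : Fam} (hF : UP F) (rF : InR K F) :
    ∃ C : ℝ, ∀ᶠ δ in 𝓝[>] (0 : ℝ), ‖DV.M (F δ)‖ ≤ C := by
  obtain ⟨hp, B, hB⟩ := hF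
  refine ⟨1 + B, ?_⟩
  filter_upwards [hp, hB, rF] with δ h1 h2 h3
  obtain ⟨s, h4, _⟩ := h3
  have hP := pn_of h4 h1
  have hQ : Pn s (fun g => (‖F δ g‖ : ℂ)) := by
    refine ⟨fun g g' hg => by simp only [h4 g g' hg], ?_⟩
    obtain ⟨N, hN⟩ := hP.pin
    refine ⟨N, fun g hg => hN g fun h0 => hg ?_⟩
    simp only [h0, norm_zero, Complex.ofReal_zero]
  have h5 := DV.norm_M_le hdl hP hQ fun g _ => by rw [Complex.ofReal_re]
  refine h5.trans ?_
  have e : DV.M (fun g => (‖F δ g‖ : ℂ)) = muP (fun h => ((pl (F δ) h : ℝ) : ℂ)) := by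
    unfold DV.M
    congr 1
    funext h
    exact per_norm _ _
  rw [e]
  have h6 := DV.muP_re_mono hdl (pl_al h4 (fun t => t)) (pl_phs (F δ) (fun t => t))
    (pl_al h4 (fun t => 1 + t ^ 2)) (pl_phs (F δ) (fun t => 1 + t ^ 2)) fun g _ => by
      rw [Complex.ofReal_re, Complex.ofReal_re]
      nlinarith [sq_nonneg (pl (F δ) g - 1), pl_nonneg (F δ) g]
  refine h6.trans ?_
  have h7 := DV.muP_add hdl (s := s) (F := fun _ => 1) (fun _ _ _ => rfl) (fun k h => by simp)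
    (pl_al h4 (fun t => t ^ 2)) (pl_phs (F δ) (fun t => t ^ 2))
  have h8 : (fun h => (((fun t : ℝ => 1 + t ^ 2) (pl (F δ) h) : ℝ) : ℂ)) =
      fun h => 1 + (((pl (F δ) h) ^ 2 : ℝ) : ℂ) := by
    funext h
    push_cast
    ring
  rw [h8, h7, DV.muP_const, Complex.add_re, Complex.one_re, ← nr2_eq]
  linarith

lemma UP.lst (hdl : Deloc) {K : Set Pl} {F : Fam} (hF : UP F) (rF : InR K F) {d : ℤ × ℤ} (hd : DirZ d) (m : ℝ → ℤ) :
    ∃ C : ℝ, ∀ᶠ δ in 𝓝[>] (0 : ℝ), nrL d (m δ) (F δ) ≤ C := by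
  obtain ⟨hp, B, hB⟩ := hF
  refine ⟨B, ?_⟩
  filter_upwards [hB, rF] with δ h2 h3
  obtain ⟨s, h4, _⟩ := h3
  exact (nrL_le hdl hd (m δ) h4).trans h2

/-- **The bounded families form a class.** -/
theorem cls_AB (hdl : Deloc) : Cls DV.M nrL AB where
  reg := by
    rintro b K F ⟨_, ⟨R, _, h⟩, _⟩
    exact h.mono Set.inter_subset_left
  pin := by
    rintro K F ⟨_, _, h⟩
    exact (h rfl).1
  mono := by
    rintro b K K' F hK ⟨h1, ⟨R, hR, h2⟩, h3⟩
    exact ⟨h1, ⟨R, hR, h2.mono (Set.inter_subset_inter_left _ hK)⟩, h3⟩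
  box := by
    rintro b K F ⟨h1, ⟨R, hR, h2⟩, h3⟩
    exact ⟨R, hR, h1, ⟨R, hR, h2.mono fun z hz => ⟨hz, hz.2⟩⟩, h3⟩
  mul := by
    rintro b b' K K' F G ⟨⟨C, hC⟩, ⟨R, hR, h2⟩, h3⟩ ⟨⟨C', hC'⟩, ⟨R', hR', h2'⟩, h3'⟩ _
    have hC0 : ∀ᶠ δ in 𝓝[>] (0 : ℝ), ∀ h, ‖F δ h‖ ≤ |C| := hC.mono fun δ h g => (h g).trans (le_abs_self _)
    have hC0' : ∀ᶠ δ in 𝓝[>] (0 : ℝ), ∀ h, ‖G δ h‖ ≤ |C'| := hC'.mono fun δ h g => (h g).trans (le_abs_self _)
    have hr := h2.mul h2'
    refine ⟨⟨|C| * |C'|, ?_⟩, ⟨max R R', lt_max_of_lt_left hR, hr.mono ?_⟩, fun hb => ?_⟩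
    · filter_upwards [hC0, hC0'] with δ g1 g2 h
      show ‖F δ h * G δ h‖ ≤ _
      rw [norm_mul]
      exact mul_le_mul (g1 h) (g2 h) (norm_nonneg _) (abs_nonneg _)
    · rintro z (⟨hz, hz1, hz2⟩ | ⟨hz, hz1, hz2⟩)
      · exact ⟨Or.inl hz, hz1.trans_le (le_max_left _ _), hz2.trans_le (le_max_left _ _)⟩
      · exact ⟨Or.inr hz, hz1.trans_le (le_max_right _ _), hz2.trans_le (le_max_right _ _)⟩
    · cases b with
      | true =>
        refine UP.of_le hdl (h3 rfl) h2 hr (C := |C'|) ?_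
        filter_upwards [hC0'] with δ g2 h
        show ‖F δ h * G δ h‖ ≤ _
        rw [norm_mul, mul_comm]
        exact mul_le_mul_of_nonneg_right (g2 h) (norm_nonneg _)
      | false =>
        rw [Bool.false_or] at hb
        refine UP.of_le hdl (h3' hb) h2' hr (C := |C|) ?_
        filter_upwards [hC0] with δ g2 h
        show ‖F δ h * G δ h‖ ≤ _
        rw [norm_mul]
        exact mul_le_mul_of_nonneg_right (g2 h) (norm_nonneg _)
  cnj := by
    rintro b K F ⟨⟨C, hC⟩, ⟨R, hR, h2⟩, h3⟩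
    refine ⟨⟨C, hC.mono fun δ h g => ?_⟩, ⟨R, hR, h2.cnj⟩, fun hb => ?_⟩
    · show ‖conj (F δ g)‖ ≤ C
      rw [Complex.norm_conj]
      exact h g
    · refine UP.of_le hdl (h3 hb) h2 h2.cnj (C := 1) (Eventually.of_forall fun δ g => ?_)
      show ‖conj (F δ g)‖ ≤ _
      rw [Complex.norm_conj, one_mul]
  ref := by
    rintro b K F d m t ε hd hm hε ⟨⟨C, hC⟩, ⟨R, hR, h2⟩, h3⟩
    have h4 := h2.ref hd hm hε
    refine ⟨⟨C, hC.mono fun δ h g => h _⟩, ?_, fun hb => (h3 hb).thF hdl h2 hd m⟩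
    refine ⟨6 * R + 2 * |t| + ε, by positivity, h4.mono fun z hz => ⟨?_, ?_⟩⟩
    · obtain ⟨w, ⟨y, hy, rfl⟩, hw⟩ := Metric.mem_thickening_iff.1 hz
      exact Metric.mem_thickening_iff.2 ⟨_, ⟨y, hy.1, rfl⟩, hw⟩
    · obtain ⟨w, ⟨y, hy, rfl⟩, hw⟩ := Metric.mem_thickening_iff.1 hz
      have hy1 : |y.1| < R := by simpa using hy.2.1
      have hy2 : |y.2| < R := by simpa using hy.2.2
      have hb : |(GF.refl (dr d) t y).1| < 6 * R + 2 * |t| ∧ |(GF.refl (dr d) t y).2| < 6 * R + 2 * |t| := by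
        have ht := le_abs_self t
        have ht' := neg_abs_le t
        have hs := GF.Lat.dr_dir hd
        rw [abs_lt] at hy1 hy2
        rcases hs with h | h | h | h | h | h | h | h <;> rw [h] <;> simp only [ell, GF.refl] <;> norm_num <;>
          exact ⟨abs_lt.2 ⟨by linarith, by linarith⟩, abs_lt.2 ⟨by linarith, by linarith⟩⟩
      rw [Prod.dist_eq, max_lt_iff, Real.dist_eq, Real.dist_eq] at hw
      constructor
      · have := abs_sub_abs_le_abs_sub z.1 (GF.refl (dr d) t y).1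
        simp only [Prod.fst_zero, sub_zero]
        linarith [hw.1, hb.1]
      · have := abs_sub_abs_le_abs_sub z.2 (GF.refl (dr d) t y).2
        simp only [Prod.snd_zero, sub_zero]
        linarith [hw.2, hb.2]
  bdd := by
    rintro K F ⟨_, ⟨R, _, h2⟩, h3⟩
    exact (h3 rfl).bdd hdl h2
  lst := by
    rintro K F d m s t ⟨_, ⟨R, _, h2⟩, h3⟩ hd _ _ _
    exact (h3 rfl).lst hdl h2 hd m

end PL
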