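import Pool.Agent.Helper27.PL.P5

/-!
# Block PL2 (project DV, MP_973bc8_pr), P6: the six cuts for bounded families
-/

open Filter Topology ComplexConjugate

namespace PL

open RP4 (V Deloc)
open GF (Pl ell bx)
open GF.Lat (ld lref DirZ dr)
open DV (AL Pn rfo per muP Phs GH)

/-- A family whose sum over the levels is bounded pointwise is uniformly pinned. -/
theorem UP.of_pl (hdl : Deloc) {K : Set Pl} {F : Fam} (hF : PinF F) (rF : InR K F) {C : ℝ}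
    (h : ∀ᶠ δ in 𝓝[>] (0 : ℝ), ∀ g, GH g → pl (F δ) g ≤ C) : UP F := by
  refine ⟨hF, C ^ 2, ?_⟩
  filter_upwards [rF, h] with δ h1 h2
  obtain ⟨s, h3, _⟩ := h1
  rw [nr2_eq]
  have h4 := DV.muP_re_mono hdl (pl_al h3 (fun t => t ^ 2)) (pl_phs (F δ) (fun t => t ^ 2)) (s := s)
    (G := fun _ => ((C ^ 2 : ℝ) : ℂ)) (fun _ _ _ => rfl) (fun k h => by simp) fun g hg => by
      rw [Complex.ofReal_re, Complex.ofReal_re]
      exact pow_le_pow_left₀ (pl_nonneg _ _) (h2 g hg) 2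
  rw [DV.muP_const, Complex.ofReal_re] at h4
  exact h4

/-- **Six cuts for bounded families** (block PL2). `Y` has a phase and vanishing defect across the sixth line; the families `F i` are
bounded and live beyond the line `i` and before the lines `j < i`; `F1` and `F6` are uniformly pinned. The lines have the directions
`(1,0), (1,1), (0,1), (-1,1), (-1,0), (-1,-1)`. -/
theorem cuts_bdd (hdl : Deloc) {KY K1 K2 K3 K4 K5 K6 : Set Pl} {Y F1 F2 F3 F4 F5 F6 : Fam}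
    {β2 β3 β4 β5 : Bool} (hY : AB false KY Y) (h1 : AB true K1 F1) (h2 : AB β2 K2 F2) (h3 : AB β3 K3 F3) (h4 : AB β4 K4 F4)
    (h5 : AB β5 K5 F5) (h6 : AB true K6 F6) {a b : Fin 6 → ℝ} (hab : ∀ i, a i < b i) {s : ℝ} (hs : a 5 < s) (hs' : s < b 5)
    (q1 : K1 ⊆ {z | b 0 < ell (dr (1, 0)) z}) (q1' : KY ∪ K6 ∪ K5 ∪ K4 ∪ K3 ∪ K2 ⊆ {z | ell (dr (1, 0)) z < a 0})
    (q2 : K2 ⊆ {z | b 1 < ell (dr (1, 1)) z}) (q2' : KY ∪ K6 ∪ K5 ∪ K4 ∪ K3 ⊆ {z | ell (dr (1, 1)) z < a 1})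
    (q3 : K3 ⊆ {z | b 2 < ell (dr (0, 1)) z}) (q3' : KY ∪ K6 ∪ K5 ∪ K4 ⊆ {z | ell (dr (0, 1)) z < a 2})
    (q4 : K4 ⊆ {z | b 3 < ell (dr (-1, 1)) z}) (q4' : KY ∪ K6 ∪ K5 ⊆ {z | ell (dr (-1, 1)) z < a 3})
    (q5 : K5 ⊆ {z | b 4 < ell (dr (-1, 0)) z}) (q5' : KY ∪ K6 ⊆ {z | ell (dr (-1, 0)) z < a 4})
    (q6 : K6 ⊆ {z | b 5 < ell (dr (-1, -1)) z}) (q6' : KY ⊆ {z | ell (dr (-1, -1)) z < a 5})
    {φ : ℝ → ℝ} (hph : ∀ δ, Phs (φ δ) (Y δ))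
    (H : Tendsto (fun δ => ‖muP (dbl (-1, -1) ⌊s / δ⌋ (Y δ))‖) (𝓝[>] 0) (𝓝 0)) :
    Tendsto (fun δ => ‖DV.M (fun h => Y δ h * F6 δ h * F5 δ h * F4 δ h * F3 δ h * F2 δ h * F1 δ h)‖) (𝓝[>] 0) (𝓝 0) :=
  six_cuts (rps hdl) (cls_AB hdl) hY h1 h2 h3 h4 h5 h6 hab hs hs' q1 q1' q2 q2' q3 q3' q4 q4' q5 q5' q6 q6'
    (nul_of hdl (by simp [DirZ]) hs ((cls_AB hdl).reg hY) q6' hph H)

end PL
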