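import Pool.Agent.Helper94.BR.Mk

/-!
# Block PL2 (project DV, MP_973bc8_pr), Q1: probabilities of deterministic zero sets

`phi L S`: probability of `h = 0` on `S` in the flat domain `L`.  In a domain with boundary values all `≥ a` or all `≤ a`
the probability of `h = a` on `S` is at most `phi L S` if `L` is free of boundary values.
-/

open Finset

namespace PL

open RP4 (V Adj BdryPar Om Zs avg bdry IsHom par)
open DV (pr Fam Lat Tb IncF Dec Inc absf glu nb rv Con nz)

/-- zero on `S` -/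
def Zer (S : Finset V) (g : V → ℤ) : Prop := ∀ v ∈ S, g v = 0

/-- probability of zeros on `S` in the flat domain `L` -/
noncomputable def phi (L S : Finset V) : ℝ := pr (Om L) (Zer S)

lemma phi_nonneg (L S : Finset V) : 0 ≤ phi L S := DV.pr_nonneg _ _

lemma zer_abs (S : Finset V) (g : V → ℤ) : Zer S (absf g) ↔ Zer S g := by
  unfold Zer absf
  simp only [abs_eq_zero]

lemma dec_zer (S : Finset V) : Dec (Zer S) := by
  refine ⟨zer_abs S, fun g g' h0 hle h v hv => ?_⟩
  have h1 := h v hv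
  have h2 := h0 v
  have h3 := hle v
  omega

open Classical in
/-- height functions on `D` with values `β` on `Z` -/
noncomputable def HB (D Z : Finset V) (β : V → ℤ) : Finset (V → ℤ) :=
  if h : {g : V → ℤ | IsHom D 0 g ∧ ∀ v ∈ Z, g v = β v}.Finite then h.toFinset else ∅

lemma mem_HB {D Z : Finset V} {β : V → ℤ} (hZ : bdry D ⊆ Z) {g : V → ℤ} :
    g ∈ HB D Z β ↔ IsHom D 0 g ∧ ∀ v ∈ Z, g v = β v := by
  have hfin : {g : V → ℤ | IsHom D 0 g ∧ ∀ v ∈ Z, g v = β v}.Finite := by
    apply (RP4.A02_fin D (D.card + ∑ v ∈ Z, |β v|)).subset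
    rintro g ⟨hg, hgc⟩
    refine ⟨hg.off, fun v hv => ?_⟩
    obtain ⟨b, hb, hbv⟩ := hg.bound_bdry hv
    rw [hgc b (hZ hb)] at hbv
    have h1 := abs_add_le (g v - β b) (β b)
    rw [sub_add_cancel] at h1
    have h2 : |β b| ≤ ∑ v ∈ Z, |β v| :=
      Finset.single_le_sum (f := fun v => |β v|) (fun y _ => abs_nonneg _) (hZ hb)
    linarith
  unfold HB
  rw [dif_pos hfin, Set.Finite.mem_toFinset]
  rfl

lemma HB_zero {D Z : Finset V} (hZ : bdry D ⊆ Z) : HB D Z 0 = Zs D 0 Z := by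
  ext g
  rw [mem_HB hZ, RP4.mem_Zs hZ]
  rfl

/-- the restriction to a flat subdomain -/
lemma pr_Zs_sub {D L Z S : Finset V} (hZ : bdry D ⊆ Z) (hLD : L ⊆ D) (hL : BdryPar L 0)
    (hLZ : bdry L ⊆ Z) (hZL : ∀ v ∈ Z, v ∈ L → v ∈ bdry L) (hne : (Zs D 0 Z).Nonempty) (hS : S ⊆ L) :
    pr (Zs D 0 Z) (Zer S) = phi L S := by
  classical
  refine DV.avg_swap (L : Set V)ᶜ hne (RP4.Om_nonempty hL) ?_ ?_ ?_
  · intro g hg u hu
    rw [RP4.mem_Zs hZ] at hg ⊢
    obtain ⟨hg1, hg2⟩ := hg
    obtain ⟨hu1, hu2⟩ := RP4.mem_Om.1 hu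
    have hin : ∀ v ∈ L, glu (L : Set V)ᶜ g u v = u v := fun v hv =>
      DV.glu_out fun h => h (Finset.mem_coe.2 hv)
    have hout : ∀ v, v ∉ L → glu (L : Set V)ᶜ g u v = g v := fun v hv =>
      DV.glu_in fun h => hv (Finset.mem_coe.1 h)
    have hbd : ∀ v ∈ bdry L, glu (L : Set V)ᶜ g u v = g v := fun v hv => by
      rw [hin v (RP4.bdry_subset L hv), hu2 v hv, hg2 v (hLZ hv)]
    refine ⟨⟨fun v hv => ?_, fun v hv => ?_, fun a ha b hb hab => ?_⟩, fun v hv => ?_⟩
    · rw [hout v fun h => hv (hLD h)]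
      exact hg1.off v hv
    · by_cases h : v ∈ L
      · rw [hin v h]
        exact hu1.par v h
      · rw [hout v h]
        exact hg1.par v hv
    · by_cases h : a ∈ L <;> by_cases h' : b ∈ L
      · rw [hin a h, hin b h']
        exact hu1.step a h b h' hab
      · rw [hout b h', hbd a (RP4.mem_bdry.2 ⟨h, b, DV.adj_symm hab, h'⟩)]
        exact hg1.step a ha b hb hab
      · rw [hout a h, hbd b (RP4.mem_bdry.2 ⟨h', a, hab, h⟩)]
        exact hg1.step a ha b hb hab
      · rw [hout a h, hout b h']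
        exact hg1.step a ha b hb hab
    · by_cases h : v ∈ L
      · rw [hbd v (hZL v hv h)]
        exact hg2 v hv
      · rw [hout v h]
        exact hg2 v hv
  · intro g hg u hu
    rw [RP4.mem_Zs hZ] at hg
    obtain ⟨hg1, hg2⟩ := hg
    obtain ⟨hu1, hu2⟩ := RP4.mem_Om.1 hu
    have hin : ∀ v ∈ L, glu (L : Set V)ᶜ u g v = g v := fun v hv =>
      DV.glu_out fun h => h (Finset.mem_coe.2 hv)
    have hout : ∀ v, v ∉ L → glu (L : Set V)ᶜ u g v = 0 := fun v hv => by
      have h1 : glu (L : Set V)ᶜ u g v = u v := DV.glu_in fun h => hv (Finset.mem_coe.1 h)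
      rw [h1]
      exact hu1.off v hv
    refine RP4.mem_Om.2 ⟨⟨fun v hv => hout v hv, fun v hv => ?_, fun a ha b hb hab => ?_⟩, fun v hv => ?_⟩
    · rw [hin v hv]
      exact hg1.par v (hLD hv)
    · rw [hin a ha, hin b hb]
      exact hg1.step a (hLD ha) b (hLD hb) hab
    · rw [hin v (RP4.bdry_subset L hv)]
      exact hg2 v (hLZ hv)
  · intro g g' h
    have h1 : Zer S g ↔ Zer S g' := by
      unfold Zer
      refine forall₂_congr fun v hv => ?_
      rw [h v fun h2 => h2 (Finset.mem_coe.2 (hS hv))]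
    simp only [h1]

/-- boundary values `≥ 0` -/
lemma hb_zer {D Z L S : Finset V} {β : V → ℤ} (hZ : bdry D ⊆ Z) (hZD : Z ⊆ D) (hβ : ∀ v ∈ Z, 0 ≤ β v)
    (hβe : ∀ v ∈ Z, Even (β v)) (hLD : L ⊆ D) (hL : BdryPar L 0) (hZL : ∀ v ∈ Z, v ∉ L) (hS : S ⊆ L) :
    pr (HB D Z β) (Zer S) ≤ phi L S := by
  classical
  rcases (HB D Z β).eq_empty_or_nonempty with h0 | hne
  · rw [h0]
    have : pr (∅ : Finset (V → ℤ)) (Zer S) = 0 := by
      unfold DV.pr avg
      simp
    rw [this]
    exact phi_nonneg _ _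
  obtain ⟨g₀, hg₀⟩ := hne
  have hne : (HB D Z β).Nonempty := ⟨g₀, hg₀⟩
  have hZe : ∀ v ∈ Z, Even (par v) := by
    intro v hv
    obtain ⟨h1, h2⟩ := (mem_HB hZ).1 hg₀
    have h3 := h1.par v (hZD hv)
    have h4 := hβe v hv
    rw [h2 v hv] at h3
    rw [Int.even_iff] at h3 h4 ⊢
    omega
  set Z' : Finset V := D.filter fun v => Even (par v) ∧ (v ∈ L → v ∈ bdry L) with hZ'
  have hb' : bdry D ⊆ Z' := by
    intro v hv
    rw [hZ', Finset.mem_filter]
    refine ⟨RP4.bdry_subset D hv, hZe v (hZ hv), fun h => ?_⟩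
    obtain ⟨_, w, hw, hwD⟩ := RP4.mem_bdry.1 hv
    exact RP4.mem_bdry.2 ⟨h, w, hw, fun h2 => hwD (hLD h2)⟩
  have hZZ : Z ⊆ Z' := by
    intro v hv
    rw [hZ', Finset.mem_filter]
    exact ⟨hZD hv, hZe v hv, fun h => absurd h (hZL v hv)⟩
  have hLZ : bdry L ⊆ Z' := by
    intro v hv
    rw [hZ', Finset.mem_filter]
    have := hL v hv
    rw [sub_zero] at this
    exact ⟨hLD (RP4.bdry_subset L hv), this, fun _ => hv⟩
  have hne' : (Zs D 0 Z').Nonempty := by
    refine ⟨RP4.flat D 0, RP4.flat_mem_Zs hb' (Finset.filter_subset _ _) fun v hv => ?_⟩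
    rw [sub_zero]
    exact (Finset.mem_filter.1 hv).2.1
  have h1 : pr (Zs D 0 Z') (Zer S) = phi L S :=
    pr_Zs_sub hb' hLD hL hLZ (fun v hv h => (Finset.mem_filter.1 hv).2.2 h) hne' hS
  rw [← h1]
  have h2 : pr (Zs D 0 Z') (fun g => ¬ Zer S g) ≤ pr (HB D Z β) (fun g => ¬ Zer S g) := by
    refine DV.gfkg (DV.fam_Zs hb') (DV.fam_bdv (Z := (Z : Set V)) hβ fun g => mem_HB hZ) ?_ ?_
      (Set.empty_subset _) ?_ hne' hne _ (dec_zer S).not.incF.nonneg (dec_zer S).not.incF.abs
      (dec_zer S).not.incF.mono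
    · intro ξ' h1 ξ _ _ _ _ h2 v hv
      have h3 : ξ' v = 0 := h1 v hv
      show min (ξ' v) (ξ v) = 0
      rw [h3]
      exact min_eq_left (h2 v)
    · intro ξ' h1 ξ h2 _ _ _ _ v hv
      have h3 : ξ' v = 0 := h1 v (Finset.mem_coe.2 (hZZ (Finset.mem_coe.1 hv)))
      have h4 : ξ v = β v := h2 v hv
      show max (ξ' v) (ξ v) = β v
      rw [h3, h4]
      exact max_eq_right (hβ v hv)
    · intro ξ' h1 ξ _ v hv _ _
      exact h1 v (Finset.mem_coe.2 (hZZ (Finset.mem_coe.1 hv)))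
  rw [DV.pr_not hne', DV.pr_not hne] at h2
  linarith

open Classical in
/-- `g ↦ s (g - a)` on `D` -/
noncomputable def flpa (D : Finset V) (s a : ℤ) (g : V → ℤ) : V → ℤ := fun v => if v ∈ D then s * (g v - a) else 0

lemma flpa_hom {D : Finset V} {s a : ℤ} (hs : s = 1 ∨ s = -1) (ha : Even a) {g : V → ℤ} (hg : IsHom D 0 g) :
    IsHom D 0 (flpa D s a g) := by
  refine ⟨fun v hv => ?_, fun v hv => ?_, fun u hu v hv h => ?_⟩
  · simp only [flpa, if_neg hv]
  · simp only [flpa, if_pos hv]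
    have h1 := hg.par v hv
    rw [Int.even_iff] at h1 ha ⊢
    rcases hs with rfl | rfl <;> omega
  · simp only [flpa, if_pos hu, if_pos hv]
    have h1 := hg.step u hu v hv h
    rcases hs with rfl | rfl
    · rw [one_mul, one_mul, show g u - a - (g v - a) = g u - g v by ring]
      exact h1
    · rw [show -1 * (g u - a) - -1 * (g v - a) = -(g u - g v) by ring, abs_neg]
      exact h1

/-- boundary values on one side of `a` -/
lemma hb_lev {D Z L S : Finset V} {β : V → ℤ} {a : ℤ} (ha : Even a) (hZ : bdry D ⊆ Z) (hZD : Z ⊆ D)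
    (hβ : (∀ v ∈ Z, a ≤ β v) ∨ ∀ v ∈ Z, β v ≤ a)
    (hβe : ∀ v ∈ Z, Even (β v)) (hLD : L ⊆ D) (hL : BdryPar L 0) (hZL : ∀ v ∈ Z, v ∉ L) (hS : S ⊆ L) :
    pr (HB D Z β) (fun g => ∀ v ∈ S, g v = a) ≤ phi L S := by
  classical
  obtain ⟨s, hs, hpos⟩ : ∃ s : ℤ, (s = 1 ∨ s = -1) ∧ ∀ v ∈ Z, 0 ≤ s * (β v - a) := by
    rcases hβ with h | h
    · exact ⟨1, Or.inl rfl, fun v hv => by have := h v hv; linarith⟩
    · exact ⟨-1, Or.inr rfl, fun v hv => by have := h v hv; linarith⟩
  have hss : s * s = 1 := by rcases hs with rfl | rfl <;> norm_num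
  have h1 := hb_zer (β := fun v => s * (β v - a)) hZ hZD hpos (fun v hv => ((hβe v hv).sub ha).mul_left s)
    hLD hL hZL hS
  refine le_trans (le_of_eq ?_) h1
  have hinv : ∀ g, IsHom D 0 g → flpa D s (-(s * a)) (flpa D s a g) = g := by
    intro g hg
    funext v
    unfold flpa
    by_cases hv : v ∈ D
    · simp only [if_pos hv]
      have : s * (s * (g v - a) - -(s * a)) = s * s * g v := by ring
      rw [this, hss, one_mul]
    · simp only [if_neg hv]
      exact (hg.off v hv).symm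
  have hinv' : ∀ g, IsHom D 0 g → flpa D s a (flpa D s (-(s * a)) g) = g := by
    intro g hg
    funext v
    unfold flpa
    by_cases hv : v ∈ D
    · simp only [if_pos hv]
      have : s * (s * (g v - -(s * a)) - a) = s * s * g v + (s * s) * s * a - s * a := by ring
      rw [this, hss, one_mul, one_mul]
      ring
    · simp only [if_neg hv]
      exact (hg.off v hv).symm
  have hsa : Even (-(s * a)) := (ha.mul_left s).neg
  have hf : ∀ g ∈ HB D Z β, flpa D s a g ∈ HB D Z fun v => s * (β v - a) := by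
    intro g hg
    rw [mem_HB hZ] at hg ⊢
    refine ⟨flpa_hom hs ha hg.1, fun v hv => ?_⟩
    simp only [flpa, if_pos (hZD hv), hg.2 v hv]
  have hi : ∀ g ∈ HB D Z (fun v => s * (β v - a)), flpa D s (-(s * a)) g ∈ HB D Z β := by
    intro g hg
    rw [mem_HB hZ] at hg ⊢
    refine ⟨flpa_hom hs hsa hg.1, fun v hv => ?_⟩
    simp only [flpa, if_pos (hZD hv), hg.2 v hv]
    have : s * (s * (β v - a) - -(s * a)) = s * s * β v := by ring
    rw [this, hss, one_mul]
  have hcard : (HB D Z β).card = (HB D Z fun v => s * (β v - a)).card :=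
    Finset.card_nbij' (flpa D s a) (flpa D s (-(s * a))) hf hi (fun g hg => hinv g ((mem_HB hZ).1 hg).1)
      fun g hg => hinv' g ((mem_HB hZ).1 hg).1
  have hiff : ∀ g ∈ HB D Z β, (∀ v ∈ S, g v = a) ↔ Zer S (flpa D s a g) := by
    intro g _
    unfold Zer
    refine forall₂_congr fun v hv => ?_
    simp only [flpa, if_pos (hLD (hS hv))]
    rcases hs with rfl | rfl
    · constructor <;> intro h <;> linarith
    · constructor <;> intro h <;> linarith
  unfold DV.pr avg
  rw [hcard]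
  congr 1
  refine Finset.sum_nbij' (flpa D s a) (flpa D s (-(s * a))) hf hi (fun g hg => hinv g ((mem_HB hZ).1 hg).1)
    (fun g hg => hinv' g ((mem_HB hZ).1 hg).1) fun g hg => ?_
  by_cases h : ∀ v ∈ S, g v = a
  · rw [if_pos h, if_pos ((hiff g hg).1 h)]
  · rw [if_neg h, if_neg fun h2 => h ((hiff g hg).2 h2)]

/-- a patch: level, zero set, domain -/
abbrev Pt := ℤ × Finset V × Finset V

open Classical in
/-- **Patches, one after the other.** -/
theorem hb_list {D : Finset V} {a : ℤ} (ha : Even a) (l : List Pt) :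
    ∀ (Z : Finset V) (β : V → ℤ), bdry D ⊆ Z → Z ⊆ D → (∀ v ∈ Z, β v = 0 ∨ β v = a) →
      (∀ p ∈ l, (p.1 = 0 ∨ p.1 = a) ∧ p.2.1 ⊆ p.2.2 ∧ p.2.2 ⊆ D ∧ BdryPar p.2.2 0 ∧ ∀ v ∈ Z, v ∉ p.2.2) →
      l.Pairwise (fun p q => Disjoint p.2.2 q.2.2) →
      (((HB D Z β).filter fun g => ∀ p ∈ l, ∀ v ∈ p.2.1, g v = p.1).card : ℝ) ≤
        (l.map fun p => phi p.2.2 p.2.1).prod * ((HB D Z β).card : ℝ) := by
  induction l with
  | nil =>
    intro Z β _ _ _ _ _
    simp only [List.map_nil, List.prod_nil, one_mul, List.not_mem_nil, false_implies, implies_true,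
      Finset.filter_true]
    exact le_rfl
  | cons p l ih =>
    intro Z β hZ hZD hβ hp hl
    obtain ⟨hpa, hpS, hpD, hpL, hpZ⟩ := hp p List.mem_cons_self
    rw [List.pairwise_cons] at hl
    set β' : V → ℤ := fun v => if v ∈ p.2.1 then p.1 else β v with hβ'
    have hZ' : bdry D ⊆ Z ∪ p.2.1 := hZ.trans Finset.subset_union_left
    have e1 : (HB D Z β).filter (fun g => ∀ q ∈ p :: l, ∀ v ∈ q.2.1, g v = q.1) =
        (HB D (Z ∪ p.2.1) β').filter fun g => ∀ q ∈ l, ∀ v ∈ q.2.1, g v = q.1 := by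
      ext g
      rw [Finset.mem_filter, Finset.mem_filter, mem_HB hZ, mem_HB hZ', List.forall_mem_cons]
      constructor
      · rintro ⟨⟨h1, h2⟩, h3, h4⟩
        refine ⟨⟨h1, fun v hv => ?_⟩, h4⟩
        by_cases hvp : v ∈ p.2.1
        · simp only [hβ', if_pos hvp]
          exact h3 v hvp
        · simp only [hβ', if_neg hvp]
          exact h2 v ((Finset.mem_union.1 hv).resolve_right hvp)
      · rintro ⟨⟨h1, h2⟩, h4⟩
        refine ⟨⟨h1, fun v hv => ?_⟩, fun v hv => ?_, h4⟩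
        · have h5 := h2 v (Finset.mem_union_left _ hv)
          simp only [hβ', if_neg fun h6 => hpZ v hv (hpS h6)] at h5
          exact h5
        · have h5 := h2 v (Finset.mem_union_right _ hv)
          simp only [hβ', if_pos hv] at h5
          exact h5
    have e2 : (HB D (Z ∪ p.2.1) β') = (HB D Z β).filter fun g => ∀ v ∈ p.2.1, g v = p.1 := by
      ext g
      rw [Finset.mem_filter, mem_HB hZ, mem_HB hZ']
      constructor
      · rintro ⟨h1, h2⟩
        refine ⟨⟨h1, fun v hv => ?_⟩, fun v hv => ?_⟩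
        · have h5 := h2 v (Finset.mem_union_left _ hv)
          simp only [hβ', if_neg fun h6 => hpZ v hv (hpS h6)] at h5
          exact h5
        · have h5 := h2 v (Finset.mem_union_right _ hv)
          simp only [hβ', if_pos hv] at h5
          exact h5
      · rintro ⟨⟨h1, h2⟩, h3⟩
        refine ⟨h1, fun v hv => ?_⟩
        by_cases hvp : v ∈ p.2.1
        · simp only [hβ', if_pos hvp]
          exact h3 v hvp
        · simp only [hβ', if_neg hvp]
          exact h2 v ((Finset.mem_union.1 hv).resolve_right hvp)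
    rw [e1]
    have h1 := ih (Z ∪ p.2.1) β' hZ' (Finset.union_subset hZD (hpS.trans hpD)) (fun v hv => by
      by_cases hvp : v ∈ p.2.1
      · simp only [hβ', if_pos hvp]
        exact hpa
      · simp only [hβ', if_neg hvp]
        exact hβ v ((Finset.mem_union.1 hv).resolve_right hvp)) (fun q hq => by
      obtain ⟨q1, q2, q3, q4, q5⟩ := hp q (List.mem_cons_of_mem _ hq)
      refine ⟨q1, q2, q3, q4, fun v hv => ?_⟩
      rcases Finset.mem_union.1 hv with hv | hv
      · exact q5 v hv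
      · exact fun h => Finset.disjoint_left.1 (hl.1 q hq) (hpS hv) h) hl.2
    have hprod : 0 ≤ (l.map fun p => phi p.2.2 p.2.1).prod :=
      List.prod_nonneg fun x hx => by
        obtain ⟨q, _, rfl⟩ := List.mem_map.1 hx
        exact phi_nonneg _ _
    refine h1.trans ?_
    rw [List.map_cons, List.prod_cons, mul_comm (phi p.2.2 p.2.1), mul_assoc]
    refine mul_le_mul_of_nonneg_left ?_ hprod
    rw [e2]
    have h2 := hb_lev (β := β) (a := p.1) (by rcases hpa with h | h <;> rw [h]; exacts [Even.zero, ha]) hZ hZD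
      (by
        rcases le_total 0 a with h0 | h0 <;> rcases hpa with h | h <;> rw [h]
        · left; intro v hv; rcases hβ v hv with h | h <;> rw [h]; exact h0
        · right; intro v hv; rcases hβ v hv with h | h <;> rw [h]; exact h0
        · right; intro v hv; rcases hβ v hv with h | h <;> rw [h]; exact h0
        · left; intro v hv; rcases hβ v hv with h | h <;> rw [h]; exact h0)
      (fun v hv => by rcases hβ v hv with h | h <;> rw [h]; exacts [Even.zero, ha]) hpD hpL hpZ hpS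
    rw [DV.pr_eq] at h2
    rcases Nat.eq_zero_or_pos (HB D Z β).card with h3 | h3
    · rw [Finset.card_eq_zero] at h3
      rw [h3]
      simp
    · have h4 : (0 : ℝ) < ((HB D Z β).card : ℝ) := by exact_mod_cast h3
      rwa [div_le_iff₀ h4] at h2

end PL
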