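import Pool.Agent.Helper27.PL.Q1
import Pool.Agent.Helper94.BR.Pf
import Pool.Agent.Helper33.DV.Pd

/-!
# Block PL2 (project DV, MP_973bc8_pr), Q2: two pins of different levels and deterministic zero sets

`Sep X Y g` and `Sep X' Y' (lev k g)`: blocks of the levels `0` and `2 k`.  Given the revealed clusters the heights have boundary
values in `{0, 2 k}`, so `Q1.hb_list` applies.
-/

open Finset

namespace PL

open RP4 (V Adj BdryPar Om Zs avg bdry IsHom par)
open DV (pr glu nb rv Con nz Sep lev)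

lemma nb_disj {A B : Set V} (h : Disjoint (nb A) B) : Disjoint A (nb B) := by
  rw [Set.disjoint_left] at h ⊢
  rintro v hv (hb | ⟨u, hu, huv⟩)
  · exact h (DV.sub_nb _ hv) hb
  · exact h (Or.inr ⟨v, hv, DV.adj_symm huv⟩) hu

lemma nb_disj' {A B : Set V} (h : Disjoint A (nb B)) : Disjoint (nb A) B := by
  rw [Set.disjoint_left] at h ⊢
  rintro v (hv | ⟨u, hu, huv⟩) hb
  · exact h hv (DV.sub_nb _ hb)
  · exact h hu (Or.inr ⟨v, hb, DV.adj_symm huv⟩)

section fib

variable {D : Finset V} {X Y X' Y' R R' : Set V} {k : ℤ}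

open Classical in
/-- the configurations with revealed sets `R` and `R'` -/
noncomputable def Fib (D : Finset V) (X X' : Set V) (k : ℤ) (R R' : Set V) : Finset (V → ℤ) :=
  (Om D).filter fun g => rv X g = R ∧ rv X' (lev k g) = R'

open Classical in
/-- the boundary set -/
noncomputable def ZF2 (D : Finset V) (R R' : Set V) : Finset V :=
  bdry D ∪ D.filter fun v => (v ∈ nb R ∨ v ∈ nb R') ∧ Even (par v)

open Classical in
/-- the boundary values -/
noncomputable def bv (k : ℤ) (R' : Set V) : V → ℤ := fun v => if v ∈ nb R' then 2 * k else 0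

lemma mem_ZF2 {v : V} : v ∈ ZF2 D R R' ↔ v ∈ bdry D ∨ (v ∈ D ∧ (v ∈ nb R ∨ v ∈ nb R') ∧ Even (par v)) := by
  classical
  unfold ZF2
  rw [Finset.mem_union, Finset.mem_filter]

lemma adj_par_of {u v : V} (h : Adj u v) : Even (par v) ↔ ¬ Even (par u) := by
  have := RP4.A02_adj h
  rw [Int.even_iff, Int.even_iff]
  omega

/-- facts on a configuration of the fiber -/
lemma fib_facts {g : V → ℤ} (hg : g ∈ Fib D X X' k R R') (hRD : nb R ⊆ (D : Set V)) (hRD' : nb R' ⊆ (D : Set V)) :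
    IsHom D 0 g ∧ (∀ v ∈ bdry D, g v = 0) ∧ (∀ v ∈ nb R, v ∉ R → g v = 0 ∧ Even (par v)) ∧
      (∀ v ∈ nb R', v ∉ R' → g v = 2 * k ∧ Even (par v)) := by
  classical
  obtain ⟨h1, h2, h3⟩ := Finset.mem_filter.1 hg
  obtain ⟨h4, h5⟩ := RP4.mem_Om.1 h1
  refine ⟨h4, h5, fun v hv hvR => ?_, fun v hv hvR => ?_⟩
  · have h0 : g v = 0 := by
      rcases hv with hv | ⟨u, hu, huv⟩
      · exact absurd hv hvR
      · rw [← h2] at hu hvR
        exact DV.rv_zero hu huv hvR
    refine ⟨h0, ?_⟩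
    have h6 := h4.par v (Finset.mem_coe.1 (hRD hv))
    rw [h0] at h6
    rw [Int.even_iff] at h6 ⊢
    omega
  · have h0 : lev k g v = 0 := by
      rcases hv with hv | ⟨u, hu, huv⟩
      · exact absurd hv hvR
      · rw [← h3] at hu hvR
        exact DV.rv_zero hu huv hvR
    have h1 : g v = 2 * k := by
      unfold lev at h0
      linarith
    refine ⟨h1, ?_⟩
    have h6 := h4.par v (Finset.mem_coe.1 (hRD' hv))
    rw [h1] at h6
    rw [Int.even_iff] at h6 ⊢
    omega

/-- gluing of two height functions along `R ∪ R'` -/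
lemma glue_hom {g g' : V → ℤ} (hg : IsHom D 0 g) (hg' : IsHom D 0 g') {Q : Set V}
    (h : ∀ v ∈ nb Q, v ∉ Q → g v = g' v) : IsHom D 0 (glu Q g g') := by
  have key : ∀ v ∈ nb Q, glu Q g g' v = g v := by
    intro v hv
    by_cases h1 : v ∈ Q
    · exact DV.glu_in h1
    · rw [DV.glu_out h1, h v hv h1]
  refine ⟨fun v hv => ?_, fun v hv => ?_, fun a ha b hb hab => ?_⟩
  · by_cases h : v ∈ Q
    · rw [DV.glu_in h]
      exact hg.off v hv
    · rw [DV.glu_out h]
      exact hg'.off v hv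
  · by_cases h : v ∈ Q
    · rw [DV.glu_in h]
      exact hg.par v hv
    · rw [DV.glu_out h]
      exact hg'.par v hv
  · by_cases h1 : a ∈ Q
    · rw [key a (DV.sub_nb _ h1), key b (Or.inr ⟨a, h1, hab⟩)]
      exact hg.step a ha b hb hab
    · by_cases h2 : b ∈ Q
      · rw [key a (Or.inr ⟨b, h2, DV.adj_symm hab⟩), key b (DV.sub_nb _ h2)]
        exact hg.step a ha b hb hab
      · rw [DV.glu_out h1, DV.glu_out h2]
        exact hg'.step a ha b hb hab

/-- **Two level Markov property.** -/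
theorem fib_markov (hRD : nb R ⊆ ((D \ bdry D : Finset V) : Set V))
    (hRD' : nb R' ⊆ ((D \ bdry D : Finset V) : Set V)) (hRR : Disjoint (nb R) (nb R'))
    (hne : (Fib D X X' k R R').Nonempty) {F : (V → ℤ) → ℝ}
    (hF : ∀ g g' : V → ℤ, (∀ v, v ∉ R ∪ R' → g v = g' v) → F g = F g') :
    avg (Fib D X X' k R R') F = avg (HB D (ZF2 D R R') (bv k R')) F := by
  classical
  have hD0 : ∀ v ∈ nb R, v ∈ D ∧ v ∉ bdry D := fun v hv => by
    have := Finset.mem_coe.1 (hRD hv)
    rwa [Finset.mem_sdiff] at this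
  have hD1 : ∀ v ∈ nb R', v ∈ D ∧ v ∉ bdry D := fun v hv => by
    have := Finset.mem_coe.1 (hRD' hv)
    rwa [Finset.mem_sdiff] at this
  have hsD : nb R ⊆ (D : Set V) := fun v hv => Finset.mem_coe.2 (hD0 v hv).1
  have hsD' : nb R' ⊆ (D : Set V) := fun v hv => Finset.mem_coe.2 (hD1 v hv).1
  have hZ : bdry D ⊆ ZF2 D R R' := Finset.subset_union_left
  have hnn : ∀ v ∈ nb R, v ∉ nb R' := fun v h1 h2 => Set.disjoint_left.1 hRR h1 h2
  have hnb : ∀ v, v ∈ nb (R ∪ R') → v ∈ nb R ∨ v ∈ nb R' := by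
    rintro v ((h | h) | ⟨u, (h | h), huv⟩)
    · exact Or.inl (DV.sub_nb _ h)
    · exact Or.inr (DV.sub_nb _ h)
    · exact Or.inl (Or.inr ⟨u, h, huv⟩)
    · exact Or.inr (Or.inr ⟨u, h, huv⟩)
  -- values of a function of the second kind
  have hB : ∀ g ∈ HB D (ZF2 D R R') (bv k R'), IsHom D 0 g ∧ (∀ v ∈ bdry D, g v = 0) ∧
      (∀ v ∈ nb R, Even (par v) → g v = 0) ∧ ∀ v ∈ nb R', Even (par v) → g v = 2 * k := by
    intro g hg
    obtain ⟨h1, h2⟩ := (mem_HB hZ).1 hg
    refine ⟨h1, fun v hv => ?_, fun v hv he => ?_, fun v hv he => ?_⟩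
    · rw [h2 v (hZ hv)]
      unfold bv
      rw [if_neg fun h3 => (hD1 v h3).2 hv]
    · rw [h2 v (mem_ZF2.2 (Or.inr ⟨(hD0 v hv).1, Or.inl hv, he⟩))]
      unfold bv
      rw [if_neg (hnn v hv)]
    · rw [h2 v (mem_ZF2.2 (Or.inr ⟨(hD1 v hv).1, Or.inr hv, he⟩))]
      unfold bv
      rw [if_pos hv]
  -- both kinds agree next to the revealed sets
  have hag : ∀ g ∈ Fib D X X' k R R', ∀ g' ∈ HB D (ZF2 D R R') (bv k R'), ∀ v ∈ nb (R ∪ R'),
      v ∉ R ∪ R' → g v = g' v := by
    intro g hg g' hg' v hv hvn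
    obtain ⟨_, _, f3, f4⟩ := fib_facts hg hsD hsD'
    obtain ⟨_, _, b3, b4⟩ := hB g' hg'
    rcases hnb v hv with h | h
    · obtain ⟨h1, h2⟩ := f3 v h fun h5 => hvn (Or.inl h5)
      rw [h1, b3 v h h2]
    · obtain ⟨h1, h2⟩ := f4 v h fun h5 => hvn (Or.inr h5)
      rw [h1, b4 v h h2]
  have hne' : (HB D (ZF2 D R R') (bv k R')).Nonempty := by
    obtain ⟨g, hg⟩ := hne
    obtain ⟨f1, f2, f3, f4⟩ := fib_facts hg hsD hsD'
    -- `0` on `R`, `2 k` on `R'` (even sites), `g` elsewhere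
    set q : V → ℤ := fun v => if v ∈ R then (if Even (par v) then 0 else 1) else
      if v ∈ R' then (if Even (par v) then 2 * k else 2 * k + 1) else g v with hq
    have q1 : ∀ v ∈ nb R, q v = if Even (par v) then 0 else 1 := by
      intro v hv
      by_cases h : v ∈ R
      · simp only [hq, if_pos h]
      · have h' : v ∉ R' := fun h2 => hnn v hv (DV.sub_nb _ h2)
        obtain ⟨g1, g2⟩ := f3 v hv h
        simp only [hq, if_neg h, if_neg h', if_pos g2]
        exact g1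
    have q2 : ∀ v ∈ nb R', q v = if Even (par v) then 2 * k else 2 * k + 1 := by
      intro v hv
      have h0 : v ∉ R := fun h2 => hnn v (DV.sub_nb _ h2) hv
      by_cases h : v ∈ R'
      · simp only [hq, if_neg h0, if_pos h]
      · obtain ⟨g1, g2⟩ := f4 v hv h
        simp only [hq, if_neg h0, if_neg h, if_pos g2]
        exact g1
    have q3 : ∀ v, v ∉ R → v ∉ R' → q v = g v := fun v h h' => by simp only [hq, if_neg h, if_neg h']
    have hstep : ∀ a ∈ D, ∀ b ∈ D, Adj a b → |q a - q b| = 1 := by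
      intro a ha b hb hab
      have hpp := adj_par_of hab
      by_cases hc : a ∈ nb R ∧ b ∈ nb R
      · rw [q1 a hc.1, q1 b hc.2]
        by_cases he : Even (par a)
        · rw [if_pos he, if_neg fun h => (hpp.1 h) he]
          norm_num
        · rw [if_neg he, if_pos (hpp.2 he)]
          norm_num
      · by_cases hc' : a ∈ nb R' ∧ b ∈ nb R'
        · rw [q2 a hc'.1, q2 b hc'.2]
          by_cases he : Even (par a)
          · rw [if_pos he, if_neg fun h => (hpp.1 h) he]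
            norm_num
          · rw [if_neg he, if_pos (hpp.2 he)]
            norm_num
        · have a1 : a ∉ R := fun h => hc ⟨DV.sub_nb _ h, Or.inr ⟨a, h, hab⟩⟩
          have a2 : b ∉ R := fun h => hc ⟨Or.inr ⟨b, h, DV.adj_symm hab⟩, DV.sub_nb _ h⟩
          have a3 : a ∉ R' := fun h => hc' ⟨DV.sub_nb _ h, Or.inr ⟨a, h, hab⟩⟩
          have a4 : b ∉ R' := fun h => hc' ⟨Or.inr ⟨b, h, DV.adj_symm hab⟩, DV.sub_nb _ h⟩
          rw [q3 a a1 a3, q3 b a2 a4]
          exact f1.step a ha b hb hab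
    refine ⟨q, (mem_HB hZ).2 ⟨⟨fun v hv => ?_, fun v hv => ?_, hstep⟩, fun v hv => ?_⟩⟩
    · rw [q3 v (fun h => hv (hD0 v (DV.sub_nb _ h)).1) fun h => hv (hD1 v (DV.sub_nb _ h)).1]
      exact f1.off v hv
    · by_cases h : v ∈ R
      · rw [q1 v (DV.sub_nb _ h)]
        split_ifs with he
        · rw [Int.even_iff] at he ⊢
          omega
        · rw [Int.even_iff] at he ⊢
          omega
      · by_cases h' : v ∈ R'
        · rw [q2 v (DV.sub_nb _ h')]
          split_ifs with he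
          · rw [Int.even_iff] at he ⊢
            omega
          · rw [Int.even_iff] at he ⊢
            omega
        · rw [q3 v h h']
          exact f1.par v hv
    · unfold bv
      rcases mem_ZF2.1 hv with h | ⟨h1, h2, h3⟩
      · rw [if_neg fun h3 => (hD1 v h3).2 h, q3 v (fun h2 => (hD0 v (DV.sub_nb _ h2)).2 h)
          fun h2 => (hD1 v (DV.sub_nb _ h2)).2 h]
        exact f2 v h
      · by_cases h4 : v ∈ nb R'
        · rw [if_pos h4, q2 v h4, if_pos h3]
        · rw [if_neg h4, q1 v (h2.resolve_right h4), if_pos h3]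
  refine DV.avg_swap (R ∪ R') hne hne' ?_ ?_ hF
  · intro g hg g' hg'
    obtain ⟨f1, f2, f3, f4⟩ := fib_facts hg hsD hsD'
    obtain ⟨b1, b2, b3, b4⟩ := hB g' hg'
    obtain ⟨_, h2, h3⟩ := Finset.mem_filter.1 hg
    have hag' := hag g hg g' hg'
    have hG := glue_hom f1 b1 hag'
    have hval : ∀ v ∈ nb (R ∪ R'), glu (R ∪ R') g g' v = g v := by
      intro v hv
      by_cases h1 : v ∈ R ∪ R'
      · exact DV.glu_in h1
      · rw [DV.glu_out h1, hag' v hv h1]
    refine Finset.mem_filter.2 ⟨RP4.mem_Om.2 ⟨hG, fun v hv => ?_⟩, ?_, ?_⟩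
    · by_cases h : v ∈ R ∪ R'
      · rw [DV.glu_in h]
        exact f2 v hv
      · rw [DV.glu_out h]
        exact b2 v hv
    · have e : glu (R ∪ R') g g' = glu R g (glu (R ∪ R') g g') := by
        funext v
        by_cases h : v ∈ R
        · rw [DV.glu_in h, DV.glu_in (Or.inl h)]
        · rw [DV.glu_out h]
      rw [e]
      refine DV.rv_glu h2 fun v hv hvR => ?_
      rw [hval v (DV.nb_mono Set.subset_union_left hv)]
      exact (f3 v hv hvR).1
    · have e : lev k (glu (R ∪ R') g g') = glu R' (lev k g) (lev k (glu (R ∪ R') g g')) := by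
        funext v
        by_cases h : v ∈ R'
        · rw [DV.glu_in h]
          unfold lev
          rw [DV.glu_in (Or.inr h)]
        · rw [DV.glu_out h]
      rw [e]
      refine DV.rv_glu h3 fun v hv hvR => ?_
      unfold lev
      rw [hval v (DV.nb_mono Set.subset_union_right hv), (f4 v hv hvR).1]
      ring
  · intro g hg g' hg'
    obtain ⟨f1, f2, f3, f4⟩ := fib_facts hg hsD hsD'
    obtain ⟨b1, b2, b3, b4⟩ := hB g' hg'
    have hag' := hag g hg g' hg'
    refine (mem_HB hZ).2 ⟨glue_hom b1 f1 fun v hv h => (hag' v hv h).symm, fun v hv => ?_⟩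
    by_cases h : v ∈ R ∪ R'
    · rw [DV.glu_in h]
      exact ((mem_HB hZ).1 hg').2 v hv
    · rw [DV.glu_out h]
      unfold bv
      rcases mem_ZF2.1 hv with h1 | ⟨h1, h2, h3⟩
      · rw [if_neg fun h3 => (hD1 v h3).2 h1]
        exact f2 v h1
      · by_cases h4 : v ∈ nb R'
        · rw [if_pos h4]
          exact (f4 v h4 fun h5 => h (Or.inr h5)).1
        · rw [if_neg h4]
          exact (f3 v (h2.resolve_right h4) fun h5 => h (Or.inl h5)).1

end fib

/-- conditions on a list of patches relative to two pins -/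
structure POk (D : Finset V) (Y Y' : Set V) (a : ℤ) (l : List Pt) : Prop where
  lev : ∀ p ∈ l, p.1 = 0 ∨ p.1 = a
  sub : ∀ p ∈ l, p.2.1 ⊆ p.2.2
  dom : ∀ p ∈ l, p.2.2 ⊆ D \ bdry D
  par : ∀ p ∈ l, BdryPar p.2.2 0
  off : ∀ p ∈ l, Disjoint (p.2.2 : Set V) (nb Yᶜ)
  off' : ∀ p ∈ l, Disjoint (p.2.2 : Set V) (nb Y'ᶜ)
  dis : l.Pairwise (fun p q => Disjoint p.2.2 q.2.2)

open Classical in
/-- **Two pins and patches.** -/
theorem two_pins {D : Finset V} {X Y X' Y' : Set V} {k : ℤ} (hXY : Disjoint X (nb Y))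
    (hXY' : Disjoint X' (nb Y')) (hY : nb Yᶜ ⊆ ((D \ bdry D : Finset V) : Set V))
    (hY' : nb Y'ᶜ ⊆ ((D \ bdry D : Finset V) : Set V)) (hYY : Disjoint (nb Yᶜ) (nb Y'ᶜ)) {l : List Pt}
    (hl : POk D Y Y' (2 * k) l) :
    (((Om D).filter fun g => (Sep X Y g ∧ Sep X' Y' (lev k g)) ∧ ∀ p ∈ l, ∀ v ∈ p.2.1, g v = p.1).card : ℝ) ≤
      (l.map fun p => phi p.2.2 p.2.1).prod *
        (((Om D).filter fun g => Sep X Y g ∧ Sep X' Y' (lev k g)).card : ℝ) := by
  set T := (Om D).filter fun g => Sep X Y g ∧ Sep X' Y' (lev k g) with hT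
  set c := (l.map fun p => phi p.2.2 p.2.1).prod with hc
  set E : (V → ℤ) → Prop := fun g => ∀ p ∈ l, ∀ v ∈ p.2.1, g v = p.1 with hE
  have e1 : ((Om D).filter fun g => (Sep X Y g ∧ Sep X' Y' (lev k g)) ∧ E g) = T.filter E := by
    rw [hT, Finset.filter_filter]
  have e2 : ((T.filter E).card : ℝ) = ∑ g ∈ T, if E g then (1 : ℝ) else 0 := by
    rw [Finset.sum_ite, Finset.sum_const_zero, add_zero, Finset.sum_const, nsmul_eq_mul, mul_one]
  have e3 : c * (T.card : ℝ) = ∑ g ∈ T, c * 1 := by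
    rw [Finset.sum_const, nsmul_eq_mul, mul_one, mul_comm]
  rw [e1, e2, e3]
  set ρ : (V → ℤ) → Set V × Set V := fun g => (rv X g, rv X' (lev k g)) with hρ
  rw [← Finset.sum_fiberwise_of_maps_to (s := T) (t := T.image ρ) (g := ρ)
    (fun g hg => Finset.mem_image_of_mem _ hg) fun g => if E g then (1 : ℝ) else 0,
    ← Finset.sum_fiberwise_of_maps_to (s := T) (t := T.image ρ) (g := ρ)
    (fun g hg => Finset.mem_image_of_mem _ hg) fun g => c * 1]
  refine Finset.sum_le_sum fun RR hRR => ?_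
  obtain ⟨g₀, hg₀, hR₀⟩ := Finset.mem_image.1 hRR
  obtain ⟨R, R'⟩ := RR
  have hR1 : rv X g₀ = R := congrArg Prod.fst hR₀
  have hR2 : rv X' (lev k g₀) = R' := congrArg Prod.snd hR₀
  obtain ⟨hgO, hgs, hgs'⟩ := Finset.mem_filter.1 hg₀
  have hRY : Disjoint R (nb Y) := hR1 ▸ (DV.sep_iff hXY).1 hgs
  have hRY' : Disjoint R' (nb Y') := hR2 ▸ (DV.sep_iff hXY').1 hgs'
  have hnR : nb R ⊆ Yᶜ := fun v hv h => Set.disjoint_left.1 (nb_disj' hRY) hv h
  have hnR' : nb R' ⊆ Y'ᶜ := fun v hv h => Set.disjoint_left.1 (nb_disj' hRY') hv h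
  have hfib : T.filter (fun g => ρ g = (R, R')) = Fib D X X' k R R' := by
    ext g
    unfold Fib
    rw [hT, Finset.mem_filter, Finset.mem_filter, Finset.mem_filter]
    constructor
    · rintro ⟨⟨h1, -⟩, h2⟩
      exact ⟨h1, congrArg Prod.fst h2, congrArg Prod.snd h2⟩
    · rintro ⟨h1, h2, h3⟩
      refine ⟨⟨h1, (DV.sep_iff hXY).2 (by rw [h2]; exact hRY), (DV.sep_iff hXY').2 (by rw [h3]; exact hRY')⟩, ?_⟩
      simp only [hρ, h2, h3]
  rw [hfib]
  have hne : (Fib D X X' k R R').Nonempty := ⟨g₀, by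
    rw [← hfib]
    exact Finset.mem_filter.2 ⟨hg₀, hR₀⟩⟩
  have hnD : nb R ⊆ ((D \ bdry D : Finset V) : Set V) := hnR.trans ((DV.sub_nb _).trans hY)
  have hnD' : nb R' ⊆ ((D \ bdry D : Finset V) : Set V) := hnR'.trans ((DV.sub_nb _).trans hY')
  have hdd : Disjoint (nb R) (nb R') := by
    rw [Set.disjoint_left]
    intro v h1 h2
    exact Set.disjoint_left.1 hYY (DV.sub_nb _ (hnR h1)) (DV.sub_nb _ (hnR' h2))
  have hm := fib_markov hnD hnD' hdd hne (F := fun g => if E g then (1 : ℝ) else 0) fun g g' h => by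
    have : E g ↔ E g' := by
      refine forall₂_congr fun p hp => forall₂_congr fun v hv => ?_
      rw [h v fun hv' => ?_]
      have hvL : v ∈ (p.2.2 : Set V) := Finset.mem_coe.2 (hl.sub p hp hv)
      rcases hv' with h1 | h1
      · exact Set.disjoint_left.1 (hl.off p hp) hvL (DV.sub_nb _ (hnR (DV.sub_nb _ h1)))
      · exact Set.disjoint_left.1 (hl.off' p hp) hvL (DV.sub_nb _ (hnR' (DV.sub_nb _ h1)))
    simp only [this]
  have hZ : bdry D ⊆ ZF2 D R R' := Finset.subset_union_left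
  have hZD : ZF2 D R R' ⊆ D := by
    intro v hv
    rcases mem_ZF2.1 hv with h | h
    · exact RP4.bdry_subset D h
    · exact h.1
  have hlist := hb_list (D := D) (a := 2 * k) (even_two_mul k) l (ZF2 D R R') (bv k R') hZ hZD
    (fun v _ => by
      unfold bv
      split_ifs
      · exact Or.inr rfl
      · exact Or.inl rfl)
    (fun p hp => by
      refine ⟨hl.lev p hp, hl.sub p hp, (hl.dom p hp).trans Finset.sdiff_subset, hl.par p hp, fun v hv hvL => ?_⟩
      have hvL' : v ∈ (p.2.2 : Set V) := Finset.mem_coe.2 hvL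
      rcases mem_ZF2.1 hv with h | ⟨_, h | h, _⟩
      · exact (Finset.mem_sdiff.1 (hl.dom p hp hvL)).2 h
      · exact Set.disjoint_left.1 (hl.off p hp) hvL' (DV.sub_nb _ (hnR h))
      · exact Set.disjoint_left.1 (hl.off' p hp) hvL' (DV.sub_nb _ (hnR' h)))
    hl.dis
  have hc0 : (0 : ℝ) < (Fib D X X' k R R').card := by exact_mod_cast hne.card_pos
  have h5 : avg (Fib D X X' k R R') (fun g => if E g then (1 : ℝ) else 0) ≤ c := by
    rw [hm]
    have h6 : (0 : ℝ) ≤ c := by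
      rw [hc]
      exact List.prod_nonneg fun x hx => by
        obtain ⟨q, _, rfl⟩ := List.mem_map.1 hx
        exact phi_nonneg _ _
    rcases Nat.eq_zero_or_pos (HB D (ZF2 D R R') (bv k R')).card with h7 | h7
    · unfold avg
      rw [h7, Nat.cast_zero, div_zero]
      exact h6
    · have h8 : (0 : ℝ) < ((HB D (ZF2 D R R') (bv k R')).card : ℝ) := by exact_mod_cast h7
      unfold avg
      rw [div_le_iff₀ h8, Finset.sum_ite, Finset.sum_const_zero, add_zero, Finset.sum_const, nsmul_eq_mul, mul_one]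
      exact hlist
  unfold avg at h5
  rw [div_le_iff₀ hc0] at h5
  refine h5.trans (le_of_eq ?_)
  rw [Finset.sum_const, nsmul_eq_mul, mul_one, mul_comm]

end PL
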