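import Pool.Agent.Helper27.PL.Q2
import Pool.Agent.Helper27.PL.P5
import Pool.Agent.Helper94.BR.Mo

/-!
# Block PL2 (project DV, MP_973bc8_pr), Q3: pins with deterministic zero sets

`PP`: a pin `Sep X Y` and patches `(S, L)`; its weight is `1(Sep X Y) * prod 1(h = 0 on S) / phi L S`.
-/

open Finset Filter Topology ComplexConjugate

namespace PL

open RP4 (V Adj BdryPar Om Zs avg bdry IsHom par Deloc dom)
open GF (Pl ell bx)
open GF.Lat (ld lref DirZ dr ld_lref lref_lref)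
open DV (pr glu nb rv Con nz Sep lev ic AL Pn per muP Mr PR GH Phs)

/-- a pin with patches -/
structure PP where
  /-- inner set of the pin -/
  X : Set V
  /-- outer set of the pin -/
  Y : Set V
  /-- zero sets and domains -/
  l : List (Finset V × Finset V)

open Classical in
/-- the weight of one patch -/
noncomputable def w1 (p : Finset V × Finset V) (g : V → ℤ) : ℝ := if Zer p.1 g then (phi p.2 p.1)⁻¹ else 0

/-- the weight of the patches -/
noncomputable def wl (l : List (Finset V × Finset V)) (g : V → ℤ) : ℝ := (l.map fun p => w1 p g).prod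

namespace PP

/-- the indicator of the pin -/
noncomputable def pin (P : PP) : (V → ℤ) → ℝ := ic (Sep P.X P.Y)

/-- the weight -/
noncomputable def wt (P : PP) (g : V → ℤ) : ℝ := P.pin g * wl P.l g

/-- conditions on a pin with patches -/
structure Good (P : PP) : Prop where
  xy : Disjoint P.X (nb P.Y)
  fin : P.Yᶜ.Finite
  sub : ∀ p ∈ P.l, p.1 ⊆ p.2
  par : ∀ p ∈ P.l, BdryPar p.2 0
  off : ∀ p ∈ P.l, Disjoint (p.2 : Set V) (nb P.Yᶜ)
  dis : P.l.Pairwise (fun p q => Disjoint p.2 q.2)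

/-- two pins with patches far from each other -/
structure Sepd (P P' : PP) : Prop where
  yy : Disjoint (nb P.Yᶜ) (nb P'.Yᶜ)
  ly : ∀ p ∈ P.l, Disjoint (p.2 : Set V) (nb P'.Yᶜ)
  yl : ∀ p ∈ P'.l, Disjoint (p.2 : Set V) (nb P.Yᶜ)
  ll : ∀ p ∈ P.l, ∀ q ∈ P'.l, Disjoint p.2 q.2

/-- the sites of a pin with patches -/
def sites (P : PP) : Set V := P.Yᶜ ∪ {v | ∃ p ∈ P.l, v ∈ p.2}

end PP

lemma w1_nonneg (p : Finset V × Finset V) (g : V → ℤ) : 0 ≤ w1 p g := by
  unfold w1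
  split_ifs
  · exact inv_nonneg.2 (phi_nonneg _ _)
  · exact le_rfl

lemma wl_nonneg (l : List (Finset V × Finset V)) (g : V → ℤ) : 0 ≤ wl l g :=
  List.prod_nonneg fun x hx => by
    obtain ⟨q, _, rfl⟩ := List.mem_map.1 hx
    exact w1_nonneg _ _

lemma wl_append (l l' : List (Finset V × Finset V)) (g : V → ℤ) : wl (l ++ l') g = wl l g * wl l' g := by
  unfold wl
  rw [List.map_append, List.prod_append]

open Classical in
lemma wl_eq (l : List (Finset V × Finset V)) (g : V → ℤ) :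
    wl l g = (l.map fun p => (phi p.2 p.1)⁻¹).prod * if ∀ p ∈ l, Zer p.1 g then 1 else 0 := by
  induction l with
  | nil => simp [wl]
  | cons p l ih =>
    unfold wl at ih ⊢
    rw [List.map_cons, List.prod_cons, ih, List.map_cons, List.prod_cons]
    unfold w1
    have hc : (∀ q ∈ p :: l, Zer q.1 g) ↔ Zer p.1 g ∧ ∀ q ∈ l, Zer q.1 g :=
      List.forall_mem_cons (p := fun q : Finset V × Finset V => Zer q.1 g)
    by_cases h1 : Zer p.1 g
    · by_cases h2 : ∀ q ∈ l, Zer q.1 g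
      · rw [if_pos h1, if_pos h2, if_pos (hc.2 ⟨h1, h2⟩), mul_one, mul_one]
      · rw [if_pos h1, if_neg h2, if_neg fun h => h2 (hc.1 h).2, mul_zero, mul_zero, mul_zero]
    · rw [if_neg h1, if_neg fun h => h1 (hc.1 h).1, zero_mul, mul_zero]

lemma ic_nonneg (E : (V → ℤ) → Prop) (g : V → ℤ) : 0 ≤ ic E g := by
  unfold DV.ic
  split_ifs <;> norm_num

lemma ic_le_one (E : (V → ℤ) → Prop) (g : V → ℤ) : ic E g ≤ 1 := by
  unfold DV.ic
  split_ifs <;> norm_num

lemma PP.pin_nonneg (P : PP) (g : V → ℤ) : 0 ≤ P.pin g := ic_nonneg _ _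

lemma PP.pin_le_one (P : PP) (g : V → ℤ) : P.pin g ≤ 1 := ic_le_one _ _

lemma PP.wt_nonneg (P : PP) (g : V → ℤ) : 0 ≤ P.wt g := mul_nonneg (P.pin_nonneg g) (wl_nonneg _ _)

lemma prod_inv_le (l : List (Finset V × Finset V)) :
    (l.map fun p => (phi p.2 p.1)⁻¹).prod * (l.map fun p => phi p.2 p.1).prod ≤ 1 := by
  induction l with
  | nil => simp
  | cons p l ih =>
    rw [List.map_cons, List.prod_cons, List.map_cons, List.prod_cons]
    have h1 : (phi p.2 p.1)⁻¹ * phi p.2 p.1 ≤ 1 := inv_mul_le_one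
    have h2 : 0 ≤ (phi p.2 p.1)⁻¹ * phi p.2 p.1 := mul_nonneg (inv_nonneg.2 (phi_nonneg _ _)) (phi_nonneg _ _)
    have h3 : 0 ≤ (l.map fun p => (phi p.2 p.1)⁻¹).prod * (l.map fun p => phi p.2 p.1).prod :=
      mul_nonneg (List.prod_nonneg fun x hx => by
        obtain ⟨q, _, rfl⟩ := List.mem_map.1 hx
        exact inv_nonneg.2 (phi_nonneg _ _)) (List.prod_nonneg fun x hx => by
        obtain ⟨q, _, rfl⟩ := List.mem_map.1 hx
        exact phi_nonneg _ _)
    calc (phi p.2 p.1)⁻¹ * (l.map fun p => (phi p.2 p.1)⁻¹).prod * (phi p.2 p.1 * (l.map fun p => phi p.2 p.1).prod)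
        = ((phi p.2 p.1)⁻¹ * phi p.2 p.1) * ((l.map fun p => (phi p.2 p.1)⁻¹).prod * (l.map fun p => phi p.2 p.1).prod) := by ring
      _ ≤ 1 * 1 := mul_le_mul h1 ih h3 zero_le_one
      _ = 1 := one_mul 1

private lemma ite_alg {A A' B B' : Prop} [Decidable A] [Decidable A'] [Decidable B] [Decidable B']
    [Decidable ((A ∧ A') ∧ B ∧ B')] (c c' : ℝ) :
    ((if A then (1 : ℝ) else 0) * (c * if B then 1 else 0)) * ((if A' then 1 else 0) * (c' * if B' then 1 else 0)) =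
      c * c' * ((if (A ∧ A') ∧ B ∧ B' then 1 else 0 : ℕ) : ℝ) := by
  by_cases a1 : A <;> by_cases a2 : A' <;> by_cases a3 : B <;> by_cases a4 : B' <;> simp [a1, a2, a3, a4]

open Classical in
/-- the finite inequality -/
theorem fin_two {D : Finset V} {P P' : PP} (hP : P.Good) (hP' : P'.Good) (hPP : P.Sepd P')
    (hD : ∀ v, v ∈ nb P.Yᶜ ∨ v ∈ nb P'.Yᶜ ∨ (∃ p ∈ P.l, v ∈ p.2) ∨ (∃ p ∈ P'.l, v ∈ p.2) → v ∈ D \ bdry D) (k : ℤ) :
    ∑ g ∈ Om D, P.wt g * P'.wt (lev k g) ≤ ∑ g ∈ Om D, P.pin g * P'.pin (lev k g) := by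
  set l : List Pt := (P.l.map fun p => ((0 : ℤ), p.1, p.2)) ++ (P'.l.map fun p => (2 * k, p.1, p.2)) with hl
  have hmem : ∀ q : Pt, q ∈ l ↔ (∃ p ∈ P.l, ((0 : ℤ), p.1, p.2) = q) ∨ ∃ p ∈ P'.l, (2 * k, p.1, p.2) = q := by
    intro q
    rw [hl, List.mem_append, List.mem_map, List.mem_map]
  have hok : POk D P.Y P'.Y (2 * k) l := by
    refine ⟨fun q hq => ?_, fun q hq => ?_, fun q hq => ?_, fun q hq => ?_, fun q hq => ?_, fun q hq => ?_, ?_⟩
    · rcases (hmem q).1 hq with ⟨p, _, rfl⟩ | ⟨p, _, rfl⟩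
      · exact Or.inl rfl
      · exact Or.inr rfl
    · rcases (hmem q).1 hq with ⟨p, hp, rfl⟩ | ⟨p, hp, rfl⟩
      · exact hP.sub p hp
      · exact hP'.sub p hp
    · rcases (hmem q).1 hq with ⟨p, hp, rfl⟩ | ⟨p, hp, rfl⟩
      · exact fun v hv => hD v (Or.inr (Or.inr (Or.inl ⟨p, hp, hv⟩)))
      · exact fun v hv => hD v (Or.inr (Or.inr (Or.inr ⟨p, hp, hv⟩)))
    · rcases (hmem q).1 hq with ⟨p, hp, rfl⟩ | ⟨p, hp, rfl⟩
      · exact hP.par p hp
      · exact hP'.par p hp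
    · rcases (hmem q).1 hq with ⟨p, hp, rfl⟩ | ⟨p, hp, rfl⟩
      · exact hP.off p hp
      · exact hPP.yl p hp
    · rcases (hmem q).1 hq with ⟨p, hp, rfl⟩ | ⟨p, hp, rfl⟩
      · exact hPP.ly p hp
      · exact hP'.off p hp
    · rw [hl, List.pairwise_append]
      refine ⟨?_, ?_, ?_⟩
      · rw [List.pairwise_map]
        exact hP.dis
      · rw [List.pairwise_map]
        exact hP'.dis
      · intro a ha b hb
        obtain ⟨p, hp, rfl⟩ := List.mem_map.1 ha
        obtain ⟨q, hq, rfl⟩ := List.mem_map.1 hb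
        exact hPP.ll p hp q hq
  have h1 := two_pins (D := D) (k := k) hP.xy hP'.xy
    (fun v hv => Finset.mem_coe.2 (hD v (Or.inl hv))) (fun v hv => Finset.mem_coe.2 (hD v (Or.inr (Or.inl hv)))) hPP.yy hok
  set c := (P.l.map fun p => (phi p.2 p.1)⁻¹).prod with hc
  set c' := (P'.l.map fun p => (phi p.2 p.1)⁻¹).prod with hc'
  have hc0 : 0 ≤ c := List.prod_nonneg fun x hx => by
    obtain ⟨q, _, rfl⟩ := List.mem_map.1 hx
    exact inv_nonneg.2 (phi_nonneg _ _)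
  have hc0' : 0 ≤ c' := List.prod_nonneg fun x hx => by
    obtain ⟨q, _, rfl⟩ := List.mem_map.1 hx
    exact inv_nonneg.2 (phi_nonneg _ _)
  have hprod : (l.map fun p => phi p.2.2 p.2.1).prod =
      (P.l.map fun p => phi p.2 p.1).prod * (P'.l.map fun p => phi p.2 p.1).prod := by
    rw [hl, List.map_append, List.prod_append, List.map_map, List.map_map]
    rfl
  have hiff : ∀ g : V → ℤ, (∀ q ∈ l, ∀ v ∈ q.2.1, g v = q.1) ↔
      (∀ p ∈ P.l, Zer p.1 g) ∧ ∀ p ∈ P'.l, Zer p.1 (lev k g) := by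
    intro g
    constructor
    · intro h
      refine ⟨fun p hp v hv => ?_, fun p hp v hv => ?_⟩
      · exact h _ ((hmem _).2 (Or.inl ⟨p, hp, rfl⟩)) v hv
      · have := h _ ((hmem _).2 (Or.inr ⟨p, hp, rfl⟩)) v hv
        unfold DV.lev
        rw [this]
        exact sub_self _
    · rintro ⟨h1, h2⟩ q hq v hv
      rcases (hmem q).1 hq with ⟨p, hp, rfl⟩ | ⟨p, hp, rfl⟩
      · exact h1 p hp v hv
      · have := h2 p hp v hv
        unfold DV.lev at this
        exact sub_eq_zero.1 this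
  have e1 : ∑ g ∈ Om D, P.wt g * P'.wt (lev k g) = c * c' *
      (((Om D).filter fun g => (Sep P.X P.Y g ∧ Sep P'.X P'.Y (lev k g)) ∧ ∀ p ∈ l, ∀ v ∈ p.2.1, g v = p.1).card : ℝ) := by
    rw [Finset.card_filter, Nat.cast_sum, Finset.mul_sum]
    refine Finset.sum_congr rfl fun g _ => ?_
    unfold PP.wt PP.pin DV.ic
    rw [wl_eq, wl_eq, ← hc, ← hc']
    simp only [hiff g]
    exact ite_alg _ _
  have e2 : ∑ g ∈ Om D, P.pin g * P'.pin (lev k g) =
      (((Om D).filter fun g => Sep P.X P.Y g ∧ Sep P'.X P'.Y (lev k g)).card : ℝ) := by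
    rw [Finset.card_filter, Nat.cast_sum]
    refine Finset.sum_congr rfl fun g _ => ?_
    unfold PP.pin DV.ic
    by_cases a1 : Sep P.X P.Y g <;> by_cases a2 : Sep P'.X P'.Y (lev k g) <;> simp [a1, a2]
  rw [e1, e2]
  refine (mul_le_mul_of_nonneg_left h1 (mul_nonneg hc0 hc0')).trans ?_
  rw [hprod]
  have h2 := prod_inv_le P.l
  have h3 := prod_inv_le P'.l
  rw [← hc] at h2
  rw [← hc'] at h3
  set n : ℝ := (((Om D).filter fun g => Sep P.X P.Y g ∧ Sep P'.X P'.Y (lev k g)).card : ℝ) with hn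
  have hn0 : 0 ≤ n := Nat.cast_nonneg _
  have h4 : 0 ≤ c' * (P'.l.map fun p => phi p.2 p.1).prod := mul_nonneg hc0' (List.prod_nonneg fun x hx => by
    obtain ⟨q, _, rfl⟩ := List.mem_map.1 hx
    exact phi_nonneg _ _)
  calc c * c' * ((P.l.map fun p => phi p.2 p.1).prod * (P'.l.map fun p => phi p.2 p.1).prod * n)
      = (c * (P.l.map fun p => phi p.2 p.1).prod) * (c' * (P'.l.map fun p => phi p.2 p.1).prod) * n := by ring
    _ ≤ 1 * 1 * n := mul_le_mul_of_nonneg_right (mul_le_mul h2 h3 h4 zero_le_one) hn0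
    _ = n := by ring

end PL
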