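import Pool.Agent.Helper27.PL.Q3

/-!
# Block PL2 (project DV, MP_973bc8_pr), Q4: the inequality for the floating measure
-/

open Finset Filter Topology ComplexConjugate

namespace PL

open RP4 (V Adj BdryPar Om Zs avg bdry IsHom par Deloc dom)
open GF (Pl ell bx)
open GF.Lat (ld lref DirZ dr ld_lref lref_lref)
open DV (pr glu nb rv Con nz Sep lev ic AL Pn per muP Mr PR GH Phs)

/-- a real observable as a complex one -/
def cR (a : (V → ℤ) → ℝ) : (V → ℤ) → ℂ := fun g => (a g : ℂ)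

lemma norm_cR {a : (V → ℤ) → ℝ} (ha : ∀ g, 0 ≤ a g) (g : V → ℤ) : ‖cR a g‖ = a g := by
  unfold cR
  rw [Complex.norm_real, Real.norm_eq_abs, abs_of_nonneg (ha g)]

lemma pl_cR {a : (V → ℤ) → ℝ} (ha : ∀ g, 0 ≤ a g) (g : V → ℤ) : pl (cR a) g = ∑ᶠ k : ℤ, a (lev k g) := by
  unfold pl
  exact finsum_congr fun k => norm_cR ha _

/-- the weight of the patches is local -/
lemma wl_loc (l : List (Finset V × Finset V)) : ∃ s : Finset V, (∀ v ∈ s, ∃ p ∈ l, v ∈ p.1) ∧
    ∀ g g' : V → ℤ, (∀ x ∈ s, g x = g' x) → wl l g = wl l g' := by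
  classical
  induction l with
  | nil => exact ⟨∅, by simp, fun g g' _ => rfl⟩
  | cons p l ih =>
    obtain ⟨s, h1, h2⟩ := ih
    refine ⟨p.1 ∪ s, fun v hv => ?_, fun g g' hg => ?_⟩
    · rcases Finset.mem_union.1 hv with h | h
      · exact ⟨p, List.mem_cons_self, h⟩
      · obtain ⟨q, hq, hvq⟩ := h1 v h
        exact ⟨q, List.mem_cons_of_mem _ hq, hvq⟩
    · have e1 : wl (p :: l) g = w1 p g * wl l g := by simp [wl]
      have e2 : wl (p :: l) g' = w1 p g' * wl l g' := by simp [wl]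
      rw [e1, e2, h2 g g' fun x hx => hg x (Finset.mem_union_right _ hx)]
      congr 1
      unfold w1
      have : Zer p.1 g ↔ Zer p.1 g' := by
        unfold Zer
        refine forall₂_congr fun v hv => ?_
        rw [hg v (Finset.mem_union_left _ hv)]
      simp only [this]

lemma PP.Good.pin_loc {P : PP} (hP : P.Good) : ∀ g g' : V → ℤ, (∀ x ∈ hP.fin.toFinset, g x = g' x) →
    P.pin g = P.pin g' := by
  intro g g' h
  exact DV.ic_congr (DV.sep_loc (DV.disj_nb.1 hP.xy) fun v hv => h v (hP.fin.mem_toFinset.2 hv))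

/-- the weight is local on its sites -/
lemma PP.Good.wt_loc {P : PP} (hP : P.Good) : ∃ s : Finset V, (∀ v ∈ s, v ∈ P.sites) ∧
    LocC s (cR P.wt) ∧ LocC s (cR P.pin) := by
  classical
  obtain ⟨s, h1, h2⟩ := wl_loc P.l
  refine ⟨hP.fin.toFinset ∪ s, fun v hv => ?_, fun g g' hg => ?_, fun g g' hg => ?_⟩
  · rcases Finset.mem_union.1 hv with h | h
    · exact Or.inl (hP.fin.mem_toFinset.1 h)
    · obtain ⟨p, hp, hvp⟩ := h1 v h
      exact Or.inr ⟨p, hp, hP.sub p hp hvp⟩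
  · unfold cR PP.wt
    rw [hP.pin_loc g g' fun x hx => hg x (Finset.mem_union_left _ hx),
      h2 g g' fun x hx => hg x (Finset.mem_union_right _ hx)]
  · unfold cR
    rw [hP.pin_loc g g' fun x hx => hg x (Finset.mem_union_left _ hx)]

lemma PP.wt_pin {P : PP} (h : PinC (cR P.pin)) : PinC (cR P.wt) := by
  obtain ⟨s, N, hs⟩ := h
  refine ⟨s, N, fun g hg => hs g fun h0 => hg ?_⟩
  unfold cR at h0 ⊢
  have h1 : P.pin g = 0 := by exact_mod_cast h0
  unfold PP.wt
  rw [h1, zero_mul, Complex.ofReal_zero]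

/-- large domains contain a finite set in the interior -/
lemma ev_core (s : Finset V) : ∀ᶠ D in dom, ∀ v ∈ s, v ∈ D \ bdry D := by
  classical
  refine RP4.eventually_dom.2 ⟨s.biUnion (fun v => (Finset.Icc (v.1 - 1) (v.1 + 1)) ×ˢ (Finset.Icc (v.2 - 1) (v.2 + 1))),
    fun D hD _ v hv => ?_⟩
  have h1 : ∀ u : V, |u.1 - v.1| + |u.2 - v.2| ≤ 1 → u ∈ D := by
    intro u hu
    apply hD
    rw [Finset.mem_biUnion]
    refine ⟨v, hv, ?_⟩
    rw [Finset.mem_product, Finset.mem_Icc, Finset.mem_Icc]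
    have h2 := abs_nonneg (u.1 - v.1)
    have h3 := abs_nonneg (u.2 - v.2)
    have h4 := abs_le.1 (show |u.1 - v.1| ≤ 1 by omega)
    have h5 := abs_le.1 (show |u.2 - v.2| ≤ 1 by omega)
    omega
  rw [Finset.mem_sdiff]
  refine ⟨h1 v (by simp), fun hb => ?_⟩
  obtain ⟨_, u, hu, hu'⟩ := RP4.mem_bdry.1 hb
  exact hu' (h1 u (le_of_eq hu))

lemma nb_fin {A : Set V} (hA : A.Finite) : (nb A).Finite := by
  classical
  refine (hA.toFinset.biUnion (fun v => (Finset.Icc (v.1 - 1) (v.1 + 1)) ×ˢ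
    (Finset.Icc (v.2 - 1) (v.2 + 1)))).finite_toSet.subset ?_
  rintro v (hv | ⟨u, hu, huv⟩)
  · rw [Finset.mem_coe, Finset.mem_biUnion]
    refine ⟨v, hA.mem_toFinset.2 hv, ?_⟩
    rw [Finset.mem_product, Finset.mem_Icc, Finset.mem_Icc]
    omega
  · rw [Finset.mem_coe, Finset.mem_biUnion]
    refine ⟨u, hA.mem_toFinset.2 hu, ?_⟩
    unfold Adj at huv
    rw [Finset.mem_product, Finset.mem_Icc, Finset.mem_Icc]
    have h2 := abs_nonneg (u.1 - v.1)
    have h3 := abs_nonneg (u.2 - v.2)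
    have h4 := abs_le.1 (show |u.1 - v.1| ≤ 1 by omega)
    have h5 := abs_le.1 (show |u.2 - v.2| ≤ 1 by omega)
    omega

/-- the sites of the finite inequality are finite -/
lemma ev_sites {P P' : PP} (hP : P.Good) (hP' : P'.Good) : ∀ᶠ D in dom, ∀ v,
    v ∈ nb P.Yᶜ ∨ v ∈ nb P'.Yᶜ ∨ (∃ p ∈ P.l, v ∈ p.2) ∨ (∃ p ∈ P'.l, v ∈ p.2) → v ∈ D \ bdry D := by
  classical
  have hl : ∀ l : List (Finset V × Finset V), {v : V | ∃ p ∈ l, v ∈ p.2}.Finite := by
    intro l
    have e : {v : V | ∃ p ∈ l, v ∈ p.2} = ⋃ p ∈ l.toFinset, (p.2 : Set V) := by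
      ext v
      simp
    rw [e]
    exact Set.Finite.biUnion (Finset.finite_toSet _) fun p _ => Finset.finite_toSet _
  have hf : {v : V | v ∈ nb P.Yᶜ ∨ v ∈ nb P'.Yᶜ ∨ (∃ p ∈ P.l, v ∈ p.2) ∨ (∃ p ∈ P'.l, v ∈ p.2)}.Finite := by
    refine ((nb_fin hP.fin).union ((nb_fin hP'.fin).union ((hl P.l).union (hl P'.l)))).subset ?_
    rintro v (h | h | h | h)
    · exact Or.inl h
    · exact Or.inr (Or.inl h)
    · exact Or.inr (Or.inr (Or.inl h))
    · exact Or.inr (Or.inr (Or.inr h))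
  filter_upwards [ev_core hf.toFinset] with D hD v hv
  exact hD v (hf.mem_toFinset.2 hv)

/-- `muP` of a product of two sums over the levels as a mean of the floating measure -/
lemma mup_pl {a b : (V → ℤ) → ℝ} (ha : ∀ g, 0 ≤ a g) :
    muP (fun h => ((pl (cR a) h * pl (cR b) h : ℝ) : ℂ)) = DV.M (fun g => ((a g * pl (cR b) g : ℝ) : ℂ)) := by
  unfold DV.M
  congr 1
  funext h
  unfold per
  have e1 : (∑ᶠ k : ℤ, ((a (lev k h) * pl (cR b) (lev k h) : ℝ) : ℂ)) = ((pl (cR b) h : ℝ) : ℂ) * ∑ᶠ k : ℤ, (a (lev k h) : ℂ) := by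
    rw [← smul_eq_mul, smul_finsum]
    refine finsum_congr fun k => ?_
    rw [pl_lev, smul_eq_mul]
    push_cast
    ring
  have e2 : (∑ᶠ k : ℤ, (a (lev k h) : ℂ)) = ((pl (cR a) h : ℝ) : ℂ) := by
    have := per_norm (cR a) h
    unfold per at this
    rw [← this]
    exact finsum_congr fun k => by
      show (a (lev k h) : ℂ) = ((‖cR a (lev k h)‖ : ℝ) : ℂ)
      rw [norm_cR ha]
  rw [e1, e2]
  push_cast
  ring

lemma pn_mul_pl {s t : Finset V} {a b : (V → ℤ) → ℝ} (ha : LocC s (cR a)) (hp : PinC (cR a)) (hb : LocC t (cR b)) :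
    ∃ u : Finset V, PR u (fun g => a g * pl (cR b) g) := by
  classical
  refine ⟨s ∪ t, pn_of (fun g g' hg => ?_) ?_⟩
  · have h1 := ha g g' fun x hx => hg x (Finset.mem_union_left _ hx)
    have h2 := pl_al hb (fun r => r) g g' fun x hx => hg x (Finset.mem_union_right _ hx)
    unfold cR at h1
    simp only [Complex.ofReal_mul, h1]
    simp only at h2
    rw [h2]
  · obtain ⟨u, N, hu⟩ := hp
    refine ⟨u, N, fun g hg => hu g fun h0 => hg ?_⟩
    unfold cR at h0
    show ((a g * pl (cR b) g : ℝ) : ℂ) = 0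
    rw [Complex.ofReal_mul, h0, zero_mul]

/-- **Deterministic zeros cost nothing.** -/
theorem pin_le (hd : Deloc) {P P' : PP} (hP : P.Good) (hP' : P'.Good) (hPP : P.Sepd P') (pP : PinC (cR P.pin))
    (pP' : PinC (cR P'.pin)) :
    (muP (fun h => ((pl (cR P.wt) h * pl (cR P'.wt) h : ℝ) : ℂ))).re ≤
      (muP (fun h => ((pl (cR P.pin) h * pl (cR P'.pin) h : ℝ) : ℂ))).re := by
  classical
  rw [mup_pl P.wt_nonneg, mup_pl P.pin_nonneg]
  obtain ⟨s, hs1, hs2, hs3⟩ := hP.wt_loc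
  obtain ⟨t, ht1, ht2, ht3⟩ := hP'.wt_loc
  obtain ⟨u, hu⟩ := pn_mul_pl hs2 (P.wt_pin pP) ht2
  obtain ⟨u', hu'⟩ := pn_mul_pl hs3 pP ht3
  have key := DV.Mr_le_of hd hu hu' (c := 1) (d := 1) (by
    filter_upwards [ev_sites hP hP'] with D hD
    rw [one_mul, one_mul]
    have q1 := pn_of ht2 (P'.wt_pin pP')
    have q2 := pn_of ht3 pP'
    set K : Finset ℤ := (Om D).biUnion fun g => (q1.finite g).toFinset ∪ (q2.finite g).toFinset with hK
    have e1 : ∀ g ∈ Om D, pl (cR P'.wt) g = ∑ k ∈ K, P'.wt (lev k g) := by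
      intro g hg
      rw [pl_cR P'.wt_nonneg]
      refine finsum_eq_sum_of_support_subset _ fun k hk => ?_
      rw [Finset.mem_coe, hK, Finset.mem_biUnion]
      refine ⟨g, hg, Finset.mem_union_left _ ((q1.finite g).mem_toFinset.2 ?_)⟩
      show cR P'.wt (lev k g) ≠ 0
      unfold cR
      rw [Complex.ofReal_ne_zero]
      exact hk
    have e2 : ∀ g ∈ Om D, pl (cR P'.pin) g = ∑ k ∈ K, P'.pin (lev k g) := by
      intro g hg
      rw [pl_cR P'.pin_nonneg]
      refine finsum_eq_sum_of_support_subset _ fun k hk => ?_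
      rw [Finset.mem_coe, hK, Finset.mem_biUnion]
      refine ⟨g, hg, Finset.mem_union_right _ ((q2.finite g).mem_toFinset.2 ?_)⟩
      show cR P'.pin (lev k g) ≠ 0
      unfold cR
      rw [Complex.ofReal_ne_zero]
      exact hk
    have e3 : ∑ g ∈ Om D, P.wt g * pl (cR P'.wt) g = ∑ k ∈ K, ∑ g ∈ Om D, P.wt g * P'.wt (lev k g) := by
      rw [Finset.sum_comm]
      exact Finset.sum_congr rfl fun g hg => by rw [e1 g hg, Finset.mul_sum]
    have e4 : ∑ g ∈ Om D, P.pin g * pl (cR P'.pin) g = ∑ k ∈ K, ∑ g ∈ Om D, P.pin g * P'.pin (lev k g) := by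
      rw [Finset.sum_comm]
      exact Finset.sum_congr rfl fun g hg => by rw [e2 g hg, Finset.mul_sum]
    rw [e3, e4]
    exact Finset.sum_le_sum fun k _ => fin_two hP hP' hPP hD k)
  rw [one_mul, one_mul] at key
  exact key

/-- one pin -/
theorem pin_le_one (hd : Deloc) {P : PP} (hP : P.Good) (pP : PinC (cR P.pin)) : Mr P.wt ≤ Mr P.pin := by
  obtain ⟨s, hs1, hs2, hs3⟩ := hP.wt_loc
  have h1 : PR s P.wt := pn_of hs2 (P.wt_pin pP)
  have h2 : PR s P.pin := pn_of hs3 pP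
  set T : PP := ⟨∅, Set.univ, []⟩ with hT
  have hnb : nb (Set.univ : Set V)ᶜ = ∅ := by
    rw [Set.compl_univ]
    ext v
    constructor
    · rintro (h | ⟨u, h, _⟩)
      · exact h
      · exact absurd h (Set.notMem_empty _)
    · exact fun h => absurd h (Set.notMem_empty _)
  have hTg : T.Good := by
    refine ⟨Set.empty_disjoint _, ?_, ?_, ?_, ?_, List.Pairwise.nil⟩
    · rw [hT, Set.compl_univ]
      exact Set.finite_empty
    · intro p hp
      exact absurd hp List.not_mem_nil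
    · intro p hp
      exact absurd hp List.not_mem_nil
    · intro p hp
      exact absurd hp List.not_mem_nil
  have hsep : P.Sepd T := by
    refine ⟨?_, fun p _ => ?_, fun p hp => absurd hp List.not_mem_nil, fun p _ q hq => absurd hq List.not_mem_nil⟩
    · rw [hT, hnb]
      exact Set.disjoint_empty _
    · rw [hT, hnb]
      exact Set.disjoint_empty _
  have hone : ∀ g, T.pin g = 1 := by
    intro g
    unfold PP.pin DV.ic
    rw [if_pos]
    intro u hu
    exfalso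
    rcases hu with h | ⟨v, h, _⟩
    · exact absurd h (Set.notMem_empty _)
    · exact absurd h (Set.notMem_empty _)
  have hone' : ∀ g, T.wt g = 1 := by
    intro g
    unfold PP.wt
    rw [hone, one_mul]
    simp [wl, hT]
  have key := DV.Mr_le_of hd h1 h2 (c := 1) (d := 1) (by
    filter_upwards [ev_sites hP hTg] with D hD
    rw [one_mul, one_mul]
    have := fin_two hP hTg hsep hD 0
    simp only [hone, hone', mul_one] at this
    exact this)
  rw [one_mul, one_mul] at key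
  exact key

end PL
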