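import Pool.Agent.Helper27.PL.Q4

/-!
# Block PL2 (project DV, MP_973bc8_pr), Q5: reflections of pins and patches
-/

open Finset Filter Topology ComplexConjugate Relation

namespace PL

open RP4 (V Adj BdryPar Om Zs avg bdry IsHom par Deloc dom LSym img)
open GF (Pl ell bx)
open GF.Lat (ld lref DirZ dr ld_lref lref_lref)
open DV (pr glu nb rv Con nz Sep lev ic AL Pn per muP Mr PR GH Phs Jn Stp)

/-- the reflection as a bijection -/
def tau {d : ℤ × ℤ} (hd : DirZ d) (m : ℤ) : V ≃ V := ⟨lref d m, lref d m, lref_lref hd m, lref_lref hd m⟩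

lemma tau_apply {d : ℤ × ℤ} (hd : DirZ d) (m : ℤ) (v : V) : tau hd m v = lref d m v := rfl

lemma lref_par {d : ℤ × ℤ} (hd : DirZ d) (m : ℤ) (v : V) : Even (par (lref d m v) - par v) := by
  unfold RP4.par
  rcases hd with rfl | rfl | rfl | rfl | rfl | rfl | rfl | rfl <;> rw [Int.even_iff] <;>
    simp only [lref, ld] <;> norm_num <;> omega

lemma tau_adj {d : ℤ × ℤ} (hd : DirZ d) (m : ℤ) (u v : V) : Adj (lref d m u) (lref d m v) ↔ Adj u v := by
  have key : ∀ a b : ℤ, |-a| + |b| = |a| + |b| ∧ |a| + |-b| = |a| + |b| := fun a b => by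
    rw [abs_neg, abs_neg]
    exact ⟨rfl, rfl⟩
  have e : ∀ u v : V, Adj u v ↔ |u.1 - v.1| + |u.2 - v.2| = 1 := fun _ _ => Iff.rfl
  have c1 : ∀ a b a' b' : ℤ, (a' = a ∨ a' = -a) → (b' = b ∨ b' = -b) → (|a'| + |b'| = 1 ↔ |a| + |b| = 1) := by
    intro a b a' b' h h'
    have h1 : |a'| = |a| := by
      rcases h with rfl | rfl
      · rfl
      · exact abs_neg _
    have h2 : |b'| = |b| := by
      rcases h' with rfl | rfl
      · rfl
      · exact abs_neg _
    rw [h1, h2]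
  have c2 : ∀ a b a' b' : ℤ, (a' = b ∨ a' = -b) → (b' = a ∨ b' = -a) → (|a'| + |b'| = 1 ↔ |a| + |b| = 1) := by
    intro a b a' b' h h'
    rw [c1 b a a' b' h h', add_comm]
  rw [e, e]
  rcases hd with rfl | rfl | rfl | rfl | rfl | rfl | rfl | rfl
  · refine c1 _ _ _ _ (Or.inr ?_) (Or.inl ?_) <;> simp only [lref, ld] <;> norm_num <;> ring
  · refine c1 _ _ _ _ (Or.inr ?_) (Or.inl ?_) <;> simp only [lref, ld] <;> norm_num <;> ring
  · refine c1 _ _ _ _ (Or.inl ?_) (Or.inr ?_) <;> simp only [lref, ld] <;> norm_num <;> ring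
  · refine c1 _ _ _ _ (Or.inl ?_) (Or.inr ?_) <;> simp only [lref, ld] <;> norm_num <;> ring
  · refine c2 _ _ _ _ (Or.inr ?_) (Or.inr ?_) <;> simp only [lref, ld] <;> norm_num <;> omega
  · refine c2 _ _ _ _ (Or.inr ?_) (Or.inr ?_) <;> simp only [lref, ld] <;> norm_num <;> omega
  · refine c2 _ _ _ _ (Or.inl ?_) (Or.inl ?_) <;> simp only [lref, ld] <;> norm_num <;> omega
  · refine c2 _ _ _ _ (Or.inl ?_) (Or.inl ?_) <;> simp only [lref, ld] <;> norm_num <;> omega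

lemma tau_lsym {d : ℤ × ℤ} (hd : DirZ d) (m : ℤ) : LSym (tau hd m) := by
  refine ⟨fun u v => tau_adj hd m u v, fun u v => ?_⟩
  have h1 := (lref_par hd m u).sub (lref_par hd m v)
  have h2 : par (tau hd m u) - par (tau hd m v) - (par u - par v) =
      par (lref d m u) - par u - (par (lref d m v) - par v) := by
    rw [tau_apply, tau_apply]
    ring
  rw [h2]
  exact h1

section mp

variable {τ : V ≃ V}

lemma nb_image (h : LSym τ) (A : Set V) : nb (τ '' A) = τ '' nb A := by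
  ext v
  constructor
  · rintro (⟨u, hu, rfl⟩ | ⟨_, ⟨u, hu, rfl⟩, huv⟩)
    · exact ⟨u, Or.inl hu, rfl⟩
    · refine ⟨τ.symm v, Or.inr ⟨u, hu, ?_⟩, τ.apply_symm_apply v⟩
      rw [← h.adj, τ.apply_symm_apply]
      exact huv
  · rintro ⟨w, hw | ⟨u, hu, huw⟩, rfl⟩
    · exact Or.inl ⟨w, hw, rfl⟩
    · exact Or.inr ⟨τ u, ⟨u, hu, rfl⟩, (h.adj u w).2 huw⟩

lemma con_map (h : LSym τ) {g : V → ℤ} {u v : V} : Con (nz fun v => g (τ v)) u v ↔ Con (nz g) (τ u) (τ v) := by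
  constructor
  · rintro ⟨h1, h2⟩
    refine ⟨h1, ?_⟩
    refine ReflTransGen.lift τ (fun a b hab => ?_) _ _ h2
    exact ⟨(h.adj a b).2 hab.1, hab.2.1, hab.2.2⟩
  · rintro ⟨h1, h2⟩
    refine ⟨h1, ?_⟩
    have h3 : ReflTransGen (Stp Adj (nz fun v => g (τ v))) (τ.symm (τ u)) (τ.symm (τ v)) :=
      ReflTransGen.lift τ.symm (fun a b hab => ?_) _ _ h2
    · rwa [τ.symm_apply_apply, τ.symm_apply_apply] at h3
    · refine ⟨?_, ?_, ?_⟩
      · rw [← h.adj, τ.apply_symm_apply, τ.apply_symm_apply]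
        exact hab.1
      · show g (τ (τ.symm a)) ≠ 0
        rw [τ.apply_symm_apply]
        exact hab.2.1
      · show g (τ (τ.symm b)) ≠ 0
        rw [τ.apply_symm_apply]
        exact hab.2.2

lemma sep_map (h : LSym τ) {X Y : Set V} {g : V → ℤ} : Sep X Y (fun v => g (τ v)) ↔ Sep (τ '' X) (τ '' Y) g := by
  unfold DV.Sep
  rw [nb_image h, nb_image h]
  constructor
  · rintro hs _ ⟨u, hu, rfl⟩ _ ⟨v, hv, rfl⟩ hc
    exact hs u hu v hv ((con_map h).2 hc)
  · intro hs u hu v hv hc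
    exact hs _ ⟨u, hu, rfl⟩ _ ⟨v, hv, rfl⟩ ((con_map h).1 hc)

lemma mem_img {D : Finset V} {v : V} : v ∈ img τ D ↔ ∃ u ∈ D, τ u = v := by
  unfold RP4.img
  rw [Finset.mem_map]
  rfl

lemma zer_map {S : Finset V} {g : V → ℤ} : Zer S (fun v => g (τ v)) ↔ Zer (img τ S) g := by
  unfold Zer
  constructor
  · intro h v hv
    obtain ⟨u, hu, rfl⟩ := mem_img.1 hv
    exact h u hu
  · intro h v hv
    exact h _ (mem_img.2 ⟨v, hv, rfl⟩)

lemma phi_map (h : LSym τ) (he : ∀ v, Even (par (τ v) - par v)) (L S : Finset V) :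
    phi (img τ L) (img τ S) = phi L S := by
  classical
  unfold phi DV.pr
  have h1 := RP4.avg_Om_img h he L (fun g => if Zer S g then (1 : ℝ) else 0)
  refine Eq.trans ?_ (h1.trans ?_)
  · congr 1
    funext g
    by_cases hg : Zer (img τ S) g
    · rw [if_pos hg, if_pos (zer_map.2 hg)]
    · rw [if_neg hg, if_neg fun h2 => hg (zer_map.1 h2)]
  · rfl

/-- the image of a pin with patches -/
def PP.mp (τ : V ≃ V) (P : PP) : PP := ⟨τ '' P.X, τ '' P.Y, P.l.map fun p => (img τ p.1, img τ p.2)⟩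

lemma PP.mp_pin (h : LSym τ) (P : PP) (g : V → ℤ) : (P.mp τ).pin g = P.pin (fun v => g (τ v)) :=
  (DV.ic_congr (sep_map h)).symm

lemma PP.mp_wt (h : LSym τ) (he : ∀ v, Even (par (τ v) - par v)) (P : PP) (g : V → ℤ) :
    (P.mp τ).wt g = P.wt (fun v => g (τ v)) := by
  unfold PP.wt
  rw [P.mp_pin h]
  congr 1
  unfold wl PP.mp
  rw [List.map_map]
  congr 1
  refine List.map_congr_left fun p _ => ?_
  show w1 (img τ p.1, img τ p.2) g = w1 p fun v => g (τ v)
  unfold w1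
  rw [phi_map h he]
  by_cases hg : Zer (img τ p.1) g
  · rw [if_pos hg, if_pos (zer_map.2 hg)]
  · rw [if_neg hg, if_neg fun h2 => hg (zer_map.1 h2)]

lemma compl_img (A : Set V) : (τ '' A)ᶜ = τ '' Aᶜ := (Set.image_compl_eq τ.bijective).symm

lemma coe_img (D : Finset V) : ((img τ D : Finset V) : Set V) = τ '' (D : Set V) := by
  ext v
  rw [Finset.mem_coe, mem_img]
  rfl

lemma disj_image {A B : Set V} (h : Disjoint A B) : Disjoint (τ '' A) (τ '' B) :=
  (Set.disjoint_image_iff τ.injective).2 h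

lemma PP.Good.mp (h : LSym τ) (he : ∀ v, Even (RP4.par (τ v) - RP4.par v)) {P : PP} (hP : P.Good) : (P.mp τ).Good := by
  refine ⟨?_, ?_, fun q hq => ?_, fun q hq => ?_, fun q hq => ?_, ?_⟩
  · show Disjoint (τ '' P.X) (nb (τ '' P.Y))
    rw [nb_image h]
    exact disj_image hP.xy
  · show ((τ '' P.Y)ᶜ).Finite
    rw [compl_img]
    exact hP.fin.image _
  · obtain ⟨p, hp, rfl⟩ := List.mem_map.1 hq
    exact Finset.map_subset_map.2 (hP.sub p hp)
  · obtain ⟨p, hp, rfl⟩ := List.mem_map.1 hq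
    intro v hv
    obtain ⟨h1, w, hw, hwD⟩ := RP4.mem_bdry.1 hv
    obtain ⟨u, hu, rfl⟩ := mem_img.1 h1
    have h2 : u ∈ bdry p.2 := by
      refine RP4.mem_bdry.2 ⟨hu, τ.symm w, ?_, fun h3 => hwD (mem_img.2 ⟨_, h3, τ.apply_symm_apply w⟩)⟩
      rw [← h.adj, τ.apply_symm_apply]
      exact hw
    have h3 := hP.par p hp u h2
    have h4 := he u
    rw [sub_zero] at h3 ⊢
    have h5 := h4.add h3
    rwa [sub_add_cancel] at h5
  · obtain ⟨p, hp, rfl⟩ := List.mem_map.1 hq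
    show Disjoint ((img τ p.2 : Finset V) : Set V) (nb (τ '' P.Y)ᶜ)
    rw [coe_img, compl_img, nb_image h]
    exact disj_image (hP.off p hp)
  · show (P.l.map fun p => (img τ p.1, img τ p.2)).Pairwise _
    rw [List.pairwise_map]
    refine hP.dis.imp fun {p q} hpq => ?_
    rw [← Finset.disjoint_coe, coe_img, coe_img]
    exact disj_image (Finset.disjoint_coe.2 hpq)

lemma PP.mp_sites (P : PP) : (P.mp τ).sites = τ '' P.sites := by
  unfold PP.sites
  rw [Set.image_union, ← compl_img]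
  congr 1
  ext v
  constructor
  · rintro ⟨q, hq, hv⟩
    obtain ⟨p, hp, rfl⟩ := List.mem_map.1 hq
    obtain ⟨u, hu, rfl⟩ := mem_img.1 hv
    exact ⟨u, ⟨p, hp, hu⟩, rfl⟩
  · rintro ⟨u, ⟨p, hp, hu⟩, rfl⟩
    exact ⟨_, List.mem_map.2 ⟨p, hp, rfl⟩, mem_img.2 ⟨u, hu, rfl⟩⟩

end mp

end PL
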