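import Pool.Agent.Helper27.PL.Q5
import Pool.Agent.Helper27.PL.P6

/-!
# Block PL2 (project DV, MP_973bc8_pr), Q6: the class of the families with normalised deterministic zeros
-/

open Finset Filter Topology ComplexConjugate

namespace PL

open RP4 (V Adj BdryPar Om Zs avg bdry IsHom par Deloc dom LSym img)
open GF (Pl ell bx)
open GF.Lat (ld lref DirZ dr ld_lref lref_lref refl_lattice)
open DV (pr glu nb rv Con nz Sep lev ic AL Pn per muP Mr PR GH Phs)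

lemma ld_adj {d : ℤ × ℤ} (hd : DirZ d) {u v : V} (h : Adj u v) : |(ld d u : ℝ) - ld d v| ≤ 1 := by
  have h1 : |ld d u - ld d v| ≤ 1 := by
    unfold Adj at h
    have a1 : |d.1| ≤ 1 ∧ |d.2| ≤ 1 := by
      rcases hd with h | h | h | h | h | h | h | h <;> rw [h] <;> simp
    have e : ld d u - ld d v = d.1 * (u.1 - v.1) + d.2 * (u.2 - v.2) := by
      unfold ld
      ring
    rw [e]
    refine (abs_add_le _ _).trans ?_
    rw [abs_mul, abs_mul]
    have h4 := mul_le_of_le_one_left (abs_nonneg (u.1 - v.1)) a1.1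
    have h5 := mul_le_of_le_one_left (abs_nonneg (u.2 - v.2)) a1.2
    linarith
  exact_mod_cast h1

lemma nb_half {d : ℤ × ℤ} (hd : DirZ d) {δ : ℝ} (hδ : 0 < δ) {A : Set V} {v : V} (hv : v ∈ nb A) :
    ∃ u ∈ A, |ell (dr d) (sc δ u) - ell (dr d) (sc δ v)| ≤ δ := by
  rcases hv with hv | ⟨u, hu, huv⟩
  · exact ⟨v, hv, by rw [sub_self, abs_zero]; exact hδ.le⟩
  · refine ⟨u, hu, ?_⟩
    rw [ell_sc, ell_sc, ← mul_sub, abs_mul, abs_of_pos hδ]
    exact mul_le_of_le_one_right hδ.le (ld_adj hd huv)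

lemma sep_nb {d : ℤ × ℤ} (hd : DirZ d) {δ s s' : ℝ} (hδ : 0 < δ) (h : 2 * δ < s' - s) {A B : Set V}
    (hA : ∀ v ∈ A, ell (dr d) (sc δ v) < s) (hB : ∀ v ∈ B, s' < ell (dr d) (sc δ v)) : Disjoint (nb A) (nb B) := by
  rw [Set.disjoint_left]
  intro v h1 h2
  obtain ⟨u, hu, h3⟩ := nb_half hd hδ h1
  obtain ⟨w, hw, h4⟩ := nb_half hd hδ h2
  have h5 := hA u hu
  have h6 := hB w hw
  rw [abs_le] at h3 h4
  linarith

lemma PP.Sepd.symm {P P' : PP} (h : P.Sepd P') : P'.Sepd P :=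
  ⟨h.yy.symm, h.yl, h.ly, fun p hp q hq => (h.ll q hq p hp).symm⟩

lemma PP.sepd_of {d : ℤ × ℤ} (hd : DirZ d) {δ s s' : ℝ} (hδ : 0 < δ) (h : 2 * δ < s' - s) {P P' : PP}
    (hP : ∀ v ∈ P.sites, ell (dr d) (sc δ v) < s) (hP' : ∀ v ∈ P'.sites, s' < ell (dr d) (sc δ v)) :
    P.Sepd P' := by
  have key := sep_nb hd hδ h hP hP'
  have hy : P.Yᶜ ⊆ P.sites := Set.subset_union_left
  have hy' : P'.Yᶜ ⊆ P'.sites := Set.subset_union_left
  have hp : ∀ p ∈ P.l, (p.2 : Set V) ⊆ P.sites := fun p hp v hv => Or.inr ⟨p, hp, Finset.mem_coe.1 hv⟩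
  have hp' : ∀ p ∈ P'.l, (p.2 : Set V) ⊆ P'.sites := fun p hp v hv => Or.inr ⟨p, hp, Finset.mem_coe.1 hv⟩
  refine ⟨key.mono (DV.nb_mono hy) (DV.nb_mono hy'), fun p h1 => ?_, fun p h1 => ?_, fun p h1 q h2 => ?_⟩
  · exact key.mono ((hp p h1).trans (DV.sub_nb _)) (DV.nb_mono hy')
  · exact (key.mono (DV.nb_mono hy) ((hp' p h1).trans (DV.sub_nb _))).symm
  · rw [← Finset.disjoint_coe]
    exact key.mono ((hp p h1).trans (DV.sub_nb _)) ((hp' q h2).trans (DV.sub_nb _))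

/-- the pin of `P`, the patches of both -/
def PP.join (P P' : PP) : PP := ⟨P.X, P.Y, P.l ++ P'.l⟩

lemma PP.join_good {P P' : PP} (hP : P.Good) (hP' : P'.Good) (h : P.Sepd P') : (P.join P').Good := by
  refine ⟨hP.xy, hP.fin, fun p hp => ?_, fun p hp => ?_, fun p hp => ?_, ?_⟩
  · rcases List.mem_append.1 hp with h1 | h1
    · exact hP.sub p h1
    · exact hP'.sub p h1
  · rcases List.mem_append.1 hp with h1 | h1
    · exact hP.par p h1
    · exact hP'.par p h1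
  · rcases List.mem_append.1 hp with h1 | h1
    · exact hP.off p h1
    · exact h.yl p h1
  · exact List.pairwise_append.2 ⟨hP.dis, hP'.dis, h.ll⟩

lemma PP.join_sites (P P' : PP) : (P.join P').sites ⊆ P.sites ∪ P'.sites := by
  rintro v (hv | ⟨p, hp, hv⟩)
  · exact Or.inl (Or.inl hv)
  · rcases List.mem_append.1 hp with h1 | h1
    · exact Or.inl (Or.inr ⟨p, h1, hv⟩)
    · exact Or.inr (Or.inr ⟨p, h1, hv⟩)

lemma PP.join_wt (P P' : PP) (g : V → ℤ) : P.wt g * P'.wt g ≤ (P.join P').wt g := by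
  have h1 : (P.join P').wt g = P.pin g * (wl P.l g * wl P'.l g) := by
    unfold PP.wt
    rw [← wl_append]
    rfl
  rw [h1]
  unfold PP.wt
  have h2 := mul_le_mul_of_nonneg_right (P'.pin_le_one g) (wl_nonneg P'.l g)
  rw [one_mul] at h2
  have h3 : 0 ≤ P.pin g * wl P.l g := mul_nonneg (P.pin_nonneg g) (wl_nonneg _ _)
  calc P.pin g * wl P.l g * (P'.pin g * wl P'.l g) ≤ P.pin g * wl P.l g * wl P'.l g :=
        mul_le_mul_of_nonneg_left h2 h3
    _ = _ := by ring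

/-- the class of the families with normalised deterministic zeros -/
def AZ (b : Bool) (K : Set Pl) (F : Fam) : Prop :=
  ∃ (P : ℝ → PP) (C R : ℝ), 0 < R ∧ 0 ≤ C ∧ InR (K ∩ bx 0 R) F ∧
    (∀ᶠ δ in 𝓝[>] (0 : ℝ), (P δ).Good ∧ ∀ v ∈ (P δ).sites, sc δ v ∈ K ∩ bx 0 R) ∧
    (∀ᶠ δ in 𝓝[>] (0 : ℝ), ∀ g, ‖F δ g‖ ≤ C * (P δ).wt g) ∧
    (b = true → UP (fun δ => cR (P δ).pin))

lemma ev_small {c : ℝ} (hc : 0 < c) : ∀ᶠ δ in 𝓝[>] (0 : ℝ), 0 < δ ∧ δ < c := by
  filter_upwards [self_mem_nhdsWithin, mem_nhdsWithin_of_mem_nhds (Iio_mem_nhds hc)] with δ h1 h2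
  exact ⟨h1, h2⟩

/-- the pin family is local -/
lemma inR_pin {K : Set Pl} {P : ℝ → PP} (h : ∀ᶠ δ in 𝓝[>] (0 : ℝ), (P δ).Good ∧ ∀ v ∈ (P δ).sites, sc δ v ∈ K) :
    InR K (fun δ => cR (P δ).pin) := by
  filter_upwards [h] with δ hδ
  obtain ⟨s, h1, _, h3⟩ := hδ.1.wt_loc
  exact ⟨s, h3, fun x hx => hδ.2 x (h1 x hx)⟩

lemma pinC_of_le {F : (V → ℤ) → ℂ} {P : PP} {C : ℝ} (h : ∀ g, ‖F g‖ ≤ C * P.wt g) (hp : PinC (cR P.pin)) : PinC F := by
  obtain ⟨s, N, hs⟩ := P.wt_pin hp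
  refine ⟨s, N, fun g hg => hs g fun h0 => hg ?_⟩
  have h1 : P.wt g = 0 := by
    unfold cR at h0
    exact_mod_cast h0
  have h2 := h g
  rw [h1, mul_zero] at h2
  exact norm_le_zero_iff.1 h2

lemma nrL_pl (d : ℤ × ℤ) (m : ℤ) (F : (V → ℤ) → ℂ) :
    nrL d m F = (muP (fun h => ((pl F h * pl F (fun v => h (lref d m v)) : ℝ) : ℂ))).re := by
  unfold nrL
  congr 2
  funext h
  rw [per_norm, per_norm, Complex.ofReal_mul]

lemma pl_th (d : ℤ × ℤ) (m : ℤ) (F : (V → ℤ) → ℂ) (h : V → ℤ) :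
    pl F (fun v => h (lref d m v)) = pl (th d m F) h := rfl

lemma pl_prod_al {s t : Finset V} {F G : (V → ℤ) → ℂ} (hF : LocC s F) (hG : LocC t G) :
    ∃ u : Finset V, s ∪ t ⊆ u ∧ AL u (fun h => ((pl F h * pl G h : ℝ) : ℂ)) := by
  classical
  refine ⟨s ∪ t, Finset.Subset.refl _, fun g g' hg => ?_⟩
  have h1 := pl_al hF (fun r => r) g g' fun x hx => hg x (Finset.mem_union_left _ hx)
  have h2 := pl_al hG (fun r => r) g g' fun x hx => hg x (Finset.mem_union_right _ hx)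
  simp only [Complex.ofReal_inj] at h1 h2
  simp only [h1, h2]

lemma pl_prod_phs (F G : (V → ℤ) → ℂ) : Phs 0 (fun h => ((pl F h * pl G h : ℝ) : ℂ)) := by
  intro k h
  simp only [pl_lev, mul_zero, neg_zero, Complex.ofReal_zero, zero_mul, Complex.exp_zero, one_mul]

/-- comparison of strong norms -/
lemma nrL_le_of (hdl : Deloc) {d : ℤ × ℤ} (m : ℤ) {s t : Finset V} {F G : (V → ℤ) → ℂ} (hF : LocC s F)
    (hG : LocC t G) (pG : PinC G) {C : ℝ} (hC : 0 ≤ C) (h : ∀ g, ‖F g‖ ≤ C * ‖G g‖) :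
    nrL d m F ≤ C ^ 2 * nrL d m G := by
  classical
  rw [nrL_pl, nrL_pl]
  simp only [pl_th]
  obtain ⟨u, _, hu⟩ := pl_prod_al hF (hF.th d m)
  obtain ⟨u', _, hu'⟩ := pl_prod_al hG (hG.th d m)
  have hP := pn_of hG pG
  have e : C ^ 2 * (muP (fun h => ((pl G h * pl (th d m G) h : ℝ) : ℂ))).re =
      (muP (fun h => ((C ^ 2 : ℝ) : ℂ) * ((pl G h * pl (th d m G) h : ℝ) : ℂ))).re := by
    rw [DV.muP_smul hdl hu' (pl_prod_phs _ _), Complex.re_ofReal_mul]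
  rw [e]
  refine DV.muP_re_mono hdl (s := u ∪ u') (hu.mono Finset.subset_union_left) (pl_prod_phs _ _)
    ((hu'.mono Finset.subset_union_right).comp fun z => ((C ^ 2 : ℝ) : ℂ) * z) (fun k g => ?_) fun g _ => ?_
  · have := pl_prod_phs G (th d m G) k g
    simp only [mul_zero, neg_zero, Complex.ofReal_zero, zero_mul, Complex.exp_zero, one_mul] at this ⊢
    rw [this]
  · rw [← Complex.ofReal_mul, Complex.ofReal_re, Complex.ofReal_re]
    have h1 := pl_mono hP h g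
    have h2 := pl_mono hP h (fun v => g (lref d m v))
    rw [pl_th, pl_th] at h2
    have h3 := mul_le_mul h1 h2 (pl_nonneg _ _) (mul_nonneg hC (pl_nonneg _ _))
    calc pl F g * pl (th d m F) g ≤ C * pl G g * (C * pl (th d m G) g) := h3
      _ = _ := by ring

/-- **The families with normalised deterministic zeros form a class.** -/
theorem cls_AZ (hdl : Deloc) : Cls DV.M nrL AZ where
  reg := by
    rintro b K F ⟨P, C, R, hR, hC, h1, _⟩
    exact h1.mono Set.inter_subset_left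
  pin := by
    rintro K F ⟨P, C, R, hR, hC, _, _, h3, h4⟩
    filter_upwards [h3, (h4 rfl).1] with δ g1 g2
    exact pinC_of_le g1 g2
  mono := by
    rintro b K K' F hK ⟨P, C, R, hR, hC, h1, h2, h3, h4⟩
    refine ⟨P, C, R, hR, hC, h1.mono (Set.inter_subset_inter_left _ hK), ?_, h3, h4⟩
    filter_upwards [h2] with δ g
    exact ⟨g.1, fun v hv => ⟨hK (g.2 v hv).1, (g.2 v hv).2⟩⟩
  box := by
    rintro b K F ⟨P, C, R, hR, hC, h1, h2, h3, h4⟩
    refine ⟨R, hR, P, C, R, hR, hC, h1.mono fun z hz => ⟨hz, hz.2⟩, ?_, h3, h4⟩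
    filter_upwards [h2] with δ g
    exact ⟨g.1, fun v hv => ⟨g.2 v hv, (g.2 v hv).2⟩⟩
  mul := by
    rintro b b' K K' F G ⟨P, C, R, hR, hC, h1, h2, h3, h4⟩ ⟨P', C', R', hR', hC', h1', h2', h3', h4'⟩
      ⟨d, s, s', hd, hss, hK, hK'⟩
    have hsep : ∀ᶠ δ in 𝓝[>] (0 : ℝ), (P δ).Sepd (P' δ) := by
      filter_upwards [h2, h2', ev_small (show 0 < (s' - s) / 2 by linarith)] with δ g1 g2 g3
      exact PP.sepd_of hd g3.1 (by linarith [g3.2]) (fun v hv => hK (g1.2 v hv).1) fun v hv => hK' (g2.2 v hv).1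
    have hreg := h1.mul h1'
    have hbox : K ∩ bx 0 R ∪ K' ∩ bx 0 R' ⊆ (K ∪ K') ∩ bx 0 (max R R') := by
      rintro z (⟨hz, hz1, hz2⟩ | ⟨hz, hz1, hz2⟩)
      · exact ⟨Or.inl hz, hz1.trans_le (le_max_left _ _), hz2.trans_le (le_max_left _ _)⟩
      · exact ⟨Or.inr hz, hz1.trans_le (le_max_right _ _), hz2.trans_le (le_max_right _ _)⟩
    cases b with
    | true =>
      refine ⟨fun δ => (P δ).join (P' δ), C * C', max R R', lt_max_of_lt_left hR, mul_nonneg hC hC', hreg.mono hbox,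
        ?_, ?_, fun _ => h4 rfl⟩
      · filter_upwards [h2, h2', hsep] with δ g1 g2 g3
        refine ⟨PP.join_good g1.1 g2.1 g3, fun v hv => hbox ?_⟩
        rcases PP.join_sites _ _ hv with h | h
        · exact Or.inl (g1.2 v h)
        · exact Or.inr (g2.2 v h)
      · filter_upwards [h3, h3'] with δ g1 g2 g
        show ‖F δ g * G δ g‖ ≤ _
        rw [norm_mul]
        calc ‖F δ g‖ * ‖G δ g‖ ≤ (C * (P δ).wt g) * (C' * (P' δ).wt g) :=
              mul_le_mul (g1 g) (g2 g) (norm_nonneg _) (mul_nonneg hC ((P δ).wt_nonneg g))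
          _ = C * C' * ((P δ).wt g * (P' δ).wt g) := by ring
          _ ≤ _ := mul_le_mul_of_nonneg_left (PP.join_wt _ _ g) (mul_nonneg hC hC')
    | false =>
      rw [Bool.false_or]
      refine ⟨fun δ => (P' δ).join (P δ), C * C', max R R', lt_max_of_lt_left hR, mul_nonneg hC hC', hreg.mono hbox,
        ?_, ?_, fun hb => h4' hb⟩
      · filter_upwards [h2, h2', hsep] with δ g1 g2 g3
        refine ⟨PP.join_good g2.1 g1.1 g3.symm, fun v hv => hbox ?_⟩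
        rcases PP.join_sites _ _ hv with h | h
        · exact Or.inr (g2.2 v h)
        · exact Or.inl (g1.2 v h)
      · filter_upwards [h3, h3'] with δ g1 g2 g
        show ‖F δ g * G δ g‖ ≤ _
        rw [norm_mul]
        calc ‖F δ g‖ * ‖G δ g‖ ≤ (C * (P δ).wt g) * (C' * (P' δ).wt g) :=
              mul_le_mul (g1 g) (g2 g) (norm_nonneg _) (mul_nonneg hC ((P δ).wt_nonneg g))
          _ = C * C' * ((P' δ).wt g * (P δ).wt g) := by ring
          _ ≤ _ := mul_le_mul_of_nonneg_left (PP.join_wt _ _ g) (mul_nonneg hC hC')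
  cnj := by
    rintro b K F ⟨P, C, R, hR, hC, h1, h2, h3, h4⟩
    refine ⟨P, C, R, hR, hC, h1.cnj, h2, ?_, h4⟩
    filter_upwards [h3] with δ g1 g
    show ‖conj (F δ g)‖ ≤ _
    rw [Complex.norm_conj]
    exact g1 g
  ref := by
    rintro b K F d m t ε hd hm hε ⟨P, C, R, hR, hC, h1, h2, h3, h4⟩
    have hbx : Metric.thickening ε (GF.refl (dr d) t '' (K ∩ bx 0 R)) ⊆
        Metric.thickening ε (GF.refl (dr d) t '' K) ∩ bx 0 (6 * R + 2 * |t| + ε) := by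
      intro z hz
      obtain ⟨w, ⟨y, hy, rfl⟩, hw⟩ := Metric.mem_thickening_iff.1 hz
      refine ⟨Metric.mem_thickening_iff.2 ⟨_, ⟨y, hy.1, rfl⟩, hw⟩, ?_⟩
      have hy1 : |y.1| < R := by simpa using hy.2.1
      have hy2 : |y.2| < R := by simpa using hy.2.2
      have hb : |(GF.refl (dr d) t y).1| < 6 * R + 2 * |t| ∧ |(GF.refl (dr d) t y).2| < 6 * R + 2 * |t| := by
        have ht := le_abs_self t
        have ht' := neg_abs_le t
        have hs := GF.Lat.dr_dir hd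
        rw [abs_lt] at hy1 hy2
        rcases hs with h | h | h | h | h | h | h | h <;> rw [h] <;> simp only [ell, GF.refl] <;> norm_num <;>
          exact ⟨abs_lt.2 ⟨by linarith, by linarith⟩, abs_lt.2 ⟨by linarith, by linarith⟩⟩
      rw [Prod.dist_eq, max_lt_iff, Real.dist_eq, Real.dist_eq] at hw
      constructor
      · have := abs_sub_abs_le_abs_sub z.1 (GF.refl (dr d) t y).1
        simp only [Prod.fst_zero, sub_zero]
        linarith [hw.1, hb.1]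
      · have := abs_sub_abs_le_abs_sub z.2 (GF.refl (dr d) t y).2
        simp only [Prod.snd_zero, sub_zero]
        linarith [hw.2, hb.2]
    have h0 : ∀ᶠ δ in 𝓝[>] (0 : ℝ), |δ * (m δ : ℝ) - t| < ε / 2 := by
      have := (hm.sub_const t).abs
      rw [sub_self, abs_zero] at this
      exact this.eventually (gt_mem_nhds (by linarith))
    refine ⟨fun δ => (P δ).mp (tau hd (m δ)), C, 6 * R + 2 * |t| + ε, by positivity, hC, (h1.ref hd hm hε).mono hbx,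
      ?_, ?_, fun hb => ?_⟩
    · filter_upwards [h2, h0] with δ g1 g2
      refine ⟨g1.1.mp (tau_lsym hd _) (fun v => lref_par hd _ v), fun v hv => hbx ?_⟩
      rw [PP.mp_sites] at hv
      obtain ⟨y, hy, rfl⟩ := hv
      rw [Metric.mem_thickening_iff]
      refine ⟨GF.refl (dr d) t (sc δ y), ⟨_, g1.2 y hy, rfl⟩, ?_⟩
      have e : sc δ (tau hd (m δ) y) = GF.refl (dr d) (δ * (m δ : ℝ)) (sc δ y) := by
        have := refl_lattice hd δ (m δ) y
        rw [tau_apply]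
        unfold sc
        rw [this]
      rw [e]
      have h5 := refl_near hd (δ * (m δ : ℝ)) t (sc δ y)
      linarith
    · filter_upwards [h3] with δ g1 g
      rw [PP.mp_wt (tau_lsym hd _) (fun v => lref_par hd _ v)]
      exact g1 _
    · have h5 := (h4 hb).thF hdl (inR_pin h2) hd m
      have e : (fun δ => cR ((P δ).mp (tau hd (m δ))).pin) = thF d m (fun δ => cR (P δ).pin) := by
        funext δ g
        unfold cR
        rw [PP.mp_pin (tau_lsym hd _)]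
        rfl
      rw [e]
      exact h5
  bdd := by
    rintro K F ⟨P, C, R, hR, hC, h1, h2, h3, h4⟩
    obtain ⟨B, hB⟩ := (h4 rfl).bdd hdl (inR_pin h2)
    refine ⟨C * |B|, ?_⟩
    filter_upwards [h1, h2, h3, (h4 rfl).1, hB] with δ g1 g2 g3 g4 g5
    obtain ⟨s, g6, _⟩ := g1
    obtain ⟨t, _, g7, _⟩ := g2.1.wt_loc
    classical
    have hA : Pn (s ∪ t) (F δ) := pn_of (g6.mono Finset.subset_union_left) (pinC_of_le g3 g4)
    have hW : Pn (s ∪ t) (cR (P δ).wt) := pn_of (g7.mono Finset.subset_union_right) ((P δ).wt_pin g4)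
    have hB' : Pn (s ∪ t) (fun g => (C : ℂ) * cR (P δ).wt g) := by
      refine pn_of (fun g g' hg => ?_) ?_
      · rw [hW.loc g g' hg]
      · obtain ⟨u, N, hu⟩ := (P δ).wt_pin g4
        exact ⟨u, N, fun g hg => hu g (right_ne_zero_of_mul hg)⟩
    have h5 := DV.norm_M_le hdl hA hB' fun g _ => by
      show ‖F δ g‖ ≤ ((C : ℂ) * ((P δ).wt g : ℂ)).re
      rw [← Complex.ofReal_mul, Complex.ofReal_re]
      exact g3 g
    rw [DV.M_smul hdl hW, Complex.re_ofReal_mul] at h5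
    refine h5.trans (mul_le_mul_of_nonneg_left ?_ hC)
    have h6 : (DV.M (cR (P δ).wt)).re ≤ (DV.M (cR (P δ).pin)).re := pin_le_one hdl g2.1 g4
    exact h6.trans ((Complex.re_le_norm _).trans (g5.trans (le_abs_self _)))
  lst := by
    rintro K F d m s t ⟨P, C, R, hR, hC, h1, h2, h3, h4⟩ hd hm hts hK
    obtain ⟨hp, B, hB⟩ := h4 rfl
    refine ⟨C ^ 2 * |B|, ?_⟩
    have hm' : ∀ᶠ δ in 𝓝[>] (0 : ℝ), δ * (m δ : ℝ) < t + (s - t) / 2 :=
      hm.eventually (gt_mem_nhds (show t < t + (s - t) / 2 by linarith))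
    filter_upwards [h1, h2, h3, hp, hB, hm', ev_small (show 0 < (s - t) / 2 by linarith)] with δ g1 g2 g3 g4 g5 g6 g7
    obtain ⟨s₁, q1, _⟩ := g1
    obtain ⟨s₂, _, q2, q3⟩ := g2.1.wt_loc
    have hτ := tau_lsym hd (m δ)
    have hτe : ∀ v, Even (par (tau hd (m δ) v) - par v) := fun v => lref_par hd _ v
    have hgood := g2.1.mp hτ hτe
    have a1 : nrL d (m δ) (F δ) ≤ C ^ 2 * nrL d (m δ) (cR (P δ).wt) :=
      nrL_le_of hdl (m δ) q1 q2 ((P δ).wt_pin g4) hC fun g => by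
        rw [norm_cR (P δ).wt_nonneg]
        exact g3 g
    have a2 : nrL d (m δ) (cR (P δ).wt) ≤ nrL d (m δ) (cR (P δ).pin) := by
      rw [nrL_pl, nrL_pl]
      simp only [pl_th]
      have e1 : th d (m δ) (cR (P δ).wt) = cR ((P δ).mp (tau hd (m δ))).wt := by
        funext g
        unfold cR
        rw [PP.mp_wt hτ hτe]
        rfl
      have e2 : th d (m δ) (cR (P δ).pin) = cR ((P δ).mp (tau hd (m δ))).pin := by
        funext g
        unfold cR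
        rw [PP.mp_pin hτ]
        rfl
      rw [e1, e2]
      refine pin_le hdl g2.1 hgood ?_ g4 ?_
      · refine (PP.sepd_of (d := d) (s := 2 * t - s + (s - t)) (s' := s) hd g7.1 (by linarith [g7.2])
          (fun v hv => ?_) fun v hv => hK (g2.2 v hv).1).symm
        rw [PP.mp_sites] at hv
        obtain ⟨y, hy, rfl⟩ := hv
        have h5 : s < ell (dr d) (sc δ y) := hK (g2.2 y hy).1
        rw [tau_apply, ell_sc, ld_lref hd]
        rw [ell_sc] at h5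
        push_cast
        have h6 : δ * (2 * (m δ : ℝ) - (ld d y : ℝ)) = 2 * (δ * (m δ : ℝ)) - δ * (ld d y : ℝ) := by ring
        rw [h6]
        linarith
      · rw [← e2]
        exact g4.th d (m δ)
    have a3 : nrL d (m δ) (cR (P δ).pin) ≤ nr2 (cR (P δ).pin) := nrL_le hdl hd (m δ) q3
    refine a1.trans (mul_le_mul_of_nonneg_left ?_ (sq_nonneg C))
    exact (a2.trans a3).trans (g5.trans (le_abs_self _))

/-- **Six cuts for families with normalised deterministic zeros.** `F1` and `F6` contain a uniformly pinned block. -/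
theorem cuts_az (hdl : Deloc) {KY K1 K2 K3 K4 K5 K6 : Set Pl} {Y F1 F2 F3 F4 F5 F6 : Fam}
    {β2 β3 β4 β5 : Bool} (hY : AZ false KY Y) (h1 : AZ true K1 F1) (h2 : AZ β2 K2 F2) (h3 : AZ β3 K3 F3) (h4 : AZ β4 K4 F4)
    (h5 : AZ β5 K5 F5) (h6 : AZ true K6 F6) {a b : Fin 6 → ℝ} (hab : ∀ i, a i < b i) {s : ℝ} (hs : a 5 < s) (hs' : s < b 5)
    (q1 : K1 ⊆ {z | b 0 < ell (dr (1, 0)) z}) (q1' : KY ∪ K6 ∪ K5 ∪ K4 ∪ K3 ∪ K2 ⊆ {z | ell (dr (1, 0)) z < a 0})
    (q2 : K2 ⊆ {z | b 1 < ell (dr (1, 1)) z}) (q2' : KY ∪ K6 ∪ K5 ∪ K4 ∪ K3 ⊆ {z | ell (dr (1, 1)) z < a 1})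
    (q3 : K3 ⊆ {z | b 2 < ell (dr (0, 1)) z}) (q3' : KY ∪ K6 ∪ K5 ∪ K4 ⊆ {z | ell (dr (0, 1)) z < a 2})
    (q4 : K4 ⊆ {z | b 3 < ell (dr (-1, 1)) z}) (q4' : KY ∪ K6 ∪ K5 ⊆ {z | ell (dr (-1, 1)) z < a 3})
    (q5 : K5 ⊆ {z | b 4 < ell (dr (-1, 0)) z}) (q5' : KY ∪ K6 ⊆ {z | ell (dr (-1, 0)) z < a 4})
    (q6 : K6 ⊆ {z | b 5 < ell (dr (-1, -1)) z}) (q6' : KY ⊆ {z | ell (dr (-1, -1)) z < a 5})
    {φ : ℝ → ℝ} (hph : ∀ δ, Phs (φ δ) (Y δ))
    (H : Tendsto (fun δ => ‖muP (dbl (-1, -1) ⌊s / δ⌋ (Y δ))‖) (𝓝[>] 0) (𝓝 0)) :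
    Tendsto (fun δ => ‖DV.M (fun h => Y δ h * F6 δ h * F5 δ h * F4 δ h * F3 δ h * F2 δ h * F1 δ h)‖) (𝓝[>] 0) (𝓝 0) :=
  six_cuts (rps hdl) (cls_AZ hdl) hY h1 h2 h3 h4 h5 h6 hab hs hs' q1 q1' q2 q2' q3 q3' q4 q4' q5 q5' q6 q6'
    (nul_of hdl (by simp [DirZ]) hs ((cls_AZ hdl).reg hY) q6' hph H)

end PL
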