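import Pool.Agent.Helper27.PL.Q6
import Pool.Agent.Helper94.BR.Bl

/-!
# Block PL2 (project DV, MP_973bc8_pr), Q7: products with bounded families, and blocks are uniformly pinned
-/

open Finset Filter Topology ComplexConjugate

namespace PL

open RP4 (V Adj BdryPar Om Zs avg bdry IsHom par Deloc dom LSym img dist1)
open GF (Pl ell bx)
open GF.Lat (ld lref DirZ dr ld_lref lref_lref refl_lattice)
open DV (pr glu nb rv Con nz Sep lev ic AL Pn per muP Mr PR GH Phs Bk Inn Out Is Mp)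

/-- the trivial pin -/
def PP.triv : PP := ⟨∅, Set.univ, []⟩

lemma PP.triv_good : PP.triv.Good := by
  refine ⟨Set.empty_disjoint _, ?_, fun p hp => absurd hp List.not_mem_nil, fun p hp => absurd hp List.not_mem_nil,
    fun p hp => absurd hp List.not_mem_nil, List.Pairwise.nil⟩
  show (Set.univ : Set V)ᶜ.Finite
  rw [Set.compl_univ]
  exact Set.finite_empty

lemma PP.triv_pin (g : V → ℤ) : PP.triv.pin g = 1 := by
  unfold PP.pin DV.ic
  rw [if_pos]
  intro u hu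
  exfalso
  rcases hu with h | ⟨v, h, _⟩
  · exact absurd h (Set.notMem_empty _)
  · exact absurd h (Set.notMem_empty _)

lemma PP.triv_wt (g : V → ℤ) : PP.triv.wt g = 1 := by
  unfold PP.wt
  rw [PP.triv_pin, one_mul]
  rfl

lemma PP.triv_sites {v : V} (hv : v ∈ PP.triv.sites) : False := by
  rcases hv with h | ⟨p, hp, _⟩
  · exact h (Set.mem_univ v)
  · exact absurd hp List.not_mem_nil

/-- bounded families are in the class -/
lemma AZ_of_AB {K : Set Pl} {F : Fam} (h : AB false K F) : AZ false K F := by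
  obtain ⟨⟨C, hC⟩, ⟨R, hR, h2⟩, _⟩ := h
  refine ⟨fun _ => PP.triv, |C|, R, hR, abs_nonneg C, h2, Eventually.of_forall fun δ =>
    ⟨PP.triv_good, fun v hv => (PP.triv_sites hv).elim⟩, ?_, fun hb => Bool.noConfusion hb⟩
  filter_upwards [hC] with δ hδ g
  rw [PP.triv_wt, mul_one]
  exact (hδ g).trans (le_abs_self C)

/-- **The class is stable under products with bounded families of the same region.** -/
lemma AZ.mul_AB {b b' : Bool} {K : Set Pl} {F G : Fam} (hF : AZ b K F) (hG : AB b' K G) : AZ b K (mulF F G) := by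
  obtain ⟨P, C, R, hR, hC, h1, h2, h3, h4⟩ := hF
  obtain ⟨⟨C', hC'⟩, ⟨R', hR', h2'⟩, _⟩ := hG
  have hb : ∀ z : Pl, z ∈ bx 0 R → z ∈ bx 0 (max R R') := fun z hz =>
    ⟨hz.1.trans_le (le_max_left _ _), hz.2.trans_le (le_max_left _ _)⟩
  have hb' : ∀ z : Pl, z ∈ bx 0 R' → z ∈ bx 0 (max R R') := fun z hz =>
    ⟨hz.1.trans_le (le_max_right _ _), hz.2.trans_le (le_max_right _ _)⟩
  have hreg := h1.mul h2'
  have hbox : K ∩ bx 0 R ∪ K ∩ bx 0 R' ⊆ K ∩ bx 0 (max R R') := by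
    rintro z (⟨hz, hz1⟩ | ⟨hz, hz1⟩)
    · exact ⟨hz, hb z hz1⟩
    · exact ⟨hz, hb' z hz1⟩
  refine ⟨P, C * |C'|, max R R', lt_max_of_lt_left hR, mul_nonneg hC (abs_nonneg _), hreg.mono hbox, ?_, ?_, h4⟩
  · filter_upwards [h2] with δ g1
    exact ⟨g1.1, fun v hv => ⟨(g1.2 v hv).1, hb _ (g1.2 v hv).2⟩⟩
  · filter_upwards [h3, hC'] with δ g1 g2 g
    show ‖F δ g * G δ g‖ ≤ _
    rw [norm_mul]
    calc ‖F δ g‖ * ‖G δ g‖ ≤ (C * (P δ).wt g) * |C'| :=
          mul_le_mul (g1 g) ((g2 g).trans (le_abs_self _)) (norm_nonneg _) (mul_nonneg hC ((P δ).wt_nonneg g))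
      _ = C * |C'| * (P δ).wt g := by ring

/-- a bounded pinned family with a pin of the form of the class -/
lemma PR_zero (s : Finset V) : PR s (fun _ => 0) :=
  ⟨DV.al_real fun _ _ _ => rfl, 0, fun g hg => absurd (by simp) hg⟩

lemma PR_add {s : Finset V} {F G : (V → ℤ) → ℝ} (hF : PR s F) (hG : PR s G) :
    PR s fun g => F g + G g := by
  refine ⟨DV.al_real fun g g' h => by rw [hF.loc' g g' h, hG.loc' g g' h], ?_⟩
  obtain ⟨N, hN⟩ := hF.pin
  obtain ⟨N', hN'⟩ := hG.pin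
  refine ⟨max N N', fun g hg => ?_⟩
  by_cases h1 : ((F g : ℝ) : ℂ) = 0
  · have h2 : ((G g : ℝ) : ℂ) ≠ 0 := by
      intro h2
      apply hg
      show ((F g + G g : ℝ) : ℂ) = 0
      rw [Complex.ofReal_add, h1, h2, add_zero]
    obtain ⟨x, hx, h3⟩ := hN' g h2
    exact ⟨x, hx, h3.trans (le_max_right _ _)⟩
  · obtain ⟨x, hx, h3⟩ := hN g h1
    exact ⟨x, hx, h3.trans (le_max_left _ _)⟩

lemma Mr_zero : Mr (fun _ => 0) = 0 := by
  have h : Mr (fun _ : V → ℤ => (0 : ℝ)) = Mr (fun g : V → ℤ => (0 : ℝ) * 0) := by simp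
  unfold DV.Mr DV.M
  have : per (fun g : V → ℤ => (((fun _ => 0 : (V → ℤ) → ℝ) g : ℝ) : ℂ)) = fun _ => (0 : ℂ) := by
    funext h
    unfold per
    simp
  rw [this, DV.muP_const, Complex.zero_re]

/-- `Mr` of a finite sum -/
lemma Mr_sum (hd : Deloc) {ι : Type*} {s : Finset V} (K : Finset ι) {F : ι → (V → ℤ) → ℝ}
    (h : ∀ k ∈ K, PR s (F k)) : PR s (fun g => ∑ k ∈ K, F k g) ∧ Mr (fun g => ∑ k ∈ K, F k g) = ∑ k ∈ K, Mr (F k) := by
  classical
  induction K using Finset.induction_on with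
  | empty =>
    simp only [Finset.sum_empty]
    exact ⟨PR_zero s, Mr_zero⟩
  | insert a K ha ih =>
    obtain ⟨h1, h2⟩ := ih fun k hk => h k (Finset.mem_insert_of_mem hk)
    have h3 := h a (Finset.mem_insert_self a K)
    simp only [Finset.sum_insert ha]
    refine ⟨PR_add h3 h1, ?_⟩
    rw [DV.Mr_add hd h3 h1, h2]

lemma sum_sq_inv (K : Finset ℤ) : ∑ k ∈ K, 1 / (k : ℝ) ^ 2 ≤ ∑' k : ℤ, 1 / (k : ℝ) ^ 2 := by
  refine Summable.sum_le_tsum K (fun k _ => by positivity) ?_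
  exact Real.summable_one_div_int_pow.2 (by norm_num)

/-- the level of a block -/
lemma bk_lev (k : ℤ) (δ : ℝ) (z : Pl) (r s : ℝ) (g : V → ℤ) : ic (Bk 0 δ z r s) (lev k g) = ic (Bk k δ z r s) g := by
  refine DV.ic_congr ?_
  unfold DV.Bk
  have : lev 0 (lev k g) = lev k g := by
    funext v
    simp [DV.lev]
  rw [this]

lemma dist_bd (S : Finset V) : ∃ B : ℤ, ∀ x ∈ S, ∀ y ∈ S, dist1 x y ≤ B := by
  classical
  obtain ⟨B, hB⟩ := ((S ×ˢ S).image fun q : V × V => dist1 q.1 q.2).bddAbove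
  refine ⟨B, fun x hx y hy => hB ?_⟩
  rw [Finset.mem_coe, Finset.mem_image]
  exact ⟨(x, y), Finset.mem_product.2 ⟨hx, hy⟩, rfl⟩

/-- **A block is uniformly pinned.** -/
theorem UP_bk (hd : Deloc) (z : Pl) {r s : ℝ} (hr : 0 < r) (hrs : r < s) : UP (fun δ => cR (ic (Bk 0 δ z r s))) := by
  classical
  obtain ⟨C₁, hC₁, h₁⟩ := DV.bk_upper hd z hr hrs
  obtain ⟨C₂, hC₂, h₂⟩ := DV.bk_two hd z z hr hrs hr hrs (by rw [dist_self, zero_add])
  have hz : ∀ (δ : ℝ), Bk 0 δ z r s = DV.Sep (Inn δ z r) (Out δ z s) := by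
    intro δ
    funext g
    unfold DV.Bk
    have : lev 0 g = g := by
      funext v
      simp [DV.lev]
    rw [this]
  have hev : ∀ᶠ δ in 𝓝[>] (0 : ℝ), 0 < δ ∧ δ ≤ r ∧ r + δ < s := by
    have h1 : 0 < min r ((s - r) / 2) := lt_min hr (by linarith)
    filter_upwards [Ioc_mem_nhdsGT h1] with δ hδ
    have h2 := hδ.2.trans (min_le_left _ _)
    have h3 := hδ.2.trans (min_le_right _ _)
    exact ⟨hδ.1, h2, by linarith⟩
  have hPR : ∀ δ : ℝ, 0 < δ → δ ≤ r → r + δ < s → PR (Is δ z s) (ic (Bk 0 δ z r s)) := by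
    intro δ h1 h2 h3
    rw [hz]
    exact DV.PR_sep' (DV.Inn_nonempty h1 z h2) (DV.disj_Inn_Out h1 h3) (DV.compl_Out_sub h1 z s)
  refine ⟨?_, C₁ + C₂ * ∑' k : ℤ, 1 / (k : ℝ) ^ 2, ?_⟩
  · filter_upwards [hev] with δ hδ
    obtain ⟨N, hN⟩ := (hPR δ hδ.1 hδ.2.1 hδ.2.2).pin
    exact ⟨Is δ z s, N, hN⟩
  · filter_upwards [hev, h₁, h₂] with δ hδ e₁ e₂
    obtain ⟨hδ0, hδr, hδs⟩ := hδ
    have hP := hPR δ hδ0 hδr hδs
    set p := ic (Bk 0 δ z r s) with hp
    have hp0 : ∀ g, 0 ≤ p g := fun g => ic_nonneg _ _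
    have hp1 : ∀ g, p g ≤ 1 := fun g => ic_le_one _ _
    have hloc : LocC (Is δ z s) (cR p) := fun g g' hg => by
      unfold cR
      rw [hP.loc' g g' hg]
    have hpin : PinC (cR p) := by
      obtain ⟨N, hN⟩ := hP.pin
      exact ⟨Is δ z s, N, hN⟩
    obtain ⟨N, hN⟩ := hP.pin
    have e0 : nr2 (cR p) = Mr (fun g => p g * pl (cR p) g) := by
      rw [nr2_eq]
      have := mup_pl (a := p) (b := p) hp0
      unfold DV.Mr
      rw [← this]
      congr 2
      funext h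
      rw [sq]
    rw [e0]
    -- the levels that matter
    obtain ⟨B, hB⟩ := dist_bd (Is δ z s)
    set K : Finset ℤ := Finset.Icc (-(|N| + |B|)) (|N| + |B|) with hK
    have key : ∀ g, GH g → ∀ k : ℤ, p g ≠ 0 → p (lev k g) ≠ 0 → k ∈ K := by
      intro g hg k h1 h2
      obtain ⟨x, hx, hx'⟩ := hN g (by
        show ((p g : ℝ) : ℂ) ≠ 0
        exact_mod_cast h1)
      obtain ⟨y, hy, hy'⟩ := hN (lev k g) (by
        show ((p (lev k g) : ℝ) : ℂ) ≠ 0
        exact_mod_cast h2)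
      have h3 := DV.gh_lip_pm3 hg x y
      have h4 := hB x hx y hy
      unfold DV.lev at hy'
      rw [hK, Finset.mem_Icc]
      have h5 := le_abs_self N
      have h6 := le_abs_self B
      rw [abs_le] at hx' hy' h3
      omega
    have ep : ∀ (k : ℤ) (g : V → ℤ), ic (Bk k δ z r s) g = p (lev k g) := fun k g => (bk_lev k δ z r s g).symm
    have hF : ∀ k ∈ K, PR (Is δ z s) (fun g => p g * ic (Bk k δ z r s) g) := by
      intro k _
      refine hP.mul fun g g' h => ?_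
      rw [ep, ep]
      refine hP.loc' _ _ fun x hx => ?_
      unfold DV.lev
      rw [h x hx]
    obtain ⟨u, hu⟩ := pn_mul_pl hloc hpin hloc
    obtain ⟨q1, q2⟩ := Mr_sum hd K hF
    have h5 : Mr (fun g => p g * pl (cR p) g) ≤ Mr (fun g => ∑ k ∈ K, p g * ic (Bk k δ z r s) g) := by
      refine DV.Mr_mono_GH hd hu q1 (fun g _ => mul_nonneg (hp0 g) (pl_nonneg _ _)) fun g hg => ?_
      by_cases h0 : p g = 0
      · rw [h0, zero_mul]
        simp
      · rw [← Finset.mul_sum]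
        refine mul_le_mul_of_nonneg_left (le_of_eq ?_) (hp0 g)
        rw [pl_cR hp0]
        simp only [ep]
        refine finsum_eq_sum_of_support_subset _ fun k hk => ?_
        rw [Finset.mem_coe]
        exact key g hg k h0 hk
    refine h5.trans ?_
    rw [q2]
    have h6 : ∀ k ∈ K, Mr (fun g => p g * ic (Bk k δ z r s) g) ≤ (if k = 0 then C₁ else 0) + C₂ * (1 / (k : ℝ) ^ 2) := by
      intro k _
      by_cases h0 : k = 0
      · subst h0
        rw [if_pos rfl]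
        have e : (fun g => p g * ic (Bk 0 δ z r s) g) = ic (Bk 0 δ z r s) := by
          funext g
          show ic (Bk 0 δ z r s) g * ic (Bk 0 δ z r s) g = ic (Bk 0 δ z r s) g
          unfold DV.ic
          split_ifs <;> norm_num
        rw [e]
        have h8 : Mr (ic (Bk 0 δ z r s)) ≤ C₁ := e₁
        simpa using h8
      · rw [if_neg h0, zero_add, mul_one_div]
        exact e₂ k h0
    refine (Finset.sum_le_sum h6).trans ?_
    rw [Finset.sum_add_distrib, ← Finset.mul_sum]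
    have h7 : ∑ k ∈ K, (if k = 0 then C₁ else 0) ≤ C₁ := by
      rw [Finset.sum_ite_eq' K 0 fun _ => C₁]
      split_ifs
      · exact le_rfl
      · exact hC₁.le
    exact add_le_add h7 (mul_le_mul_of_nonneg_left (sum_sq_inv K) hC₂.le)

end PL
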